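import Pool.Agent.LibND37.Defs

/-!
The filtration of a grading, and when it is the monodromy filtration.
-/

namespace Pool.Agent.ND37

open Module Polynomial Pool.Agent.WM85 Pool.Agent.LibX1

variable {K V : Type*} [Field K] [AddCommGroup V] [Module K V]

/-- The part of degree `≤ s`. -/
def fil (p : ℤ → Module.End K V) (s : ℤ) : Submodule K V :=
  ⨅ t : ℤ, ⨅ _ : s < t, LinearMap.ker (p t)

theorem mem_fil {p : ℤ → Module.End K V} {s : ℤ} {x : V} :
    x ∈ fil p s ↔ ∀ t, s < t → p t x = 0 := by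
  simp [fil]

section
variable {c : ℕ} {p : ℤ → Module.End K V} {G : ℤ → Submodule K V}

theorem comm_of_shift (hp : Grading c p) (hG : ∀ r x, x ∈ G r ↔ p r x = x) {d : ℤ}
    {N : Module.End K V} (hN : ∀ r, ∀ x ∈ G r, N x ∈ G (r + d)) (r : ℤ) :
    N * p r = p (r + d) * N := by
  have h1 : ∀ t x, p (t + d) (N (p t x)) = N (p t x) := by
    intro t x
    exact (hG _ _).mp (hN t _ ((hG _ _).mpr (hp.apply_idem t x)))
  apply hp.ext
  intro t
  ext x
  simp only [Module.End.mul_apply]
  by_cases h : r = t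
  · subst h
    rw [hp.apply_idem, h1]
  · rw [hp.apply_orth h, map_zero, ← h1 t x, hp.apply_orth (by omega)]

theorem proj_of_grading (hp : Grading c p) (hG : ∀ r x, x ∈ G r ↔ p r x = x) : Proj G p where
  mem r x := (hG r _).mpr (hp.apply_idem r x)
  self r x hx := (hG r x).mp hx
  ne r t hrt x hx := by
    rw [← (hG t x).mp hx]
    exact hp.apply_orth hrt x
  sum x := ⟨_, (hp.sum_apply x).symm⟩

theorem eq_bot_of_grading (hp : Grading c p) (hG : ∀ r x, x ∈ G r ↔ p r x = x) {r : ℤ}
    (hr : (c : ℤ) < |r|) : G r = ⊥ := by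
  rw [eq_bot_iff]
  intro x hx
  have h1 := (hG r x).mp hx
  rw [hp.zero, LinearMap.zero_apply] at h1
  · exact h1.symm
  · rw [Finset.mem_Icc]
    rintro ⟨h2, h3⟩
    rcases abs_cases r with h | h <;> omega

theorem isMono_fil [FiniteDimensional K V] (hp : Grading c p)
    (hG : ∀ r x, x ∈ G r ↔ p r x = x) {N : Module.End K V}
    (hN : ∀ r, ∀ x ∈ G r, N x ∈ G (r - 2))
    (hinj : ∀ r : ℕ, ∀ x ∈ G r, (N ^ r) x = 0 → x = 0)
    (hdim : ∀ r : ℕ, finrank K (G r) = finrank K (G (-r))) : IsMono N (fil p) := by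
  have hc : ∀ k, N * p k = p (k - 2) * N := by
    intro k
    have := comm_of_shift hp hG (d := -2) (N := N) (fun r x hx => by
      have := hN r x hx
      rwa [show r + -2 = r - 2 by ring]) k
    rwa [show k + -2 = k - 2 by ring] at this
  have hpow : ∀ (j : ℕ) (k : ℤ) (x : V), (N ^ j) (p k x) = p (k - 2 * j) ((N ^ j) x) := by
    intro j k x
    have := LinearMap.congr_fun (pow_deg hc j k) x
    simpa [Module.End.mul_apply] using this
  have hsurj : ∀ r : ℕ, ∀ y ∈ G (-r), ∃ x ∈ G r, (N ^ r) x = y := by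
    intro r y hy
    have h1 : ∀ x ∈ G r, (N ^ r) x ∈ G (-r) := by
      intro x hx
      rw [hG]
      have h2 := hpow r r x
      rw [(hG _ _).mp hx, show (r : ℤ) - 2 * r = -r by ring] at h2
      exact h2.symm
    let f : G r →ₗ[K] G (-r) := (N ^ r).restrict h1
    have hf : Function.Injective f := by
      rw [injective_iff_map_eq_zero]
      intro x hx
      apply Subtype.ext
      exact hinj r x x.2 (congrArg Subtype.val hx)
    have hf2 : Function.Surjective f :=
      (LinearMap.injective_iff_surjective_of_finrank_eq_finrank (hdim r)).mp hf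
    obtain ⟨x, hx⟩ := hf2 ⟨y, hy⟩
    exact ⟨x, x.2, congrArg Subtype.val hx⟩
  refine ⟨?_, ?_, ?_, ?_, ?_, ?_⟩
  · intro s x hx
    rw [mem_fil] at hx ⊢
    exact fun t ht => hx t (by omega)
  · refine ⟨-c - 1, ?_⟩
    rw [eq_bot_iff]
    intro x hx
    rw [mem_fil] at hx
    rw [Submodule.mem_bot, ← hp.sum_apply x]
    apply Finset.sum_eq_zero
    intro t ht
    rw [Finset.mem_Icc] at ht
    exact hx t (by omega)
  · refine ⟨c, ?_⟩
    rw [eq_top_iff]
    intro x _
    rw [mem_fil]
    intro t ht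
    rw [hp.zero, LinearMap.zero_apply]
    rw [Finset.mem_Icc]
    omega
  · intro s x hx
    rw [mem_fil] at hx ⊢
    intro t ht
    have h1 := LinearMap.congr_fun (hc (t + 2)) x
    simp only [Module.End.mul_apply] at h1
    rw [hx _ (by omega), map_zero, show t + 2 - 2 = t by ring] at h1
    exact h1.symm
  · intro s x hx hNx
    rw [mem_fil] at hx hNx ⊢
    intro t ht
    rcases eq_or_lt_of_le (show (s : ℤ) ≤ t by omega) with h | h
    · subst h
      have h1 := hpow s s x
      rw [hNx _ (by omega)] at h1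
      exact hinj s _ ((hG _ _).mpr (hp.apply_idem _ x)) h1
    · exact hx t h
  · intro s y hy
    rw [mem_fil] at hy
    obtain ⟨x, hx, hxy⟩ := hsurj s (p (-s) y) ((hG _ _).mpr (hp.apply_idem _ y))
    refine ⟨x, ?_, ?_⟩
    · rw [mem_fil]
      intro t ht
      rw [← (hG _ _).mp hx]
      exact hp.apply_orth (by omega) x
    · rw [mem_fil]
      intro t ht
      rw [map_sub, hxy]
      rcases eq_or_lt_of_le (show -(s : ℤ) ≤ t by omega) with h | h
      · subst h
        rw [hp.apply_idem, sub_self]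
      · rw [hy t h, hp.apply_orth (by omega), sub_zero]

theorem pure_fil {q : ℕ} {m : ℤ} {F : Module.End K V} (hp : Grading c p)
    (hG : ∀ r x, x ∈ G r ↔ p r x = x) (hst : ∀ r, G r ≤ (G r).comap F)
    (hP : ∀ r, PureOn q (m + r) F (G r)) (s : ℤ) : PureGr q (m + s) F (fil p) s := by
  have hc : ∀ k, F * p k = p k * F := by
    intro k
    have := comm_of_shift hp hG (d := 0) (N := F) (fun r x hx => by
      rw [add_zero]
      exact hst r hx) k
    rwa [add_zero] at this
  have hs : ∀ k, fil p k ≤ (fil p k).comap F := by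
    intro k x hx
    rw [Submodule.mem_comap, mem_fil]
    rw [mem_fil] at hx
    intro t ht
    have h1 := LinearMap.congr_fun (hc t) x
    simp only [Module.End.mul_apply] at h1
    rw [hx t ht, map_zero] at h1
    exact h1.symm
  obtain ⟨R, hR1, hR2⟩ := hP s
  refine ⟨R, hR1, fun x hx => ?_⟩
  have h1 : x - p s x ∈ fil p (s - 1) := by
    rw [mem_fil] at hx ⊢
    intro t ht
    rw [map_sub]
    rcases eq_or_lt_of_le (show s ≤ t by omega) with h | h
    · subst h
      rw [hp.apply_idem, sub_self]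
    · rw [hx t h, hp.apply_orth (by omega), sub_zero]
  have h2 : (aeval F R) x = (aeval F R) (x - p s x) := by
    rw [map_sub, hR2 _ ((hG _ _).mpr (hp.apply_idem s x)), sub_zero]
  rw [h2]
  exact aeval_mem F (hs _) R h1

end

end Pool.Agent.ND37
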