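import Pool.Agent.LibND37.Defs

/-! G2 (MEDIUM): the weight spaces. `choose R hR1 hR2 using hP` (`R k s` is `Weil q (m + k + s)`, `aeval F (R k s)` maps `M k s` to `M k (s - 1)`).
Take `c` with `W (-c - 1) = ⊥`, `W c = ⊤` (`hW.bot`, `hW.top`, `IsMono.monotone` in LibWM85/Mono) and `d` such that for all `k ∈ Icc (-c) c`: `M k (-d - 1) = W (k - 1)`, `M k d = W k`
(from `bot`, `top`, `ge`, `le` and monotonicity; a maximum over the finite set of `k`). Then `aeval F (∏ s ∈ Icc (-d) d, R k s)` maps `W k` to `W (k - 1)` (induction, polynomials in `F` commute), so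
`aeval F (∏ k ∈ Icc (-c) c, ∏ s ∈ Icc (-d) d, R k s) = 0`. Put `Q r = ∏ k ∈ Icc (-c) c, R k (r - k)`: `Weil q (m + r) (Q r)` (`Weil.mul`, `Weil.one`, `Finset.prod_induction`), and with
`T = Icc (-(c + d)) (c + d)`: the double product divides `∏ r ∈ T, Q r = ∏ k, ∏ r ∈ T, R k (r - k)` (`Finset.prod_comm`; for fixed `k` the `s = r - k` run over an interval which contains
`Icc (-d) d`: `Finset.prod_dvd_prod_of_subset` after `Finset.prod_image`/`prod_bij`). So `aeval F (∏ r ∈ T, Q r) = 0`. `G r = ker (aeval F (Q r))` for ALL `r`.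
`PureOn` is clear. Internal: `pure_indep hq` (LibX1/Pure) gives `iSupIndep G`; `⨆ r, G r = ⊤`: by induction on the finite set `T`, `ker (aeval F (∏ r ∈ T, P r)) ≤ ⨆ r ∈ T, ker (aeval F (P r))` for
pairwise coprime `P r = (Q r).map (algebraMap ℤ K)` (`Weil.coprime K hq` in LibX1/Grade, `IsCoprime.prod_right`, `Polynomial.sup_ker_aeval_eq_ker_aeval_mul_of_coprime`, `aeval_map_algebraMap`).
`DirectSum.isInternal_submodule_of_iSupIndep_of_iSup_eq_top` (or a similar name). -/

namespace Pool.Agent.ND37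

open Module Polynomial Pool.Agent.WM85 Pool.Agent.LibX1

variable {K V : Type*} [Field K] [AddCommGroup V] [Module K V]

private def wsp (q : ℕ) (w : ℤ) (F : Module.End K V) : Submodule K V where
  carrier := {x | ∃ R : ℤ[X], Weil q w R ∧ (aeval F R) x = 0}
  zero_mem' := ⟨1, Weil.one q w, map_zero _⟩
  add_mem' := by
    rintro x y ⟨R, hR, hx⟩ ⟨R', hR', hy⟩
    refine ⟨R * R', hR.mul hR', ?_⟩
    have h1 : (aeval F (R * R')) x = 0 := by
      rw [mul_comm, map_mul, Module.End.mul_apply, hx, map_zero]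
    have h2 : (aeval F (R * R')) y = 0 := by
      rw [map_mul, Module.End.mul_apply, hy, map_zero]
    rw [map_add, h1, h2, add_zero]
  smul_mem' := by
    rintro c x ⟨R, hR, hx⟩
    exact ⟨R, hR, by rw [map_smul, hx, smul_zero]⟩

private theorem mem_wsp {q : ℕ} {w : ℤ} {F : Module.End K V} {x : V} :
    x ∈ wsp q w F ↔ ∃ R : ℤ[X], Weil q w R ∧ (aeval F R) x = 0 := Iff.rfl

private theorem pureOn_wsp [FiniteDimensional K V] (q : ℕ) (w : ℤ) (F : Module.End K V) :
    PureOn q w F (wsp q w F) := by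
  classical
  obtain ⟨s, hs⟩ := IsNoetherian.noetherian (wsp q w F)
  have h1 : ∀ x ∈ s, PureOn q w F (Submodule.span K {x}) := by
    intro x hx
    have hx' : x ∈ wsp q w F := by
      rw [← hs]
      exact Submodule.subset_span hx
    obtain ⟨R, hR, hRx⟩ := hx'
    refine ⟨R, hR, fun y hy => ?_⟩
    obtain ⟨a, rfl⟩ := Submodule.mem_span_singleton.mp hy
    rw [map_smul, hRx, smul_zero]
  have h2 := PureOn.finset s h1
  apply h2.mono
  rw [← hs, Submodule.span_le]
  intro x hx
  exact Submodule.mem_iSup_of_mem x (Submodule.mem_iSup_of_mem hx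
    (Submodule.mem_span_singleton_self x))

private theorem divide [CharZero K] {q : ℕ} (hq : 1 < q) {m r : ℤ} {F : Module.End K V}
    {P : ℤ[X]} (hP : Weil q (m + r) P) {y : V} (hy : y ∈ ⨆ s, wsp q (m + s) F) :
    ∃ z ∈ ⨆ s, wsp q (m + s) F, y - (aeval F P) z ∈ wsp q (m + r) F := by
  induction hy using Submodule.iSup_induction' with
  | mem s y hy =>
    by_cases hs : s = r
    · subst hs
      exact ⟨0, Submodule.zero_mem _, by rwa [map_zero, sub_zero]⟩
    · obtain ⟨R, hR, hRy⟩ := hy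
      obtain ⟨a, b, hab⟩ := Weil.coprime K hq (by omega : m + r ≠ m + s) hP hR
      refine ⟨(aeval F a) y, Submodule.mem_iSup_of_mem s ⟨R, hR, ?_⟩, ?_⟩
      · rw [← aeval_map_algebraMap K, ← Module.End.mul_apply, ← map_mul, mul_comm, map_mul,
          Module.End.mul_apply, aeval_map_algebraMap, hRy, map_zero]
      · have h1 : (aeval F (a * P.map (algebraMap ℤ K) + b * R.map (algebraMap ℤ K))) y = y := by
          rw [hab, map_one, Module.End.one_apply]
        rw [map_add, LinearMap.add_apply, map_mul (aeval F) b, Module.End.mul_apply,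
          aeval_map_algebraMap, hRy, map_zero, add_zero, mul_comm, map_mul, Module.End.mul_apply,
          aeval_map_algebraMap] at h1
        rw [h1, sub_self]
        exact Submodule.zero_mem _
  | zero => exact ⟨0, Submodule.zero_mem _, by rw [map_zero, sub_zero]; exact Submodule.zero_mem _⟩
  | add x y _ _ hx hy =>
    obtain ⟨z, hz, hz'⟩ := hx
    obtain ⟨t, ht, ht'⟩ := hy
    refine ⟨z + t, Submodule.add_mem _ hz ht, ?_⟩
    have h1 := Submodule.add_mem _ hz' ht'
    have h2 : x + y - (aeval F P) (z + t) = x - (aeval F P) z + (y - (aeval F P) t) := by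
      rw [map_add]; abel
    rwa [h2]

private theorem absorb [CharZero K] {q : ℕ} (hq : 1 < q) {m r : ℤ} {F : Module.End K V}
    {P : ℤ[X]} (hP : Weil q (m + r) P) {x : V} (hx : (aeval F P) x ∈ ⨆ s, wsp q (m + s) F) :
    x ∈ ⨆ s, wsp q (m + s) F := by
  obtain ⟨z, hz, hz'⟩ := divide hq hP hx
  rw [← map_sub] at hz'
  obtain ⟨R, hR, hR'⟩ := hz'
  have h1 : x - z ∈ wsp q (m + r) F :=
    ⟨R * P, hR.mul hP, by rw [map_mul, Module.End.mul_apply, hR']⟩
  have h2 := Submodule.add_mem _ (Submodule.mem_iSup_of_mem r h1) hz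
  rwa [sub_add_cancel] at h2

private theorem climb {M : ℤ → Submodule K V} (hmono : ∀ s, M (s - 1) ≤ M s)
    {U : Submodule K V} (hstep : ∀ s, M (s - 1) ≤ U → M s ≤ U) {a : ℤ} (ha : M a ≤ U) (b : ℤ) :
    M b ≤ U := by
  have hm : Monotone M := by
    apply monotone_int_of_le_succ
    intro s
    have := hmono (s + 1)
    simpa using this
  have h1 : ∀ n : ℕ, M (a + n) ≤ U := by
    intro n
    induction n with
    | zero => simpa using ha
    | succ n ih =>
      apply hstep
      have e : a + ((n + 1 : ℕ) : ℤ) - 1 = a + n := by push_cast; ring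
      rwa [e]
  exact (hm (by omega : b ≤ a + ((b - a).toNat : ℕ))).trans (h1 _)

theorem exists_weights [CharZero K] [FiniteDimensional K V] {q : ℕ} (hq : 1 < q) {m : ℤ}
    {N₀ N₁ F : Module.End K V} {W : ℤ → Submodule K V} (hW : IsMono N₀ W)
    {M : ℤ → ℤ → Submodule K V} (hM : ∀ k, RelMono N₁ (W (k - 1)) (W k) (M k))
    (hP : ∀ k s, PureGr q (m + k + s) F (M k) s) :
    ∃ G : ℤ → Submodule K V, DirectSum.IsInternal G ∧ ∀ r, PureOn q (m + r) F (G r) := by
  refine ⟨fun r => wsp q (m + r) F, ?_, fun r => pureOn_wsp q (m + r) F⟩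
  apply DirectSum.isInternal_submodule_of_iSupIndep_of_iSup_eq_top
  · exact pure_indep hq fun r => pureOn_wsp q (m + r) F
  · rw [eq_top_iff]
    have hWk : ∀ k, W (k - 1) ≤ ⨆ s, wsp q (m + s) F → W k ≤ ⨆ s, wsp q (m + s) F := by
      intro k hk
      obtain ⟨a, ha⟩ := (hM k).bot
      obtain ⟨b, hb⟩ := (hM k).top
      rw [← ha] at hk
      rw [← hb]
      refine climb (hM k).mono (fun s hs x hx => ?_) hk b
      obtain ⟨R, hR, hR'⟩ := hP k s
      rw [add_assoc] at hR
      exact absorb hq hR (hs (hR' x hx))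
    obtain ⟨a, ha⟩ := hW.bot
    obtain ⟨b, hb⟩ := hW.top
    rw [← hb]
    refine climb hW.mono hWk (a := a) ?_ b
    rw [ha]
    exact bot_le

end Pool.Agent.ND37
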