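import Pool.Agent.LibND37.Defs

/-! G2b (SHORT/MEDIUM): `exists_proj` (LibX1/Grade) gives `p : Proj G p` (structure in LibX1/Strings); only finitely many `G r` are not `⊥` (`WellFoundedGT.finite_ne_bot_of_iSupIndep`,
`DirectSum.IsInternal.submodule_iSupIndep`), so there is `c` with `G r = ⊥` for `r ∉ Icc (-c) c`; `∑ r ∈ Icc (-c) c, p r = 1` from `Proj.sum`, `Proj.mem`, `Proj.self`, `Proj.ne`.
`pure_le`: take `p` with `Proj G p`; for `x ∈ S` and `t ≠ r`: `p t x ∈ S` (`stable_proj` in LibX1/Grade), killed by `R(F)` for `S` and by `Q(F)` for `G t`, coprime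
(`Weil.coprime K hq`), so `p t x = 0` (`aeval_map_algebraMap`; see the proof of `stable_proj` for the pattern). So `x = p r x ∈ G r` by `Proj.sum`.
`G_stable`: `S = ` the span of all `(F ^ i) x`, or more simply: `S = (G r).map F ⊔ G r`... simplest: `S = ker (aeval F R)` with `R` from `hP r`: it is `F`-stable (polynomials in `F` commute),
pure of weight `m + r`, contains `G r`, so it equals `G r` by `pure_le`. `G_shift`: `S = (G r).map N` is `F`-stable (`F (N x) = q⁻¹ N (F x)`, `G_stable`) and pure of weight `m + (r - 2)`: with `R` for `G r`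
take `R.comp (C (q : ℤ) * X)`: `aeval F (R.comp (C q * X)) (N x) = N (aeval F R x)` (since `(q F) (N x) = N (F x)`, i.e. `aeval F (R.comp (C q * X)) = aeval (q • F) R`, `aeval_intertwine` in LibX1/Pure),
it is not zero and its complex roots are `z / q`. -/

namespace Pool.Agent.ND37

open Module Polynomial Pool.Agent.WM85 Pool.Agent.LibX1

variable {K V : Type*} [Field K] [AddCommGroup V] [Module K V]

private theorem G2b_out {G : ℤ → Submodule K V} {p : ℤ → V →ₗ[K] V} (hp : Proj G p)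
    {t : Finset ℤ} {x : V} (ht : x = ∑ r ∈ t, p r x) {r : ℤ} (hr : r ∉ t) : p r x = 0 := by
  rw [ht, map_sum]
  apply Finset.sum_eq_zero
  intro i hi
  refine hp.ne _ _ ?_ _ (hp.mem i x)
  rintro rfl
  exact hr hi

theorem exists_grading [FiniteDimensional K V] {G : ℤ → Submodule K V}
    (hG : DirectSum.IsInternal G) : ∃ (c : ℕ) (p : ℤ → Module.End K V), Grading c p ∧
      ∀ r x, x ∈ G r ↔ p r x = x := by
  classical
  obtain ⟨p, hp⟩ := exists_proj hG
  have hfin : Set.Finite {r : ℤ | G r ≠ ⊥} :=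
    WellFoundedGT.finite_ne_bot_of_iSupIndep (DirectSum.IsInternal.submodule_iSupIndep hG)
  have hbot : ∀ r : ℤ, r ∉ Finset.Icc (-((hfin.toFinset.sup Int.natAbs : ℕ) : ℤ))
      ((hfin.toFinset.sup Int.natAbs : ℕ) : ℤ) → G r = ⊥ := by
    intro r hr
    by_contra hne
    have h1 : r ∈ hfin.toFinset := by
      rw [Set.Finite.mem_toFinset]
      exact hne
    have h2 : Int.natAbs r ≤ hfin.toFinset.sup Int.natAbs := Finset.le_sup (f := Int.natAbs) h1
    apply hr
    rw [Finset.mem_Icc]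
    omega
  refine ⟨hfin.toFinset.sup Int.natAbs, p, ⟨?_, ?_, ?_⟩, ?_⟩
  · intro k
    ext x
    exact hp.self _ _ (hp.mem k x)
  · intro k l hkl
    ext x
    exact hp.ne _ _ hkl _ (hp.mem l x)
  · ext x
    rw [LinearMap.sum_apply, Module.End.one_apply]
    obtain ⟨t, ht⟩ := hp.sum x
    have h1 : ∑ r ∈ t, p r x = ∑ r ∈ t ∪ Finset.Icc (-((hfin.toFinset.sup Int.natAbs : ℕ) : ℤ))
        ((hfin.toFinset.sup Int.natAbs : ℕ) : ℤ), p r x :=
      Finset.sum_subset Finset.subset_union_left fun r _ hr => G2b_out hp ht hr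
    have h2 : ∑ r ∈ Finset.Icc (-((hfin.toFinset.sup Int.natAbs : ℕ) : ℤ))
        ((hfin.toFinset.sup Int.natAbs : ℕ) : ℤ), p r x
        = ∑ r ∈ t ∪ Finset.Icc (-((hfin.toFinset.sup Int.natAbs : ℕ) : ℤ))
          ((hfin.toFinset.sup Int.natAbs : ℕ) : ℤ), p r x := by
      apply Finset.sum_subset Finset.subset_union_right
      intro r _ hr
      have h3 := hp.mem r x
      rw [hbot r hr] at h3
      exact (Submodule.mem_bot K).mp h3
    rw [h2, ← h1]
    exact ht.symm
  · intro r x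
    refine ⟨fun hx => hp.self _ _ hx, fun hx => ?_⟩
    rw [← hx]
    exact hp.mem r x

/-- An `F`-stable subspace which is pure of weight `m + r` lies in `G r`. -/
theorem pure_le [CharZero K] {q : ℕ} (hq : 1 < q) {m : ℤ} {F : Module.End K V}
    {G : ℤ → Submodule K V} (hG : DirectSum.IsInternal G) (hP : ∀ r, PureOn q (m + r) F (G r))
    {S : Submodule K V} (hS : S ≤ S.comap F) {r : ℤ} (hSP : PureOn q (m + r) F S) : S ≤ G r := by
  obtain ⟨p, hp⟩ := exists_proj hG
  obtain ⟨R, hR1, hR2⟩ := hSP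
  intro x hx
  obtain ⟨t, ht⟩ := hp.sum x
  rw [ht]
  apply Submodule.sum_mem
  intro i _
  by_cases hi : i = r
  · rw [hi]
    exact hp.mem r x
  · have h1 : p i x ∈ S := stable_proj hq hp hP hS i hx
    obtain ⟨Q, hQ1, hQ2⟩ := hP i
    obtain ⟨a, b, hab⟩ := Weil.coprime K hq (show m + r ≠ m + i by
      intro h; exact hi (by omega)) hR1 hQ1
    have h2 : (aeval F (R.map (algebraMap ℤ K))) (p i x) = 0 := by
      rw [aeval_map_algebraMap]
      exact hR2 _ h1
    have h3 : (aeval F (Q.map (algebraMap ℤ K))) (p i x) = 0 := by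
      rw [aeval_map_algebraMap]
      exact hQ2 _ (hp.mem i x)
    have h4 : (aeval F (a * R.map (algebraMap ℤ K) + b * Q.map (algebraMap ℤ K))) (p i x)
        = p i x := by
      rw [hab, map_one, Module.End.one_apply]
    rw [map_add, LinearMap.add_apply, map_mul, map_mul, Module.End.mul_apply,
      Module.End.mul_apply, h2, h3, map_zero, map_zero, add_zero] at h4
    rw [← h4]
    exact Submodule.zero_mem _

/-- `F` preserves the weight spaces. -/
theorem G_stable [CharZero K] {q : ℕ} (hq : 1 < q) {m : ℤ} {F : Module.End K V}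
    {G : ℤ → Submodule K V} (hG : DirectSum.IsInternal G) (hP : ∀ r, PureOn q (m + r) F (G r))
    (r : ℤ) : G r ≤ (G r).comap F := by
  obtain ⟨R, hR1, hR2⟩ := hP r
  have hS : LinearMap.ker (aeval F R) ≤ (LinearMap.ker (aeval F R)).comap F := by
    intro x hx
    rw [LinearMap.mem_ker] at hx
    rw [Submodule.mem_comap, LinearMap.mem_ker]
    have h1 : aeval F R (F x) = F (aeval F R x) := by
      have h2 : aeval F R * F = F * aeval F R := by
        have h3 : aeval F (R * X) = aeval F (X * R) := by rw [mul_comm]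
        rwa [map_mul, map_mul, aeval_X] at h3
      rw [← Module.End.mul_apply, h2, Module.End.mul_apply]
    rw [h1, hx, map_zero]
  have hle : LinearMap.ker (aeval F R) ≤ G r :=
    pure_le hq hG hP hS ⟨R, hR1, fun x hx => LinearMap.mem_ker.mp hx⟩
  intro x hx
  exact hle (hS (LinearMap.mem_ker.mpr (hR2 x hx)))

/-- `N` lowers the weight by two. -/
theorem G_shift [CharZero K] {q : ℕ} (hq : 1 < q) {m : ℤ} {F N : Module.End K V}
    {G : ℤ → Submodule K V} (hG : DirectSum.IsInternal G) (hP : ∀ r, PureOn q (m + r) F (G r))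
    (hFN : ∀ x, N (F x) = (q : K) • F (N x)) (r : ℤ) (x : V) (hx : x ∈ G r) : N x ∈ G (r - 2) := by
  obtain ⟨R, hR1, hR2⟩ := hP r
  have hq0 : (q : K) ≠ 0 := by exact_mod_cast (by omega : q ≠ 0)
  have hqc : (q : ℂ) ≠ 0 := by exact_mod_cast (by omega : q ≠ 0)
  have hqr : (q : ℝ) ≠ 0 := by exact_mod_cast (by omega : q ≠ 0)
  have hqz : (q : ℤ) ≠ 0 := by exact_mod_cast (by omega : q ≠ 0)
  have hS : (G r).map N ≤ ((G r).map N).comap F := by
    rintro y ⟨z, hz, rfl⟩
    refine ⟨(q : K)⁻¹ • F z, (G r).smul_mem _ (G_stable hq hG hP r hz), ?_⟩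
    rw [map_smul, hFN, smul_smul, inv_mul_cancel₀ hq0, one_smul]
  refine pure_le hq hG hP hS ⟨R.comp (C (q : ℤ) * X), ⟨?_, ?_⟩, ?_⟩ ⟨x, hx, rfl⟩
  · intro h0
    apply hR1.1
    have h1 : (C (q : ℤ) * X : ℤ[X]).natDegree = 1 := natDegree_C_mul_X _ hqz
    rcases comp_eq_zero_iff.mp h0 with h2 | h2
    · exact h2
    · rw [h2.2, natDegree_C] at h1
      exact absurd h1 (by norm_num)
  · intro z hz
    rw [aeval_comp] at hz
    have h1 := hR1.2 _ hz
    have h2 : aeval z (C (q : ℤ) * X : ℤ[X]) = (q : ℂ) * z := by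
      rw [map_mul, aeval_C, aeval_X]
      simp
    rw [h2, norm_mul, mul_pow, Complex.norm_natCast] at h1
    rw [show m + (r - 2) = (m + r) - 2 by ring, zpow_sub₀ hqr, ← h1]
    rw [eq_div_iff (zpow_ne_zero _ hqr)]
    rw [show ((q : ℝ) ^ (2 : ℤ)) = (q : ℝ) ^ 2 by norm_cast]
    ring
  · rintro y ⟨z, hz, rfl⟩
    have h1 := aeval_intertwine (F := F) (F' := (q : K) • F) (f := N)
      (fun x => by rw [hFN, LinearMap.smul_apply]) R z
    rw [hR2 z hz, map_zero] at h1
    have h2 : aeval F (R.comp (C (q : ℤ) * X)) = aeval ((q : K) • F) R := by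
      rw [aeval_comp]
      congr 1
      rw [map_mul, aeval_C, aeval_X]
      ext v
      simp [Nat.cast_smul_eq_nsmul]
    rw [h2]
    exact h1.symm

end Pool.Agent.ND37
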