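import Pool.Agent.LibND37.Defs

/-! G4 (MEDIUM): a splitting of the filtration `W` which commutes with the projections `p r`.
Step 1: for every `k` there is `ϑ ∈ End V` with `ϑ x ∈ W k` for all `x`, `ϑ x = x` for `x ∈ W k`, `ϑ * p r = p r * ϑ` for all `r`: take any projection `t` onto `W k`
(`Submodule.exists_isCompl`, `Submodule.linearProjOfIsCompl`/`IsCompl.projection`, or `LinearMap.exists_leftInverse_of_injective` for `(W k).subtype`) and `ϑ = ∑ r ∈ Icc (-c) c, p r * t * p r`.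
Step 2: by recursion on `j : ℕ`: `Θ 0 = 1`, `Θ (j + 1) = ϑ_{b - j - 1} * Θ j`. Then `Θ j x ∈ W (b - j)`, `Θ j x = x` for `x ∈ W (b - j)` (as `W (b - j - 1) ≤ W (b - j)`), commutes with `p r`, and
`Θ j * Θ i = Θ j` and `Θ i * Θ j = Θ j` for `i ≤ j`. Put `θ k = Θ ((b - k).toNat)` (so `θ k = 1` for `k ≥ b`, and `θ k = 0` for `k ≤ -b - 1`, since `W k = ⊥`); for all `k`: `θ k x ∈ W k`, `θ k x = x` for
`x ∈ W k`, `θ k * θ l = θ (min k l)`. `π k = θ k - θ (k - 1)`: idempotent and orthogonal (expand), `∑ k ∈ Icc (-b) b, π k = θ b - θ (-b - 1) = 1` (telescoping, `Finset.sum_Ioc_consecutive`-like or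
by induction; or `Finset.sum_range_succ` after reindexing). `mem_iff`: `x ∈ W k` implies `θ j x = x` for `j ≥ k`, so `π j x = 0` for `j > k`; conversely `x - θ k x = ∑ j > k, π j x = 0`
(telescoping from `k` up to `b`; for `k ≥ b` clear since `W k = ⊤`). -/

namespace Pool.Agent.ND37

open Module Polynomial Pool.Agent.WM85 Pool.Agent.LibX1

variable {K V : Type*} [Field K] [AddCommGroup V] [Module K V]

private theorem ex_theta {c : ℕ} {p : ℤ → Module.End K V} (hp : Grading c p) (U : Submodule K V)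
    (hU : ∀ r, ∀ x ∈ U, p r x ∈ U) :
    ∃ ϑ : Module.End K V, (∀ x, ϑ x ∈ U) ∧ (∀ x ∈ U, ϑ x = x) ∧ ∀ r, ϑ * p r = p r * ϑ := by
  obtain ⟨g, hg⟩ := LinearMap.exists_leftInverse_of_injective U.subtype (Submodule.ker_subtype U)
  have ht1 : ∀ x, (U.subtype ∘ₗ g) x ∈ U := fun x => (g x).2
  have ht2 : ∀ x ∈ U, (U.subtype ∘ₗ g) x = x := by
    intro x hx
    have h1 := LinearMap.congr_fun hg ⟨x, hx⟩
    have h2 : g x = ⟨x, hx⟩ := h1
    show (g x : V) = x
    rw [h2]
  set t : Module.End K V := U.subtype ∘ₗ g with ht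
  refine ⟨∑ r ∈ Finset.Icc (-(c : ℤ)) c, p r * t * p r, ?_, ?_, ?_⟩
  · intro x
    rw [LinearMap.sum_apply]
    refine Submodule.sum_mem _ fun r _ => ?_
    show p r (t (p r x)) ∈ U
    exact hU r _ (ht1 _)
  · intro x hx
    rw [LinearMap.sum_apply]
    have h1 : ∀ r ∈ Finset.Icc (-(c : ℤ)) c, (p r * t * p r) x = p r x := by
      intro r _
      show p r (t (p r x)) = p r x
      rw [ht2 _ (hU r x hx), hp.apply_idem]
    rw [Finset.sum_congr rfl h1, hp.sum_apply]
  · intro r
    rw [hp.sum_mul (fun k => p k * t) r]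
    by_cases hr : r ∈ Finset.Icc (-(c : ℤ)) c
    · rw [Finset.mul_sum, Finset.sum_eq_single r]
      · rw [← mul_assoc, ← mul_assoc, hp.idem]
      · intro l _ hl
        rw [← mul_assoc, ← mul_assoc, hp.orth r l (Ne.symm hl), zero_mul, zero_mul]
      · intro h'
        exact absurd hr h'
    · rw [hp.zero hr, zero_mul, zero_mul, zero_mul]

private theorem tele (θ : ℤ → Module.End K V) (a m : ℤ) (h : a ≤ m) :
    ∑ k ∈ Finset.Icc a m, (θ k - θ (k - 1)) = θ m - θ (a - 1) := by
  induction m, h using Int.le_induction with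
  | base => simp
  | succ m hm ih =>
    have h1 : Finset.Icc a (m + 1) = insert (m + 1) (Finset.Icc a m) := by
      ext x
      simp only [Finset.mem_Icc, Finset.mem_insert]
      omega
    rw [h1, Finset.sum_insert (by simp), ih]
    have h2 : m + 1 - 1 = m := by ring
    rw [h2]
    abel

theorem exists_split {b c : ℕ} {W : ℤ → Submodule K V} (hW : Monotone W)
    (hbot : W (-(b : ℤ) - 1) = ⊥) (htop : W b = ⊤) {p : ℤ → Module.End K V} (hp : Grading c p)
    (hWp : ∀ k r, ∀ x ∈ W k, p r x ∈ W k) :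
    ∃ π : ℤ → Module.End K V, Split b W π ∧ ∀ k r, π k * p r = p r * π k := by
  choose ϑ h1 h2 h3 using fun k => ex_theta hp (W k) (hWp k)
  let Θ : ℕ → Module.End K V := fun j => Nat.rec 1 (fun j T => ϑ ((b : ℤ) - j - 1) * T) j
  have Θ0 : Θ 0 = 1 := rfl
  have ΘS : ∀ j, Θ (j + 1) = ϑ ((b : ℤ) - j - 1) * Θ j := fun j => rfl
  have hc : ∀ j : ℕ, (b : ℤ) - ((j + 1 : ℕ) : ℤ) = (b : ℤ) - j - 1 := by
    intro j
    push_cast
    ring
  have P1 : ∀ (j : ℕ) x, Θ j x ∈ W ((b : ℤ) - j) := by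
    intro j x
    cases j with
    | zero =>
      have : ((b : ℤ) - ((0 : ℕ) : ℤ)) = b := by simp
      rw [this, htop]
      trivial
    | succ j =>
      rw [ΘS, hc]
      exact h1 _ _
  have P2 : ∀ (j : ℕ), ∀ x ∈ W ((b : ℤ) - j), Θ j x = x := by
    intro j
    induction j with
    | zero =>
      intro x _
      rfl
    | succ j ih =>
      intro x hx
      rw [hc] at hx
      rw [ΘS]
      show ϑ _ (Θ j x) = x
      rw [ih x (hW (by linarith) hx), h2 _ x hx]
  have P3 : ∀ (j : ℕ) r, Θ j * p r = p r * Θ j := by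
    intro j r
    induction j with
    | zero => rw [Θ0, one_mul, mul_one]
    | succ j ih => rw [ΘS, mul_assoc, ih, ← mul_assoc, h3, mul_assoc]
  have P4 : ∀ i j : ℕ, i ≤ j → Θ i * Θ j = Θ j := by
    intro i j hij
    ext x
    show Θ i (Θ j x) = Θ j x
    refine P2 i _ (hW ?_ (P1 j x))
    have : (i : ℤ) ≤ j := by exact_mod_cast hij
    linarith
  have P5 : ∀ i j : ℕ, i ≤ j → Θ j * Θ i = Θ j := by
    intro i j hij
    induction j, hij using Nat.le_induction with
    | base => exact P4 i i le_rfl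
    | succ j _ ih => rw [ΘS, mul_assoc, ih]
  let θ : ℤ → Module.End K V := fun k => Θ (((b : ℤ) - k).toNat)
  have hθ : ∀ k, θ k = Θ (((b : ℤ) - k).toNat) := fun k => rfl
  have htop' : ∀ k, (b : ℤ) ≤ k → ∀ x, x ∈ W k := by
    intro k hk x
    refine hW hk ?_
    rw [htop]
    trivial
  have T1 : ∀ k x, θ k x ∈ W k := by
    intro k x
    rcases le_total k (b : ℤ) with hk | hk
    · have e : (b : ℤ) - (((b : ℤ) - k).toNat : ℤ) = k := by omega
      have := P1 (((b : ℤ) - k).toNat) x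
      rwa [e] at this
    · exact htop' k hk _
  have T2 : ∀ k, ∀ x ∈ W k, θ k x = x := by
    intro k x hx
    rcases le_total k (b : ℤ) with hk | hk
    · have e : (b : ℤ) - (((b : ℤ) - k).toNat : ℤ) = k := by omega
      refine P2 _ x ?_
      rwa [e]
    · have e : ((b : ℤ) - k).toNat = 0 := by omega
      rw [hθ, e]
      rfl
  have T3 : ∀ k l, k ≤ l → θ k * θ l = θ k ∧ θ l * θ k = θ k := by
    intro k l hkl
    have hle : ((b : ℤ) - l).toNat ≤ ((b : ℤ) - k).toNat := by omega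
    exact ⟨P5 _ _ hle, P4 _ _ hle⟩
  have Tb : θ b = 1 := by
    rw [hθ]
    simp only [sub_self, Int.toNat_zero]
    exact Θ0
  have Tbot : θ (-(b : ℤ) - 1) = 0 := by
    ext x
    have := T1 (-(b : ℤ) - 1) x
    rw [hbot] at this
    exact (Submodule.mem_bot K).1 this
  refine ⟨fun k => θ k - θ (k - 1), ⟨⟨?_, ?_, ?_⟩, ?_⟩, ?_⟩
  · intro k
    show (θ k - θ (k - 1)) * (θ k - θ (k - 1)) = θ k - θ (k - 1)
    rw [sub_mul, mul_sub, mul_sub, (T3 k k le_rfl).1, (T3 (k - 1) k (by linarith)).2, (T3 (k - 1) k (by linarith)).1,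
      (T3 (k - 1) (k - 1) le_rfl).1]
    abel
  · intro k l hkl
    show (θ k - θ (k - 1)) * (θ l - θ (l - 1)) = 0
    rcases lt_or_gt_of_ne hkl with h | h
    · rw [sub_mul, mul_sub, mul_sub, (T3 k l h.le).1, (T3 k (l - 1) (by omega)).1, (T3 (k - 1) l (by omega)).1,
        (T3 (k - 1) (l - 1) (by omega)).1]
      abel
    · rw [sub_mul, mul_sub, mul_sub, (T3 l k h.le).2, (T3 (l - 1) k (by omega)).2, (T3 l (k - 1) (by omega)).2,
        (T3 (l - 1) (k - 1) (by omega)).2]
      abel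
  · show ∑ k ∈ Finset.Icc (-(b : ℤ)) b, (θ k - θ (k - 1)) = 1
    rw [tele θ _ _ (by omega), Tb, Tbot, sub_zero]
  · intro k x
    constructor
    · intro hx j hj
      show (θ j - θ (j - 1)) x = 0
      rw [LinearMap.sub_apply, T2 j x (hW hj.le hx), T2 (j - 1) x (hW (by omega) hx), sub_self]
    · intro hx
      rcases le_or_gt (b : ℤ) k with hk | hk
      · exact htop' k hk x
      · have h5 := tele θ (k + 1) b (by omega)
        have h6 : (∑ j ∈ Finset.Icc (k + 1) (b : ℤ), (θ j - θ (j - 1))) x = 0 := by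
          rw [LinearMap.sum_apply]
          refine Finset.sum_eq_zero fun j hj => ?_
          rw [Finset.mem_Icc] at hj
          exact hx j (by omega)
        rw [h5, Tb, LinearMap.sub_apply, sub_eq_zero] at h6
        have h7 : k + 1 - 1 = k := by ring
        rw [h7] at h6
        have h8 : x = θ k x := h6
        rw [h8]
        exact T1 k x
  · intro k r
    show (θ k - θ (k - 1)) * p r = p r * (θ k - θ (k - 1))
    rw [sub_mul, mul_sub, hθ, hθ, P3, P3]

end Pool.Agent.ND37
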