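import Pool.Agent.LibND37.G5

/-! G6 (MEDIUM, easy): the symbol of `N₀` is a Lefschetz operator. Write `n = symb b π d N`.
`symb_lef`: `deg` is `symb_deg`. `inj`: `π k x = x`, `n ^ k x = π (k - k * 2) (N₀ ^ k x) = π (-k) (N₀ ^ k x) = 0` (`symb_pow`), `N₀ ^ k x ∈ W (-k)` (`IsMono.shift_pow` in LibWM85/Mono), so it lies in `W (-k - 1)`
(`sub_mem`), so `x ∈ W (k - 1)` (`hW.inj`) and `x = π k x = 0` (`zero_of_mem`). `surj`: `π (-k) y = y`, so `y ∈ W (-k)`: `hW.surj` gives `x ∈ W k`, `y - N₀ ^ k x ∈ W (-k - 1)`; take `π k x`: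
`n ^ k (π k x) = π (-k) (N₀ ^ k (π k x)) = π (-k) (N₀ ^ k x)` as `N₀ ^ k (x - π k x) ∈ W (k - 1 - 2 k) = W (-k - 1)`, and this is `π (-k) y = y` (`zero_of_mem`). -/

namespace Pool.Agent.ND37

open Module Polynomial Pool.Agent.WM85 Pool.Agent.LibX1

variable {K V : Type*} [Field K] [AddCommGroup V] [Module K V]

section split
variable {b c : ℕ} {W : ℤ → Submodule K V} {π p : ℤ → Module.End K V}

theorem symb_lef (h : Split b W π) {N₀ : Module.End K V} (hW : IsMono N₀ W) :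
    Lef π (symb b π 2 N₀) := by
  have hg : Grading b π := h.toGrading
  have hpow : ∀ (k : ℕ) (x : V), π k x = x →
      ((symb b π 2 N₀) ^ k) x = π (-(k : ℤ)) ((N₀ ^ k) x) := by
    intro k x hx
    have h1 := symb_pow h hW.shift k (k : ℤ) x hx
    have h2 : (k : ℤ) - (k : ℤ) * 2 = -(k : ℤ) := by ring
    rw [h2] at h1
    exact h1
  have hshift : ∀ (k : ℕ) (s : ℤ) (x : V), x ∈ W s → (N₀ ^ k) x ∈ W (s - 2 * (k : ℤ)) :=
    fun k s x hx => IsMono.shift_pow hW k s x hx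
  refine ⟨fun k => symb_deg hg 2 N₀ k, ?_, ?_⟩
  · intro k x hx hn
    rw [hpow k x hx] at hn
    have hxW : x ∈ W (k : ℤ) := by
      rw [← hx]
      exact h.proj_mem k x
    have h1 : (N₀ ^ k) x ∈ W (-(k : ℤ)) := by
      have h2 := hshift k k x hxW
      have h3 : (k : ℤ) - 2 * (k : ℤ) = -(k : ℤ) := by ring
      rw [h3] at h2
      exact h2
    have h2 := h.sub_mem _ _ h1
    rw [hn, sub_zero] at h2
    have h3 := hW.inj k x hxW h2
    rw [← hx]
    exact h.zero_of_mem _ _ h3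
  · intro k y hy
    have hyW : y ∈ W (-(k : ℤ)) := by
      rw [← hy]
      exact h.proj_mem _ y
    obtain ⟨x, hxW, hxy⟩ := hW.surj k y hyW
    have hid : π (k : ℤ) (π (k : ℤ) x) = π (k : ℤ) x := hg.apply_idem _ _
    refine ⟨π (k : ℤ) x, hid, ?_⟩
    rw [hpow k _ hid]
    have h1 := hshift k _ _ (h.sub_mem _ _ hxW)
    have h3 : (k : ℤ) - 1 - 2 * (k : ℤ) = -(k : ℤ) - 1 := by ring
    rw [h3, map_sub] at h1
    have h4 := h.zero_of_mem _ _ h1
    have h5 := h.zero_of_mem _ _ hxy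
    rw [map_sub, sub_eq_zero] at h4 h5
    rw [← h4, ← h5, hy]

end split

end Pool.Agent.ND37
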