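import Pool.Agent.LibND37.G1

/-! G7 (SHORT/MEDIUM): weights and the relative filtration. `weight_step`: `x ∈ M s`, `x ∈ S`: with `R` from `hP` and `Q` from `hSP`: `R(F) x ∈ M (s - 1)`, `Q(F) x = 0`; `R`, `Q` are coprime over `K`
(`Weil.coprime K hq`, weights `m + k + s ≠ m + r`), `a R + b Q = 1`, so `x = a(F) (R(F) x) ∈ M (s - 1)` (`aeval_mem` in LibX1/Grade; pattern: proof of `stable_proj` there, `aeval_map_algebraMap`).
`weight_up`: `M t = B` for some `t`; by induction on `j`: `B ⊓ S ≤ M (t - j)` while `t - j ≥ s` (step: `weight_step` at `s' = t - j > s`, `r = k + s`); for `t ≤ s` monotonicity (`RelMono.monotone` from G1).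
`weight_down`: `M t = A` for some `t`; by induction on `j`: `M (s - 1) ⊓ S ≤ M (s - 1 - j)`. -/

namespace Pool.Agent.ND37

open Module Polynomial Pool.Agent.WM85 Pool.Agent.LibX1

variable {K V : Type*} [Field K] [AddCommGroup V] [Module K V]

/-- The weight `m + r` occurs on `gr_s` only for `r = k + s`. -/
theorem weight_step [CharZero K] {q : ℕ} (hq : 1 < q) {m : ℤ} {F : Module.End K V}
    {M : ℤ → Submodule K V} {k s : ℤ} (hP : PureGr q (m + k + s) F M s)
    (hst' : M (s - 1) ≤ (M (s - 1)).comap F)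
    {S : Submodule K V} {r : ℤ} (hSP : PureOn q (m + r) F S) (hr : r ≠ k + s) :
    M s ⊓ S ≤ M (s - 1) := by
  rintro x ⟨hx, hxS⟩
  obtain ⟨R, hR1, hR2⟩ := hP
  obtain ⟨Q, hQ1, hQ2⟩ := hSP
  obtain ⟨a, b, hab⟩ := Weil.coprime K hq (show m + k + s ≠ m + r by omega) hR1 hQ1
  have h1 : (aeval F (a * R.map (algebraMap ℤ K) + b * Q.map (algebraMap ℤ K))) x = x := by
    rw [hab, map_one, Module.End.one_apply]
  rw [map_add, LinearMap.add_apply, map_mul, map_mul, Module.End.mul_apply, Module.End.mul_apply,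
    aeval_map_algebraMap, aeval_map_algebraMap, hQ2 x hxS, map_zero, add_zero] at h1
  rw [← h1]
  exact aeval_mem F hst' a (hR2 x hx)

theorem weight_up [CharZero K] {q : ℕ} (hq : 1 < q) {m : ℤ} {F N : Module.End K V}
    {A B : Submodule K V}
    {M : ℤ → Submodule K V} {k : ℤ} (hM : RelMono N A B M)
    (hP : ∀ s, PureGr q (m + k + s) F M s)
    (hst : ∀ s, M s ≤ (M s).comap F)
    {S : Submodule K V} {s : ℤ} (hSP : PureOn q (m + (k + s)) F S) :
    B ⊓ S ≤ M s := by
  obtain ⟨t, ht⟩ := hM.top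
  have key : ∀ j : ℕ, (j : ℤ) ≤ t - s → B ⊓ S ≤ M (t - j) := by
    intro j
    induction j with
    | zero =>
      intro _
      rw [Nat.cast_zero, sub_zero, ht]
      exact inf_le_left
    | succ j ih =>
      intro hj
      push_cast at hj
      have h1 := ih (by omega)
      have h2 := weight_step hq (s := t - j) (r := k + s) (hP _) (hst _) hSP (by omega)
      have h3 : t - ((j + 1 : ℕ) : ℤ) = t - j - 1 := by push_cast; ring
      rw [h3]
      exact le_trans (le_inf h1 inf_le_right) h2
  rcases le_total t s with hts | hts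
  · refine inf_le_left.trans ?_
    rw [← ht]
    exact hM.monotone hts
  · have h4 := key (t - s).toNat (by omega)
    have h5 : t - ((t - s).toNat : ℤ) = s := by omega
    rwa [h5] at h4

theorem weight_down [CharZero K] {q : ℕ} (hq : 1 < q) {m : ℤ} {F N : Module.End K V}
    {A B : Submodule K V}
    {M : ℤ → Submodule K V} {k : ℤ} (hM : RelMono N A B M)
    (hP : ∀ s, PureGr q (m + k + s) F M s)
    (hst : ∀ s, M s ≤ (M s).comap F)
    {S : Submodule K V} {s : ℤ} (hSP : PureOn q (m + (k + s)) F S) :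
    M (s - 1) ⊓ S ≤ A := by
  obtain ⟨t, ht⟩ := hM.bot
  have key : ∀ j : ℕ, M (s - 1) ⊓ S ≤ M (s - 1 - j) := by
    intro j
    induction j with
    | zero =>
      rw [Nat.cast_zero, sub_zero]
      exact inf_le_left
    | succ j ih =>
      have h2 := weight_step hq (s := s - 1 - j) (r := k + s) (hP _) (hst _) hSP (by omega)
      have h3 : s - 1 - ((j + 1 : ℕ) : ℤ) = s - 1 - j - 1 := by push_cast; ring
      rw [h3]
      exact le_trans (le_inf ih inf_le_right) h2
  rcases le_total (s - 1) t with hts | hts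
  · refine inf_le_left.trans ?_
    rw [← ht]
    exact hM.monotone hts
  · have h4 := key (s - 1 - t).toNat
    have h5 : s - 1 - ((s - 1 - t).toNat : ℤ) = t := by omega
    rwa [h5, ht] at h4

end Pool.Agent.ND37
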