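import Pool.Agent.LibND37.G5

/-! G8 (MEDIUM): the symbol of `N₁` is a Lefschetz operator for the grading `diff b π p`. Write `n = symb b π 0 N₁`.
`symb_lef₁`: write `ρ = diff b π p`, `ρ s * π k = p (s + k) * π k` (`diff_mul`). `deg`: by `Grading.ext`: `n ρ_s π_k = n p_(s+k) π_k = p_(s+k-2) n π_k = p_(s-2+k) π_k n = ρ_(s-2) π_k n = ρ_(s-2) n π_k`
(`symb_wt`, `symb_deg` with `d = 0`). `inj`: `ρ s x = x`; for every `k`: `x_k = π k x` satisfies `p (s + k) x_k = x_k` (as `π k` commutes with `ρ s`; `p (s+k) (π k x) = ρ s (π k x) = π k (ρ s x)`), `x_k ∈ W k`, so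
`x_k ∈ M k s` (`hup`). `0 = π k (n ^ s x) = n ^ s x_k = π (k - s * 0) (N₁ ^ s x_k)` (`symb_pow`; `n ^ s` commutes with `π k`), `N₁ ^ s x_k ∈ W k`, so it lies in `W (k - 1) ≤ M k (-s - 1)` (`sub_mem`, `RelMono.ge`), so
`x_k ∈ M k (s - 1)` (`RelMono.inj`), so `x_k ∈ W (k - 1)` (`hdown`), so `x_k = π k x_k = 0`. Then `x = ∑ x_k = 0` (`Grading.sum_apply`).
`surj`: `ρ (-s) y = y`; for every `k`: `y_k = π k y ∈ W k`, `p (k - s) y_k = y_k`, so `y_k ∈ M k (-s)` (`hup`); `RelMono.surj`: `z ∈ M k s`, `y_k - N₁ ^ s z ∈ M k (-s - 1)`; apply `p (k - s)`: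
`y_k - N₁ ^ s (p (k + s) z) ∈ M k (-s - 1)` (`hMp`; `N₁ ^ s p (k + s) = p (k + s - 2 s) N₁ ^ s`, `pow_deg`) and `p (k - s)` fixes it, so it lies in `W (k - 1)` (`hdown` with `-s`);
`z' = p (k + s) z ∈ W k` (`RelMono.le`); `x_k = π k z'` satisfies `p (k + s) x_k = x_k`, `n ^ s x_k = π k (N₁ ^ s (π k z')) = π k (N₁ ^ s z') = π k y_k = y_k` (`N₁ ^ s` maps `W (k - 1)` to itself).
`choose` these `x_k` for all `k` and take `x = ∑ k ∈ Icc (-b) b, x_k`; `ρ s x = x` since `ρ s x_k = p (s + k) x_k = x_k`. (`IsMono.shift_pow`-like induction for `N₁ ^ s`: `W k → W k`.) -/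

namespace Pool.Agent.ND37

open Module Polynomial Pool.Agent.WM85 Pool.Agent.LibX1

variable {K V : Type*} [Field K] [AddCommGroup V] [Module K V]

section split
variable {b c : ℕ} {W : ℤ → Submodule K V} {π p : ℤ → Module.End K V}

private theorem G8_diff_comm (h : Grading b π) (hc : ∀ k r, π k * p r = p r * π k) (s k : ℤ) :
    π k * diff b π p s = diff b π p s * π k := by
  apply h.ext
  intro l
  rw [mul_assoc, diff_mul h, ← mul_assoc, hc, mul_assoc, mul_assoc]
  by_cases hkl : k = l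
  · subst hkl
    rw [h.idem, diff_mul h]
  · rw [h.orth k l hkl, mul_zero, mul_zero]

private theorem G8_pow_comm {n q : Module.End K V} (h : n * q = q * n) (j : ℕ) :
    n ^ j * q = q * n ^ j :=
  ((show Commute n q from h).pow_left j).eq

private theorem G8_pow_mem {N₁ : Module.End K V} (h1 : ∀ k, ∀ x ∈ W k, N₁ x ∈ W (k - 0)) (j : ℕ)
    (k : ℤ) (x : V) (hx : x ∈ W k) : (N₁ ^ j) x ∈ W k := by
  induction j with
  | zero =>
    rw [pow_zero, Module.End.one_apply]
    exact hx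
  | succ j ih =>
    rw [pow_succ', Module.End.mul_apply]
    have h2 := h1 k _ ih
    rw [sub_zero] at h2
    exact h2

theorem symb_lef₁ (h : Split b W π) (hp : Grading c p)
    (hc : ∀ k r, π k * p r = p r * π k) {N₁ : Module.End K V}
    (h1 : ∀ k, ∀ x ∈ W k, N₁ x ∈ W (k - 0)) (hN : ∀ r, N₁ * p r = p (r - 2) * N₁)
    {M : ℤ → ℤ → Submodule K V} (hM : ∀ k, RelMono N₁ (W (k - 1)) (W k) (M k))
    (hMp : ∀ k s r, ∀ x ∈ M k s, p r x ∈ M k s)
    (hup : ∀ k s, ∀ x ∈ W k, p (k + s) x = x → x ∈ M k s)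
    (hdown : ∀ k s, ∀ x ∈ M k (s - 1), p (k + s) x = x → x ∈ W (k - 1)) :
    Lef (diff b π p) (symb b π 0 N₁) := by
  have hg : Grading b π := h.toGrading
  have hcomm : ∀ k, symb b π 0 N₁ * π k = π k * symb b π 0 N₁ := by
    intro k
    have h2 := symb_deg hg 0 N₁ k
    rw [sub_zero] at h2
    exact h2
  have hpow : ∀ (j : ℕ) (k : ℤ) (x : V), ((symb b π 0 N₁) ^ j) (π k x) =
      π k (((symb b π 0 N₁) ^ j) x) := by
    intro j k x
    have h2 := G8_pow_comm (hcomm k) j
    rw [← Module.End.mul_apply, h2, Module.End.mul_apply]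
  have hpow2 : ∀ (j : ℕ) (k : ℤ) (x : V), π k x = x →
      ((symb b π 0 N₁) ^ j) x = π k ((N₁ ^ j) x) := by
    intro j k x hx
    have h2 := symb_pow h h1 j k x hx
    rw [mul_zero, sub_zero] at h2
    exact h2
  have hρ : ∀ (s k : ℤ) (x : V), diff b π p s (π k x) = p (s + k) (π k x) := by
    intro s k x
    have h2 := diff_mul (p := p) hg s k
    rw [← Module.End.mul_apply, h2, Module.End.mul_apply]
  have hρ2 : ∀ (s k : ℤ) (x : V), π k (diff b π p s x) = diff b π p s (π k x) := by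
    intro s k x
    have h2 := G8_diff_comm hg hc s k
    rw [← Module.End.mul_apply, h2, Module.End.mul_apply]
  have hpi : ∀ (k r : ℤ) (x : V), π k (p r x) = p r (π k x) := by
    intro k r x
    rw [← Module.End.mul_apply, hc, Module.End.mul_apply]
  refine ⟨?_, ?_, ?_⟩
  · intro s
    apply hg.ext
    intro k
    rw [mul_assoc, diff_mul hg, ← mul_assoc, symb_wt hg hc 0 hN, mul_assoc, mul_assoc, hcomm,
      ← mul_assoc, ← mul_assoc, diff_mul hg]
    congr 3
    ring
  · intro s x hx hn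
    have key : ∀ k, π k x = 0 := by
      intro k
      have hpk : p (k + s) (π k x) = π k x := by
        rw [add_comm, ← hρ, ← hρ2, hx]
      have hW : π k x ∈ W k := h.proj_mem k x
      have hMs : π k x ∈ M k s := hup k s _ hW hpk
      have hz : π k ((N₁ ^ s) (π k x)) = 0 := by
        rw [← hpow2 s k _ (hg.apply_idem k x), hpow, hn, map_zero]
      have hm : (N₁ ^ s) (π k x) ∈ W (k - 1) := by
        have h3 := h.sub_mem k _ (G8_pow_mem h1 s k _ hW)
        rw [hz, sub_zero] at h3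
        exact h3
      have h4 := (hM k).inj s _ hMs ((hM k).ge _ hm)
      have h5 := hdown k s _ h4 hpk
      have h6 := h.zero_of_mem k _ h5
      rw [hg.apply_idem] at h6
      exact h6
    rw [← hg.sum_apply x]
    exact Finset.sum_eq_zero fun k _ => key k
  · intro s y hy
    have key : ∀ k : ℤ, ∃ x, π k x = x ∧ p (s + k) x = x ∧
        ((symb b π 0 N₁) ^ s) x = π k y := by
      intro k
      have hpk : p (k + -(s : ℤ)) (π k y) = π k y := by
        rw [add_comm, ← hρ, ← hρ2, hy]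
      have hW : π k y ∈ W k := h.proj_mem k y
      have hMs : π k y ∈ M k (-(s : ℤ)) := hup k _ _ hW hpk
      obtain ⟨z, hz, hyz⟩ := (hM k).surj s _ hMs
      have hpd : ∀ v : V, (N₁ ^ s) (p (k + s) v) = p (k + -(s : ℤ)) ((N₁ ^ s) v) := by
        intro v
        have h2 := pow_deg hN s (k + s)
        have h3 : k + (s : ℤ) - 2 * s = k + -(s : ℤ) := by ring
        rw [h3] at h2
        rw [← Module.End.mul_apply, h2, Module.End.mul_apply]
      have hpid : ∀ v : V, p (k + s) (p (k + s) v) = p (k + s) v := fun v => hp.apply_idem _ v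
      have hu1 : π k y - (N₁ ^ s) (p (k + s) z) ∈ M k (-(s : ℤ) - 1) := by
        have h2 := hMp k _ (k + -(s : ℤ)) _ hyz
        rw [map_sub, hpk, ← hpd] at h2
        exact h2
      have hu2 : p (k + -(s : ℤ)) (π k y - (N₁ ^ s) (p (k + s) z)) =
          π k y - (N₁ ^ s) (p (k + s) z) := by
        rw [map_sub, hpk, ← hpd, hpid]
      have hu3 := hdown k (-(s : ℤ)) _ hu1 hu2
      have hz' : p (k + s) z ∈ W k := (hM k).le _ (hMp k _ _ _ hz)
      refine ⟨π k (p (k + s) z), hg.apply_idem k _, ?_, ?_⟩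
      · rw [← hpi, add_comm (s : ℤ) k, hpid]
      · rw [hpow2 s k _ (hg.apply_idem k _)]
        have h4 : π k ((N₁ ^ s) (p (k + s) z - π k (p (k + s) z))) = 0 :=
          h.zero_of_mem k _ (G8_pow_mem h1 s (k - 1) _ (h.sub_mem k _ hz'))
        rw [map_sub, map_sub, sub_eq_zero] at h4
        rw [← h4]
        have h5 := h.zero_of_mem k _ hu3
        rw [map_sub, sub_eq_zero, hg.apply_idem] at h5
        exact h5.symm
    choose x hx1 hx2 hx3 using key
    refine ⟨∑ k ∈ Finset.Icc (-(b : ℤ)) b, x k, ?_, ?_⟩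
    · rw [map_sum]
      refine Finset.sum_congr rfl fun k _ => ?_
      have h2 := hρ s k (x k)
      rw [hx1, hx2] at h2
      exact h2
    · rw [map_sum]
      have h2 := hg.sum_apply y
      refine Eq.trans (Finset.sum_congr rfl fun k _ => hx3 k) h2

end split

end Pool.Agent.ND37
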