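import Pool.Agent.LibND37.R3

/-! R4 (MEDIUM): two gradings `π` (projections `π k`) and `p` (projections `p r`), `diff b π p s = ∑ k, p (s + k) * π k` is the grading by `r - k`.
`diff_grading`: `diff_mul` (in Defs): `diff b π p s * π k = p (s + k) * π k`; also `π k * diff b π p s = diff b π p s * π k` (by `Grading.ext` for `π`, or directly).
Everything by `Grading.ext h`: multiply on the right by `π k`. Sum: `(∑ s ∈ Icc (-(b+c)) (b+c), diff s) * π k = (∑ s, p (s + k)) * π k`; for `k ∈ Icc (-b) b` the sum over `s` contains all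
`s` with `s + k ∈ Icc (-c) c`, the other `p`'s vanish (`Grading.zero`); for other `k` we have `π k = 0`.
`biLef`: `e₀` from `exists_sl2 h hn0`, `e₁` from `exists_sl2 (diff_grading h hp hc) hn1`, `e = e₀ + e₁`. Put `ρ = diff b π p`.
`n₁` commutes with `n₀` and `π k`: `n₁ * e₀ = e₀ * n₁`. `ρ s` commutes with `π k` and with `n₀` (by `Grading.ext h`: `ρ s * n₀ * π k = ρ s * π (k-2) * n₀ = p (s+k-2) * π (k-2) * n₀ =
p (s+k-2) * n₀ * π k = n₀ * p (s+k) * π k = n₀ * ρ s * π k`): `ρ s * e₀ = e₀ * ρ s`. `π k` commutes with `ρ s`, `n₁`: `π k * e₁ = e₁ * π k`. `n₀` commutes with `n₁`, `ρ s`: `n₀ * e₁ = e₁ * n₀`.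
`e * p r = p (r + 2) * e` by `Grading.ext h`: `p r * π k = ρ (r - k) * π k`; `e₀ * p r * π k = e₀ * ρ (r-k) * π k = ρ (r-k) * e₀ * π k = ρ (r-k) * π (k+2) * e₀ = p (r+2) * π (k+2) * e₀ =
p (r+2) * e₀ * π k`; `e₁ * p r * π k = e₁ * ρ (r-k) * π k = ρ (r-k+2) * e₁ * π k = ρ (r-k+2) * π k * e₁ = p (r+2) * π k * e₁ = p (r+2) * e₁ * π k`.
`e * (n₀+n₁) - (n₀+n₁) * e = (e₀ n₀ - n₀ e₀) + (e₁ n₁ - n₁ e₁)`, times `p r * π k = π k * p r = ρ (r-k) * π k`: `k + (r - k) = r` (use `p r * π k = π k * p r` for the first and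
`p r * π k = ρ (r - k) * π k` for the second). -/

namespace Pool.Agent.ND37

open Module Polynomial Pool.Agent.WM85 Pool.Agent.LibX1

variable {K V : Type*} [Field K] [AddCommGroup V] [Module K V]

private theorem pi_diff {b : ℕ} {π p : ℤ → Module.End K V} (h : Grading b π)
    (hc : ∀ k r, π k * p r = p r * π k) (k s : ℤ) :
    π k * diff b π p s = diff b π p s * π k := by
  apply h.ext
  intro l
  rw [mul_assoc, diff_mul h, mul_assoc]
  by_cases hkl : k = l
  · subst hkl
    rw [h.idem, diff_mul h, ← mul_assoc, hc, mul_assoc, h.idem]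
  · rw [h.orth k l hkl, mul_zero, ← mul_assoc, hc, mul_assoc, h.orth k l hkl, mul_zero]

private theorem diff_diff {b : ℕ} {π p : ℤ → Module.End K V} (h : Grading b π)
    (hc : ∀ k r, π k * p r = p r * π k) (s t k : ℤ) :
    diff b π p s * diff b π p t * π k = p (s + k) * p (t + k) * π k := by
  rw [mul_assoc, diff_mul h, ← hc, ← mul_assoc, diff_mul h, mul_assoc, hc, ← mul_assoc]

private theorem sum_shift {b c : ℕ} {p : ℤ → Module.End K V} (hp : Grading c p) {k : ℤ}
    (hk : k ∈ Finset.Icc (-(b : ℤ)) b) :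
    ∑ s ∈ Finset.Icc (-((b + c : ℕ) : ℤ)) ((b + c : ℕ) : ℤ), p (s + k) = 1 := by
  have h1 : ∑ s ∈ Finset.Icc (-((b + c : ℕ) : ℤ)) ((b + c : ℕ) : ℤ), p (s + k) =
      ∑ r ∈ Finset.Icc (-((b + c : ℕ) : ℤ) + k) (((b + c : ℕ) : ℤ) + k), p r := by
    apply Finset.sum_nbij' (fun s => s + k) (fun r => r - k)
    · intro s hs
      rw [Finset.mem_Icc] at hs ⊢
      constructor
      · linarith [hs.1]
      · linarith [hs.2]
    · intro s hs
      rw [Finset.mem_Icc] at hs ⊢
      constructor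
      · linarith [hs.1]
      · linarith [hs.2]
    · intro s _
      ring
    · intro s _
      ring
    · intro s _
      rfl
  rw [h1, ← hp.sum]
  symm
  rw [Finset.mem_Icc] at hk
  apply Finset.sum_subset
  · intro r hr
    rw [Finset.mem_Icc] at hr ⊢
    push_cast
    constructor
    · linarith [hr.1, hk.2]
    · linarith [hr.2, hk.1]
  · intro r _ hr
    exact hp.zero hr

theorem diff_grading {b c : ℕ} {π p : ℤ → Module.End K V} (h : Grading b π) (hp : Grading c p)
    (hc : ∀ k r, π k * p r = p r * π k) : Grading (b + c) (diff b π p) := by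
  refine ⟨fun s => ?_, fun s t hst => ?_, ?_⟩
  · apply h.ext
    intro k
    rw [diff_diff h hc, hp.idem, diff_mul h]
  · apply h.ext
    intro k
    rw [diff_diff h hc, hp.orth _ _ (by intro h'; exact hst (by linarith)), zero_mul]
  · apply h.ext
    intro k
    rw [Finset.sum_mul]
    by_cases hk : k ∈ Finset.Icc (-(b : ℤ)) b
    · rw [← sum_shift hp hk, Finset.sum_mul]
      exact Finset.sum_congr rfl fun s _ => diff_mul h s k
    · rw [h.zero hk, mul_zero]
      exact Finset.sum_eq_zero fun s _ => mul_zero _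

theorem biLef [CharZero K] [FiniteDimensional K V] {b c : ℕ} {π p : ℤ → Module.End K V}
    (h : Grading b π)
    (hp : Grading c p) (hc : ∀ k r, π k * p r = p r * π k) {n₀ n₁ : Module.End K V}
    (hn : n₀ * n₁ = n₁ * n₀) (hn0 : Lef π n₀) (hn0p : ∀ r, n₀ * p r = p (r - 2) * n₀)
    (hn1π : ∀ k, n₁ * π k = π k * n₁) (hn1 : Lef (diff b π p) n₁) :
    ∃ e : Module.End K V, (∀ r, e * p r = p (r + 2) * e) ∧
      ∀ r, (e * (n₀ + n₁) - (n₀ + n₁) * e) * p r = (r : K) • p r := by
  obtain ⟨e₀, he0, hs0, hu0⟩ := exists_sl2 h hn0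
  obtain ⟨e₁, he1, hs1, hu1⟩ := exists_sl2 (diff_grading h hp hc) hn1
  have hpπ : ∀ r k, p r * π k = diff b π p (r - k) * π k := by
    intro r k
    rw [diff_mul h, sub_add_cancel]
  have hρπ : ∀ k s, π k * diff b π p s = diff b π p s * π k := pi_diff h hc
  have hρn0 : ∀ s, diff b π p s * n₀ = n₀ * diff b π p s := by
    intro s
    apply h.ext
    intro k
    have e1 : s + (k - 2) = s + k - 2 := by ring
    calc diff b π p s * n₀ * π k = diff b π p s * π (k - 2) * n₀ := by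
          rw [mul_assoc, hn0.deg, ← mul_assoc]
      _ = p (s + k - 2) * (π (k - 2) * n₀) := by rw [diff_mul h, e1, mul_assoc]
      _ = p (s + k - 2) * n₀ * π k := by rw [← hn0.deg, mul_assoc]
      _ = n₀ * p (s + k) * π k := by rw [← hn0p]
      _ = n₀ * diff b π p s * π k := by rw [mul_assoc, ← diff_mul h, mul_assoc]
  have h1 : n₁ * e₀ = e₀ * n₁ := hu0 n₁ hn.symm hn1π
  have h2 : ∀ s, diff b π p s * e₀ = e₀ * diff b π p s :=
    fun s => hu0 _ (hρn0 s) (fun k => (hρπ k s).symm)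
  have h3 : ∀ k, π k * e₁ = e₁ * π k := fun k => hu1 (π k) (hn1π k).symm (fun s => hρπ k s)
  have h4 : n₀ * e₁ = e₁ * n₀ := hu1 n₀ hn (fun s => (hρn0 s).symm)
  refine ⟨e₀ + e₁, fun r => ?_, fun r => ?_⟩
  · apply h.ext
    intro k
    have e2 : r + 2 - (k + 2) = r - k := by ring
    have e3 : r + 2 - k = r - k + 2 := by ring
    have A : e₀ * p r * π k = p (r + 2) * e₀ * π k := by
      calc e₀ * p r * π k = e₀ * diff b π p (r - k) * π k := by rw [mul_assoc, hpπ, ← mul_assoc]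
        _ = diff b π p (r - k) * (e₀ * π k) := by rw [← h2, mul_assoc]
        _ = diff b π p (r - k) * π (k + 2) * e₀ := by rw [he0, mul_assoc]
        _ = p (r + 2) * π (k + 2) * e₀ := by rw [hpπ (r + 2) (k + 2), e2]
        _ = p (r + 2) * e₀ * π k := by rw [mul_assoc, ← he0, mul_assoc]
    have B : e₁ * p r * π k = p (r + 2) * e₁ * π k := by
      calc e₁ * p r * π k = e₁ * diff b π p (r - k) * π k := by rw [mul_assoc, hpπ, ← mul_assoc]
        _ = diff b π p (r - k + 2) * (e₁ * π k) := by rw [he1, mul_assoc]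
        _ = diff b π p (r - k + 2) * π k * e₁ := by rw [← h3, mul_assoc]
        _ = p (r + 2) * π k * e₁ := by rw [hpπ (r + 2) k, e3]
        _ = p (r + 2) * e₁ * π k := by rw [mul_assoc, h3, mul_assoc]
    rw [add_mul, add_mul, mul_add, add_mul, A, B]
  · have C : (e₀ + e₁) * (n₀ + n₁) - (n₀ + n₁) * (e₀ + e₁) =
        (e₀ * n₀ - n₀ * e₀) + (e₁ * n₁ - n₁ * e₁) := by
      rw [mul_add, add_mul, add_mul, mul_add, add_mul, add_mul, h1, h4]
      abel
    apply h.ext
    intro k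
    have D : (e₀ * n₀ - n₀ * e₀) * (p r * π k) = (k : K) • (p r * π k) := by
      rw [← hc, ← mul_assoc, hs0, smul_mul_assoc]
    have E : (e₁ * n₁ - n₁ * e₁) * (p r * π k) = ((r - k : ℤ) : K) • (p r * π k) := by
      rw [hpπ, ← mul_assoc, hs1, smul_mul_assoc]
    rw [C, mul_assoc, add_mul, D, E, smul_mul_assoc, ← add_smul]
    congr 1
    push_cast
    ring

end Pool.Agent.ND37
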