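import Pool.Agent.LibND37.S1

/-! S2 (MEDIUM): rescaling. `λ = ∑ k, s ^ (-k) • π k` (`s ≠ 0`, zpow) is invertible with inverse `λ' = ∑ k, s ^ k • π k`, and
`λ (N₁ + s ^ (-2) N₀) λ' = A s = ∑ i < m, s ^ i • a i`, `a i = ∑ k, (π (k - i) * N₁ * π k + π (k - 2 - i) * N₀ * π k)`, `m = 2 b + 1` or larger (say `4 b + 5`; for `i ≥ m` all
`π (k - i)`, `k ∈ Icc (-b) b`, vanish). Check by `Grading.ext h` on the right and by `1 = ∑ π l` on the left: for all `k`, `l`: `π l * λ * N * λ' * π k = s ^ (k - l) π l * N * π k`, and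
`π l * (∑ i < m, s ^ i a i) * π k = s ^ (k - l) π l N₁ π k` if `0 ≤ k - l < m` (and `0` for `k < l`, where `π l N₁ π k = 0` by `h1`), plus `s ^ (k - 2 - l) π l N₀ π k` if `0 ≤ k - 2 - l`
(and `0` otherwise, `h0`). (Suggestion: a private lemma for one operator `N` and a shift `d` with `π l * N * π k = 0` for `k - d < l`:
`s ^ (-d) • λ * N * λ' = ∑ i < m, s ^ i • ∑ k, π (k - d - i) * N * π k`, used for `(N₁, 0)` and `(N₀, 2)`.)
`a 0 = n₀ + n₁` (`Grading.ext`). So `A 0 ^ r = (n₀ + n₁) ^ r` is injective on `S`; by `finite_bad` (with `s₀ = 0`) there is `s ≠ 0` with `A s ^ r` injective on `S`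
(`K` is infinite; `Set.Infinite`/`Set.Finite.union`, `Set.finite_singleton`, `Set.infinite_univ`). `A s ^ r = λ (N₁ + s ^ (-2) N₀) ^ r λ'` and `λ' * λ = 1`; for `x ∈ S`, `λ x ∈ S` and
`A s ^ r (λ x) = λ ((N₁ + s ^ (-2) N₀) ^ r x)`, so `v = s ^ (-2)` works. -/

namespace Pool.Agent.ND37

open Module Polynomial Pool.Agent.WM85 Pool.Agent.LibX1

variable {K V : Type*} [Field K] [AddCommGroup V] [Module K V]

/-- `∑ k, s ^ (c k) π k` -/
private noncomputable def S2L (b : ℕ) (π : ℤ → Module.End K V) (s : K) (c : ℤ) : Module.End K V :=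
  ∑ k ∈ Finset.Icc (-(b : ℤ)) b, s ^ (c * k) • π k

private theorem S2_mul {b : ℕ} {π : ℤ → Module.End K V} (h : Grading b π) (s : K) (c k : ℤ) :
    S2L b π s c * π k = s ^ (c * k) • π k := by
  have h1 : S2L b π s c = ∑ l ∈ Finset.Icc (-(b : ℤ)) b, (s ^ (c * l) • (1 : Module.End K V)) * π l := by
    refine Finset.sum_congr rfl fun l _ => ?_
    rw [smul_mul_assoc, one_mul]
  rw [h1, h.sum_mul (fun l => s ^ (c * l) • (1 : Module.End K V)), smul_mul_assoc, one_mul]

private theorem S2_mul' {b : ℕ} {π : ℤ → Module.End K V} (h : Grading b π) (s : K) (c k : ℤ) :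
    π k * S2L b π s c = s ^ (c * k) • π k := by
  rw [S2L, Finset.mul_sum]
  by_cases hk : k ∈ Finset.Icc (-(b : ℤ)) b
  · rw [Finset.sum_eq_single k]
    · rw [mul_smul_comm, h.idem]
    · intro l _ hl
      rw [mul_smul_comm, h.orth k l (Ne.symm hl), smul_zero]
    · intro h'
      exact absurd hk h'
  · rw [h.zero hk, smul_zero]
    exact Finset.sum_eq_zero fun l _ => by rw [zero_mul]

private theorem S2_ext {b : ℕ} {π : ℤ → Module.End K V} (h : Grading b π) {f g : Module.End K V}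
    (hfg : ∀ k l, π l * f * π k = π l * g * π k) : f = g := by
  apply h.ext
  intro k
  have h1 : (∑ l ∈ Finset.Icc (-(b : ℤ)) b, π l) * (f * π k) =
      (∑ l ∈ Finset.Icc (-(b : ℤ)) b, π l) * (g * π k) := by
    rw [Finset.sum_mul, Finset.sum_mul]
    refine Finset.sum_congr rfl fun l _ => ?_
    rw [← mul_assoc, ← mul_assoc]
    exact hfg k l
  rwa [h.sum, one_mul, one_mul] at h1

private theorem S2_inv {b : ℕ} {π : ℤ → Module.End K V} (h : Grading b π) {s : K} (hs : s ≠ 0)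
    (c : ℤ) : S2L b π s c * S2L b π s (-c) = 1 := by
  apply h.ext
  intro k
  rw [mul_assoc, S2_mul h, mul_smul_comm, S2_mul h, smul_smul, ← zpow_add₀ hs, one_mul]
  have : -c * k + c * k = 0 := by ring
  rw [this, zpow_zero, one_smul]

private theorem S2_one {b : ℕ} {π : ℤ → Module.End K V} (h : Grading b π) {s : K} (hs : s ≠ 0)
    (d : ℤ) (hd : 0 ≤ d) (N : Module.End K V) (hN : ∀ k l, k - d < l → π l * N * π k = 0) :
    ∑ i ∈ Finset.range (2 * b + 1), s ^ i • symb b π (d + i) N =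
      s ^ (-d) • (S2L b π s (-1) * N * S2L b π s 1) := by
  apply S2_ext h
  intro k l
  have hR : π l * (s ^ (-d) • (S2L b π s (-1) * N * S2L b π s 1)) * π k =
      s ^ (k - d - l) • (π l * N * π k) := by
    have e1 : π l * (S2L b π s (-1) * N * S2L b π s 1) * π k =
        (π l * S2L b π s (-1)) * N * (S2L b π s 1 * π k) := by
      simp only [mul_assoc]
    rw [mul_smul_comm, smul_mul_assoc, e1, S2_mul h, S2_mul' h, smul_mul_assoc, smul_mul_assoc,
      mul_smul_comm, smul_smul, smul_smul, ← zpow_add₀ hs, ← zpow_add₀ hs]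
    congr 2
    ring
  have hL : π l * (∑ i ∈ Finset.range (2 * b + 1), s ^ i • symb b π (d + i) N) * π k =
      ∑ i ∈ Finset.range (2 * b + 1), s ^ i • ((π l * π (k - (d + i))) * N * π k) := by
    rw [Finset.mul_sum, Finset.sum_mul]
    refine Finset.sum_congr rfl fun i _ => ?_
    rw [mul_smul_comm, smul_mul_assoc, mul_assoc (π l), symb_mul h]
    simp only [mul_assoc]
  rw [hR, hL]
  by_cases hk : k ∈ Finset.Icc (-(b : ℤ)) b
  · by_cases hl : l ∈ Finset.Icc (-(b : ℤ)) b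
    · rw [Finset.mem_Icc] at hk hl
      by_cases hlk : k - d < l
      · rw [hN k l hlk, smul_zero]
        refine Finset.sum_eq_zero fun i _ => ?_
        rw [h.orth l (k - (d + i)) (by omega), zero_mul, zero_mul, smul_zero]
      · obtain ⟨i₀, hi₀⟩ : ∃ i₀ : ℕ, (i₀ : ℤ) = k - d - l := ⟨(k - d - l).toNat, by omega⟩
        rw [Finset.sum_eq_single i₀]
        · have e2 : k - (d + i₀) = l := by omega
          rw [e2, h.idem, ← hi₀, zpow_natCast]
        · intro i _ hi
          rw [h.orth l (k - (d + i)) (by omega), zero_mul, zero_mul, smul_zero]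
        · intro hi
          exfalso
          apply hi
          rw [Finset.mem_range]
          omega
    · rw [h.zero hl]
      simp
  · rw [h.zero hk]
    simp

private theorem S2_conj {f g B : Module.End K V} (hfg : g * f = 1) (hgf : f * g = 1) (r : ℕ) :
    (f * B * g) ^ r = f * B ^ r * g := by
  induction r with
  | zero => rw [pow_zero, pow_zero, mul_one, hgf]
  | succ r ih =>
    rw [pow_succ, ih, pow_succ]
    have e : f * B ^ r * g * (f * B * g) = f * B ^ r * (g * f) * B * g := by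
      simp only [mul_assoc]
    rw [e, hfg, mul_one]
    simp only [mul_assoc]

theorem rescale [CharZero K] [FiniteDimensional K V] {b : ℕ} {π : ℤ → Module.End K V}
    (h : Grading b π) {N₀ N₁ n₀ n₁ : Module.End K V}
    (h0 : ∀ k l, k - 2 < l → π l * N₀ * π k = 0) (h1 : ∀ k l, k < l → π l * N₁ * π k = 0)
    (hn0 : ∀ k, n₀ * π k = π (k - 2) * N₀ * π k) (hn1 : ∀ k, n₁ * π k = π k * N₁ * π k)
    (S : Submodule K V) (hS : ∀ k, ∀ x ∈ S, π k x ∈ S) (r : ℕ)
    (hr : ∀ x ∈ S, ((n₀ + n₁) ^ r) x = 0 → x = 0) :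
    ∃ v : K, ∀ x ∈ S, ((N₁ + v • N₀) ^ r) x = 0 → x = 0 := by
  have ha0 : symb b π (0 + (0 : ℕ)) N₁ + symb b π (2 + (0 : ℕ)) N₀ = n₀ + n₁ := by
    apply h.ext
    intro k
    rw [add_mul, add_mul, symb_mul h, symb_mul h, hn0, hn1]
    have e1 : k - (0 + ((0 : ℕ) : ℤ)) = k := by simp
    have e2 : k - (2 + ((0 : ℕ) : ℤ)) = k - 2 := by simp
    rw [e1, e2, add_comm]
  have hA0 : ∑ i ∈ Finset.range (2 * b + 1), (0 : K) ^ i •
      (symb b π (0 + i) N₁ + symb b π (2 + i) N₀) = n₀ + n₁ := by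
    rw [Finset.sum_eq_single 0]
    · rw [pow_zero, one_smul]
      exact ha0
    · intro i _ hi
      rw [zero_pow hi, zero_smul]
    · intro h'
      exfalso
      apply h'
      rw [Finset.mem_range]
      omega
  have hfin := finite_bad (2 * b + 1) (fun i => symb b π (0 + i) N₁ + symb b π (2 + i) N₀) r S 0
    (by rw [hA0]; exact hr)
  obtain ⟨s, hs⟩ := (hfin.union (Set.finite_singleton (0 : K))).exists_notMem
  rw [Set.mem_union, not_or, Set.mem_singleton_iff] at hs
  obtain ⟨hs1, hs0⟩ := hs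
  have hgood : ∀ x ∈ S, ((∑ i ∈ Finset.range (2 * b + 1), s ^ i •
      (symb b π (0 + i) N₁ + symb b π (2 + i) N₀)) ^ r) x = 0 → x = 0 := by
    by_contra hno
    exact hs1 hno
  have hA : ∑ i ∈ Finset.range (2 * b + 1), s ^ i •
      (symb b π (0 + i) N₁ + symb b π (2 + i) N₀) =
      S2L b π s (-1) * (N₁ + s ^ (-2 : ℤ) • N₀) * S2L b π s 1 := by
    simp only [smul_add]
    rw [Finset.sum_add_distrib, S2_one h hs0 0 le_rfl N₁ (fun k l hkl => h1 k l (by omega)),
      S2_one h hs0 2 (by norm_num) N₀ h0, neg_zero, zpow_zero, one_smul, mul_add, add_mul,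
      mul_smul_comm, smul_mul_assoc]
  have hi1 : S2L b π s (-1) * S2L b π s 1 = 1 := by
    have := S2_inv h hs0 (-1)
    rwa [neg_neg] at this
  have hi2 : S2L b π s 1 * S2L b π s (-1) = 1 := S2_inv h hs0 1
  refine ⟨s ^ (-2 : ℤ), fun x hx hx0 => ?_⟩
  have hLx : S2L b π s (-1) x ∈ S := by
    rw [S2L, LinearMap.sum_apply]
    refine Submodule.sum_mem _ fun k _ => ?_
    rw [LinearMap.smul_apply]
    exact S.smul_mem _ (hS k x hx)
  have h5 := hgood _ hLx
  rw [hA, S2_conj hi2 hi1] at h5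
  have h6 : (S2L b π s (-1) * (N₁ + s ^ (-2 : ℤ) • N₀) ^ r * S2L b π s 1) (S2L b π s (-1) x) =
      S2L b π s (-1) (((N₁ + s ^ (-2 : ℤ) • N₀) ^ r) ((S2L b π s 1 * S2L b π s (-1)) x)) := rfl
  rw [h6, hi2, Module.End.one_apply, hx0, map_zero] at h5
  have h7 := h5 rfl
  have h8 : (S2L b π s 1 * S2L b π s (-1)) x = 0 := by
    rw [Module.End.mul_apply, h7, map_zero]
  rwa [hi2, Module.End.one_apply] at h8

end Pool.Agent.ND37
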