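import Pool.Agent.LibND37.R1
import Pool.Agent.LibND37.R4
import Pool.Agent.LibND37.S2
import Pool.Agent.LibND37.G2
import Pool.Agent.LibND37.G2b
import Pool.Agent.LibND37.G4
import Pool.Agent.LibND37.G6
import Pool.Agent.LibND37.G7
import Pool.Agent.LibND37.G8
import Pool.Agent.LibND37.Fil

/-!
The linear algebra: the monodromy filtration of `N₁ + v N₀` is pure for all but finitely many `v`.
-/

namespace Pool.Agent.ND37

open Module Polynomial Pool.Agent.WM85 Pool.Agent.LibX1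

variable {K V : Type*} [Field K] [AddCommGroup V] [Module K V]

private theorem pencil_bad [FiniteDimensional K V] (N₀ N₁ : Module.End K V) (r : ℕ)
    (S : Submodule K V) (v₀ : K) (h : ∀ x ∈ S, ((N₁ + v₀ • N₀) ^ r) x = 0 → x = 0) :
    {v : K | ¬ ∀ x ∈ S, ((N₁ + v • N₀) ^ r) x = 0 → x = 0}.Finite := by
  have h1 : ∀ v : K, ∑ i ∈ Finset.range 2, v ^ i • (fun i : ℕ => if i = 0 then N₁ else N₀) i
      = N₁ + v • N₀ := by
    intro v
    rw [Finset.sum_range_succ, Finset.sum_range_one]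
    simp
  have h2 := finite_bad 2 (fun i : ℕ => if i = 0 then N₁ else N₀) r S v₀ (by rw [h1]; exact h)
  refine h2.subset ?_
  intro v hv hcon
  apply hv
  rw [h1] at hcon
  exact hcon

/-- The pencil `N₁ + v N₀`: for all but finitely many `v` the monodromy filtration is pure. -/
theorem pencil [CharZero K] [FiniteDimensional K V] {q : ℕ} (hq : 1 < q) {m : ℤ}
    {N₀ N₁ F : Module.End K V} (hN : ∀ x, N₀ (N₁ x) = N₁ (N₀ x))
    (hF₀ : ∀ x, N₀ (F x) = (q : K) • F (N₀ x)) (hF₁ : ∀ x, N₁ (F x) = (q : K) • F (N₁ x))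
    {W : ℤ → Submodule K V} (hW : IsMono N₀ W) {M : ℤ → ℤ → Submodule K V}
    (hM : ∀ k, RelMono N₁ (W (k - 1)) (W k) (M k))
    (hP : ∀ k s, PureGr q (m + k + s) F (M k) s) :
    {v : K | ¬ ∃ M' : ℤ → Submodule K V, IsMono (N₁ + v • N₀) M' ∧
      ∀ s, PureGr q (m + s) F M' s}.Finite := by
  have hq0 : (q : K) ≠ 0 := by exact_mod_cast (by omega : q ≠ 0)
  obtain ⟨G, hGi, hGP⟩ := exists_weights hq hW hM hP
  have hFi : Function.Injective F :=
    pure_injective hq (w := fun r => m + r) hGP hGi.submodule_iSup_eq_top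
  have hFs : Function.Surjective F := LinearMap.injective_iff_surjective.mp hFi
  -- stability
  have hWst : ∀ k, W k ≤ (W k).comap F := hW.stable hq0 hFi hFs hF₀
  have hWmap : ∀ k, (W k).map F = W k := fun k =>
    congrFun ((hW.image hq0 hFi hFs hF₀).unique hW) k
  have hMst : ∀ k s, M k s ≤ (M k s).comap F := fun k s =>
    (hM k).stable hq0 hFi hF₁ (hWmap _) (hWmap _) s
  -- the weight spaces
  obtain ⟨c, p, hp, hpG⟩ := exists_grading hGi
  have hpr := proj_of_grading hp hpG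
  have hG0 : ∀ r, ∀ x ∈ G r, N₀ x ∈ G (r - 2) := fun r x hx => G_shift hq hGi hGP hF₀ r x hx
  have hG1 : ∀ r, ∀ x ∈ G r, N₁ x ∈ G (r - 2) := fun r x hx => G_shift hq hGi hGP hF₁ r x hx
  have hc : ∀ N : Module.End K V, (∀ r, ∀ x ∈ G r, N x ∈ G (r - 2)) →
      ∀ r, N * p r = p (r - 2) * N := by
    intro N hN' r
    have := comm_of_shift hp hpG (d := -2) (N := N) (fun r x hx => by
      have := hN' r x hx
      rwa [show r + -2 = r - 2 by ring]) r
    rwa [show r + -2 = r - 2 by ring] at this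
  have hp0 := hc N₀ hG0
  have hp1 := hc N₁ hG1
  have hWp : ∀ k r, ∀ x ∈ W k, p r x ∈ W k :=
    fun k r x hx => stable_proj hq hpr hGP (hWst k) r hx
  have hMp : ∀ k s r, ∀ x ∈ M k s, p r x ∈ M k s :=
    fun k s r x hx => stable_proj hq hpr hGP (hMst k s) r hx
  -- the splitting
  obtain ⟨b, hbot, htop⟩ : ∃ b : ℕ, W (-(b : ℤ) - 1) = ⊥ ∧ W b = ⊤ := by
    obtain ⟨s, hs⟩ := hW.bot
    obtain ⟨t, ht⟩ := hW.top
    refine ⟨s.natAbs + t.natAbs, ?_, ?_⟩
    · rw [eq_bot_iff, ← hs]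
      exact hW.monotone (by rw [Nat.cast_add]; omega)
    · rw [eq_top_iff, ← ht]
      exact hW.monotone (by rw [Nat.cast_add]; omega)
  obtain ⟨π, hπ, hπp⟩ := exists_split hW.monotone hbot htop hp hWp
  have hW0 : ∀ k, ∀ x ∈ W k, N₀ x ∈ W (k - 2) := hW.shift
  have hW1 : ∀ k, ∀ x ∈ W k, N₁ x ∈ W (k - 0) := by
    intro k x hx
    obtain ⟨t, ht⟩ := (hM k).top
    rw [sub_zero]
    rw [← ht] at hx
    exact (hM k).le _ ((hM k).shift t x hx)
  -- the symbols
  have hl0 : Lef π (symb b π 2 N₀) := symb_lef hπ hW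
  have hl1 : Lef (diff b π p) (symb b π 0 N₁) := symb_lef₁ hπ hp hπp hW1 hp1 hM hMp
    (fun k s x hx hx' => weight_up hq (hM k) (hP k) (hMst k) (hGP (k + s))
      ⟨hx, (hpG _ _).mpr hx'⟩)
    (fun k s x hx hx' => weight_down hq (hM k) (hP k) (hMst k) (hGP (k + s))
      ⟨hx, (hpG _ _).mpr hx'⟩)
  have hcomm : N₀ * N₁ = N₁ * N₀ := by
    ext x
    exact hN x
  have hn0p := symb_wt hπ.toGrading hπp 2 hp0
  have hn1p := symb_wt hπ.toGrading hπp 0 hp1
  obtain ⟨e, he1, he2⟩ := biLef hπ.toGrading hp hπp (symb_comm hπ hW0 hW1 hcomm) hl0 hn0p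
    (fun k => by have := symb_deg hπ.toGrading 0 N₁ k; rwa [sub_zero] at this) hl1
  set n : Module.End K V := symb b π 2 N₀ + symb b π 0 N₁ with hn
  have heG : ∀ r, ∀ x ∈ G r, e x ∈ G (r + 2) := by
    intro r x hx
    rw [hpG] at hx ⊢
    have h1 := LinearMap.congr_fun (he1 r) x
    simp only [Module.End.mul_apply] at h1
    rw [← h1, hx]
  have hnG : ∀ r, ∀ x ∈ G r, n x ∈ G (r - 2) := by
    intro r x hx
    rw [hpG] at hx ⊢
    have h1 := LinearMap.congr_fun (hn0p r) x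
    have h2 := LinearMap.congr_fun (hn1p r) x
    simp only [Module.End.mul_apply] at h1 h2
    rw [hn, LinearMap.add_apply, map_add, ← h1, ← h2, hx]
  have hen : ∀ r : ℤ, ∀ x ∈ G r, e (n x) - n (e x) = (r : K) • x := by
    intro r x hx
    rw [hpG] at hx
    have h1 := LinearMap.congr_fun (he2 r) x
    simp only [Module.End.mul_apply, LinearMap.sub_apply, LinearMap.smul_apply] at h1
    rwa [hx] at h1
  have hbd : ∀ r, (c : ℤ) < |r| → G r = ⊥ := fun r hr => eq_bot_of_grading hp hpG hr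
  have hinj : ∀ r : ℕ, ∀ x ∈ G r, (n ^ r) x = 0 → x = 0 := fun r x hx h0 =>
    sl2_inj heG hnG hen (b := c) (fun r hr => hbd r (lt_of_lt_of_le hr (le_abs_self r))) r x hx h0
  have hdim : ∀ r : ℕ, finrank K (G r) = finrank K (G (-r)) := fun r =>
    sl2_finrank heG hnG hen (b := c) hbd r
  -- the exceptional values
  have hz0 : ∀ k l, k - 2 < l → π l * N₀ * π k = 0 := by
    intro k l hkl
    ext x
    simp only [Module.End.mul_apply, LinearMap.zero_apply]
    exact (hπ.mem_iff _ _).mp (hW0 k _ (hπ.proj_mem k x)) l hkl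
  have hz1 : ∀ k l, k < l → π l * N₁ * π k = 0 := by
    intro k l hkl
    ext x
    simp only [Module.End.mul_apply, LinearMap.zero_apply]
    exact (hπ.mem_iff _ _).mp (hW1 k _ (hπ.proj_mem k x)) l (by omega)
  have hfin : ∀ r : ℕ, {v : K | ¬ ∀ x ∈ G r, ((N₁ + v • N₀) ^ r) x = 0 → x = 0}.Finite := by
    intro r
    obtain ⟨v, hv⟩ := rescale hπ.toGrading hz0 hz1
      (fun k => symb_mul hπ.toGrading 2 N₀ k)
      (fun k => by have := symb_mul hπ.toGrading 0 N₁ k; rwa [sub_zero] at this)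
      (G r) (fun k x hx => by
        rw [hpG] at hx ⊢
        have h1 := LinearMap.congr_fun (hπp k r) x
        simp only [Module.End.mul_apply] at h1
        rw [← h1, hx]) r (hinj r)
    exact pencil_bad N₀ N₁ r (G r) v hv
  refine (Set.Finite.biUnion (Finset.range (c + 1)).finite_toSet
    (fun r _ => hfin r)).subset ?_
  intro v hv
  by_contra hcon
  apply hv
  have hgood : ∀ r : ℕ, ∀ x ∈ G r, ((N₁ + v • N₀) ^ r) x = 0 → x = 0 := by
    intro r
    by_cases hr : r < c + 1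
    · by_contra hcon2
      apply hcon
      rw [Set.mem_iUnion₂]
      exact ⟨r, Finset.mem_coe.mpr (Finset.mem_range.mpr hr), hcon2⟩
    · intro x hx _
      rw [hbd r (by rw [Nat.abs_cast]; omega)] at hx
      exact (Submodule.mem_bot K).mp hx
  refine ⟨fil p, isMono_fil hp hpG (fun r x hx => ?_) hgood hdim,
    pure_fil hp hpG (fun r => G_stable hq hGi hGP r) hGP⟩
  rw [LinearMap.add_apply, LinearMap.smul_apply]
  exact Submodule.add_mem _ (hG1 r x hx) (Submodule.smul_mem _ _ (hG0 r x hx))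

end Pool.Agent.ND37
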