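import Pool.Agent.LibX1.Pure
import Pool.Agent.LibX1.Grade

/-!
Relative monodromy filtrations, gradings given by projections, Lefschetz operators.
-/

namespace Pool.Agent.ND37

open Module

variable {K V : Type*} [Field K] [AddCommGroup V] [Module K V]

/-- `M` is the monodromy filtration of `N` on `B / A`, given as a filtration of `B` by subspaces
which contain `A`: it is increasing, `M s = A` for some `s` and `M s = B` for some `s`,
`N (M s) ⊆ M (s - 2)`, and `N ^ s` induces an isomorphism `gr_s → gr_{-s}` for all `s ≥ 0`, where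
`gr_s = M s / M (s - 1)`. -/
structure RelMono (N : Module.End K V) (A B : Submodule K V) (M : ℤ → Submodule K V) : Prop where
  ge : ∀ s, A ≤ M s
  le : ∀ s, M s ≤ B
  mono : ∀ s, M (s - 1) ≤ M s
  bot : ∃ s, M s = A
  top : ∃ s, M s = B
  shift : ∀ s, ∀ x ∈ M s, N x ∈ M (s - 2)
  inj : ∀ s : ℕ, ∀ x ∈ M s, (N ^ s) x ∈ M (-s - 1) → x ∈ M (s - 1)
  surj : ∀ s : ℕ, ∀ y ∈ M (-s), ∃ x ∈ M s, y - (N ^ s) x ∈ M (-s - 1)

/-- A grading of `V`, given by its projections `π k`, `-b ≤ k ≤ b`. -/
structure Grading (b : ℕ) (π : ℤ → Module.End K V) : Prop where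
  idem : ∀ k, π k * π k = π k
  orth : ∀ k l, k ≠ l → π k * π l = 0
  sum : ∑ k ∈ Finset.Icc (-(b : ℤ)) b, π k = 1

/-- `n` lowers the degree by two and `n ^ k : V_k → V_{-k}` is bijective for `k ≥ 0`. -/
structure Lef (π : ℤ → Module.End K V) (n : Module.End K V) : Prop where
  deg : ∀ k, n * π k = π (k - 2) * n
  inj : ∀ k : ℕ, ∀ x, π k x = x → (n ^ k) x = 0 → x = 0
  surj : ∀ k : ℕ, ∀ y, π (-k) y = y → ∃ x, π k x = x ∧ (n ^ k) x = y

/-- `π` is a splitting of the filtration `W`: `W k` is the sum of the parts of degree `≤ k`. -/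
structure Split (b : ℕ) (W : ℤ → Submodule K V) (π : ℤ → Module.End K V) : Prop
    extends Grading b π where
  mem_iff : ∀ k x, x ∈ W k ↔ ∀ j, k < j → π j x = 0

/-- The projections of the grading by the difference of the degrees. -/
noncomputable def diff (b : ℕ) (π p : ℤ → Module.End K V) (s : ℤ) : Module.End K V :=
  ∑ k ∈ Finset.Icc (-(b : ℤ)) b, p (s + k) * π k

/-- The part of degree `-d` of `N`. -/
noncomputable def symb (b : ℕ) (π : ℤ → Module.End K V) (d : ℤ) (N : Module.End K V) :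
    Module.End K V :=
  ∑ k ∈ Finset.Icc (-(b : ℤ)) b, π (k - d) * N * π k

namespace Grading

variable {b : ℕ} {π : ℤ → Module.End K V}

theorem apply_idem (h : Grading b π) (k : ℤ) (x : V) : π k (π k x) = π k x := by
  rw [← Module.End.mul_apply, h.idem]

theorem apply_orth (h : Grading b π) {k l : ℤ} (hkl : k ≠ l) (x : V) : π k (π l x) = 0 := by
  rw [← Module.End.mul_apply, h.orth k l hkl, LinearMap.zero_apply]

theorem zero (h : Grading b π) {k : ℤ} (hk : k ∉ Finset.Icc (-(b : ℤ)) b) : π k = 0 := by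
  have h1 : π k * ∑ l ∈ Finset.Icc (-(b : ℤ)) b, π l = π k := by rw [h.sum, mul_one]
  rw [← h1, Finset.mul_sum]
  apply Finset.sum_eq_zero
  intro l hl
  apply h.orth
  rintro rfl
  exact hk hl

theorem sum_apply (h : Grading b π) (x : V) : ∑ k ∈ Finset.Icc (-(b : ℤ)) b, π k x = x := by
  have h1 : (∑ k ∈ Finset.Icc (-(b : ℤ)) b, π k) x = x := by rw [h.sum, Module.End.one_apply]
  rwa [LinearMap.sum_apply] at h1

/-- A sum of the form `∑ f k * π k` is `f k` on the part of degree `k`. -/
theorem sum_mul (h : Grading b π) (f : ℤ → Module.End K V) (k : ℤ) :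
    (∑ l ∈ Finset.Icc (-(b : ℤ)) b, f l * π l) * π k = f k * π k := by
  rw [Finset.sum_mul]
  by_cases hk : k ∈ Finset.Icc (-(b : ℤ)) b
  · rw [Finset.sum_eq_single k]
    · rw [mul_assoc, h.idem]
    · intro l _ hl
      rw [mul_assoc, h.orth l k hl, mul_zero]
    · intro h'
      exact absurd hk h'
  · rw [h.zero hk, mul_zero]
    apply Finset.sum_eq_zero
    intro l _
    rw [mul_zero]

theorem ext (h : Grading b π) {f g : Module.End K V} (hfg : ∀ k, f * π k = g * π k) : f = g := by
  have h1 : f * ∑ k ∈ Finset.Icc (-(b : ℤ)) b, π k = g * ∑ k ∈ Finset.Icc (-(b : ℤ)) b, π k := by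
    rw [Finset.mul_sum, Finset.mul_sum]
    exact Finset.sum_congr rfl fun k _ => hfg k
  rwa [h.sum, mul_one, mul_one] at h1

end Grading

theorem pow_deg {π : ℤ → Module.End K V} {n : Module.End K V} (h : ∀ k, n * π k = π (k - 2) * n)
    (j : ℕ) (k : ℤ) : n ^ j * π k = π (k - 2 * j) * n ^ j := by
  induction j with
  | zero => simp
  | succ j ih =>
    rw [pow_succ', mul_assoc, ih, ← mul_assoc, h, mul_assoc]
    congr 2
    push_cast
    ring

theorem diff_mul {b : ℕ} {π p : ℤ → Module.End K V} (h : Grading b π)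
    (s k : ℤ) : diff b π p s * π k = p (s + k) * π k :=
  h.sum_mul (fun k => p (s + k)) k

theorem symb_mul {b : ℕ} {π : ℤ → Module.End K V} (h : Grading b π) (d : ℤ)
    (N : Module.End K V) (k : ℤ) : symb b π d N * π k = π (k - d) * N * π k :=
  h.sum_mul (fun k => π (k - d) * N) k

end Pool.Agent.ND37
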