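import Pool.Agent.LibND37.Defs

/-! G1 (MEDIUM, easy): uniqueness and `F`-stability of the relative monodromy filtration. Copy the proofs of `IsMono.monotone`, `shift_pow`, `ker_le`, `surj'`, `le`, `unique`, `image`,
`stable` in Pool/Agent/LibWM85/Mono.lean, with `⊥` replaced by `A`, `⊤` by `B` and `= 0` by `∈ A` (all subspaces `M s` contain `A` and lie in `B`).
`ker_le`: `x ∈ B`, `N ^ (u + 1) x ∈ A` implies `x ∈ M u`. `surj'`: for `y ∈ M (-s)` there is `x ∈ M s` with `y - N ^ s x ∈ A`. -/

namespace Pool.Agent.ND37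

open Module Polynomial Pool.Agent.WM85 Pool.Agent.LibX1

variable {K V : Type*} [Field K] [AddCommGroup V] [Module K V]

section
variable {N : Module.End K V} {A B : Submodule K V} {M M' : ℤ → Submodule K V}

theorem RelMono.monotone (h : RelMono N A B M) : Monotone M := by
  apply monotone_int_of_le_succ
  intro s
  have := h.mono (s + 1)
  simpa using this

private theorem G1_shift_pow (h : RelMono N A B M) (j : ℕ) :
    ∀ s, ∀ x ∈ M s, (N ^ j) x ∈ M (s - 2 * j) := by
  induction j with
  | zero => intro s x hx; simpa using hx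
  | succ j ih =>
    intro s x hx
    have h1 := ih s x hx
    have h2 := h.shift _ _ h1
    rw [pow_succ', Module.End.mul_apply]
    have e : s - 2 * (j : ℤ) - 2 = s - 2 * ((j + 1 : ℕ) : ℤ) := by push_cast; ring
    rwa [e] at h2

private theorem G1_A_stable (h : RelMono N A B M) (j : ℕ) : ∀ x ∈ A, (N ^ j) x ∈ A := by
  intro x hx
  obtain ⟨t, ht⟩ := h.bot
  have h1 : x ∈ M t := by rw [ht]; exact hx
  have h2 := G1_shift_pow h j t x h1
  have h3 := h.monotone (show t - 2 * (j : ℤ) ≤ t by omega) h2
  rwa [ht] at h3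

/-- `x ∈ B`, `N ^ (u + 1) x ∈ A` implies `x ∈ M u` -/
private theorem G1_ker_le (h : RelMono N A B M) (u : ℕ) (x : V) (hB : x ∈ B)
    (hx : (N ^ (u + 1)) x ∈ A) : x ∈ M u := by
  obtain ⟨t, ht⟩ := h.top
  have key : ∀ d : ℕ, x ∈ M ((u : ℤ) + d) → x ∈ M u := by
    intro d
    induction d with
    | zero => intro hx; simpa using hx
    | succ d ih =>
      intro hd
      apply ih
      have h1 := h.inj (u + (d + 1)) x (by push_cast at hd ⊢; exact hd) (by
        have : (N ^ (u + (d + 1))) x ∈ A := by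
          rw [show u + (d + 1) = d + (u + 1) by ring, pow_add, Module.End.mul_apply]
          exact G1_A_stable h d _ hx
        exact h.ge _ this)
      have e : ((u + (d + 1) : ℕ) : ℤ) - 1 = (u : ℤ) + d := by push_cast; ring
      rwa [e] at h1
  apply key (t.toNat)
  apply h.monotone (show t ≤ (u : ℤ) + t.toNat by omega)
  rw [ht]
  exact hB

private theorem G1_surj' (h : RelMono N A B M) (s : ℕ) (y : V) (hy : y ∈ M (-s)) :
    ∃ x ∈ M s, y - (N ^ s) x ∈ A := by
  obtain ⟨t, ht⟩ := h.bot
  have key : ∀ d : ℕ, ∀ s : ℕ, (-t).toNat ≤ s + d → ∀ y ∈ M (-s), ∃ x ∈ M s, y - (N ^ s) x ∈ A := by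
    intro d
    induction d with
    | zero =>
      intro s hs y hy
      have h1 : M (-s) ≤ M t := h.monotone (by omega)
      have h2 := h1 hy
      rw [ht] at h2
      exact ⟨0, Submodule.zero_mem _, by rw [map_zero, sub_zero]; exact h2⟩
    | succ d ih =>
      intro s hs y hy
      obtain ⟨x, hx, hxy⟩ := h.surj s y hy
      have e : (-(s : ℤ) - 1) = -((s + 1 : ℕ) : ℤ) := by push_cast; ring
      rw [e] at hxy
      obtain ⟨z, hz, hzy⟩ := ih (s + 1) (by omega) _ hxy
      refine ⟨x + N z, Submodule.add_mem _ hx ?_, ?_⟩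
      · have h1 := h.shift _ _ hz
        exact h.monotone (by push_cast; omega) h1
      · have e2 : y - (N ^ s) (x + N z) = y - (N ^ s) x - (N ^ (s + 1)) z := by
          rw [map_add, ← Module.End.mul_apply, ← pow_succ]; abel
        rw [e2]
        exact hzy
  exact key (-t).toNat s (by omega) y hy

private theorem G1_le (h : RelMono N A B M) (h' : RelMono N A B M') : ∀ s, M s ≤ M' s := by
  obtain ⟨t, ht⟩ := h'.top
  -- nonnegative indices
  have key : ∀ d : ℕ, ∀ s : ℕ, t.toNat ≤ s + d → M s ≤ M' s := by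
    intro d
    induction d with
    | zero =>
      intro s hs
      have : M' t ≤ M' s := h'.monotone (by omega)
      rw [ht] at this
      exact (h.le _).trans this
    | succ d ih =>
      intro s hs x hx
      have h1 : (N ^ (s + 1)) x ∈ M (-((s + 2 : ℕ) : ℤ)) := by
        have := G1_shift_pow h (s + 1) s x hx
        refine h.monotone ?_ this
        push_cast; omega
      obtain ⟨y, hy, hyx⟩ := G1_surj' h (s + 2) _ h1
      have hNy : N y ∈ B := h.le _ (h.shift _ _ hy)
      have h2 : x - N y ∈ M' s := by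
        apply G1_ker_le h' s _ (Submodule.sub_mem _ (h.le _ hx) hNy)
        rw [map_sub, ← Module.End.mul_apply, ← pow_succ]
        exact hyx
      have h3 : N y ∈ M' s := by
        have h4 : y ∈ M' ((s + 2 : ℕ) : ℤ) := ih (s + 2) (by omega) hy
        have h5 := h'.shift _ _ h4
        have e : (((s + 2 : ℕ) : ℤ)) - 2 = s := by push_cast; ring
        rwa [e] at h5
      have := Submodule.add_mem _ h2 h3
      simpa using this
  have key2 : ∀ s : ℕ, M s ≤ M' s := fun s => key t.toNat s (by omega)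
  intro s
  rcases le_or_gt 0 s with hs | hs
  · have := key2 s.toNat
    rwa [Int.toNat_of_nonneg hs] at this
  · intro x hx
    have e : s = -((-s).toNat : ℤ) := by omega
    rw [e] at hx
    obtain ⟨y, hy, hyx⟩ := G1_surj' h (-s).toNat x hx
    have h1 := G1_shift_pow h' (-s).toNat _ _ (key2 _ hy)
    have h2 : (N ^ (-s).toNat) y ∈ M' s := by
      refine h'.monotone ?_ h1
      omega
    have := Submodule.add_mem _ (h'.ge s hyx) h2
    simpa using this

theorem RelMono.unique (h : RelMono N A B M) (h' : RelMono N A B M') : M = M' :=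
  funext fun s => le_antisymm (G1_le h h' s) (G1_le h' h s)

private theorem G1_image {F : Module.End K V} {c : K} (h : RelMono N A B M) (hc : c ≠ 0)
    (hFi : Function.Injective F) (hFN : ∀ x, N (F x) = c • F (N x))
    (hA : A.map F = A) (hB : B.map F = B) :
    RelMono N A B (fun s => (M s).map F) where
  ge s := by
    have h1 : A.map F ≤ (M s).map F := Submodule.map_mono (h.ge s)
    rwa [hA] at h1
  le s := by
    have h1 : (M s).map F ≤ B.map F := Submodule.map_mono (h.le s)
    rwa [hB] at h1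
  mono s := Submodule.map_mono (h.mono s)
  bot := by
    obtain ⟨s, hs⟩ := h.bot
    exact ⟨s, by rw [hs, hA]⟩
  top := by
    obtain ⟨s, hs⟩ := h.top
    exact ⟨s, by rw [hs, hB]⟩
  shift s x hx := by
    obtain ⟨y, hy, rfl⟩ := hx
    rw [hFN]
    exact Submodule.smul_mem _ _ ⟨N y, h.shift s y hy, rfl⟩
  inj s x hx hN := by
    obtain ⟨y, hy, rfl⟩ := hx
    rw [pow_comm hFN] at hN
    have h1 : F ((N ^ s) y) ∈ (M (-s - 1)).map F := by
      have := Submodule.smul_mem _ (c ^ s)⁻¹ hN
      rwa [smul_smul, inv_mul_cancel₀ (pow_ne_zero _ hc), one_smul] at this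
    obtain ⟨z, hz, hzy⟩ := h1
    have h2 := hFi hzy
    rw [h2] at hz
    exact ⟨y, h.inj s y hy hz, rfl⟩
  surj s y hy := by
    obtain ⟨w, hw, rfl⟩ := hy
    obtain ⟨x, hx, hxw⟩ := h.surj s w hw
    refine ⟨(c ^ s)⁻¹ • F x, Submodule.smul_mem _ _ ⟨x, hx, rfl⟩, ?_⟩
    rw [map_smul, pow_comm hFN, smul_smul, inv_mul_cancel₀ (pow_ne_zero _ hc), one_smul,
      ← map_sub]
    exact ⟨_, hxw, rfl⟩

theorem RelMono.stable {F : Module.End K V} {c : K} (h : RelMono N A B M) (hc : c ≠ 0)
    (hFi : Function.Injective F) (hFN : ∀ x, N (F x) = c • F (N x))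
    (hA : A.map F = A) (hB : B.map F = B) (s : ℤ) : M s ≤ (M s).comap F := by
  have h1 := (G1_image h hc hFi hFN hA hB).unique h
  have h2 : (M s).map F = M s := congrFun h1 s
  rw [← Submodule.map_le_iff_le_comap, h2]

end

end Pool.Agent.ND37
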