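import Pool.Agent.LibND37.Fibre
import Pool.Agent.LibND37.G1
import Pool.Agent.LibND37.G2
import Pool.Agent.LibND37.G2b
import Pool.Agent.LibND37.G7
import Pool.Agent.LibND37.Fil

/-! E1a (MEDIUM, easy with the imported lemmas): the weight projections, absolute case (`E = ⊤`).
`RelMono N ⊥ ⊤ M` from `IsMono N M` (`relMono_of_isMono`; all fields are the same, `bot_le`, `le_top`).
Weight spaces: `exists_weights` (G2) with `N₀ = 0`, `N₁ = N`, `W k = if k < 0 then ⊥ else ⊤`, `M k = if k = 0 then M else fun _ => W k` (for `k ≠ 0`: `W (k - 1) = W k`, the constant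
filtration is a `RelMono` and `PureGr` holds with `R = 1`, `Weil.one`; `IsMono 0 W`: check by cases `k < 0`, `k ≥ 0`, `s = 0`, `s > 0`, where `0 ^ s = 0`). So `G`, `DirectSum.IsInternal G`,
`PureOn q (w + r) F (G r)`. `F` is injective (`pure_injective` in LibX1/Pure, with `hG.submodule_iSup_eq_top`), hence surjective (`LinearMap.injective_iff_surjective`), `M s` is `F`-stable
(`IsMono.stable` in LibWM85/Mono). `exists_grading` (G2b): `c`, `p`, `Grading c p`, `x ∈ G r ↔ p r x = x`. `F_comm`, `N_comm`: `comm_of_shift` (Fil) with `G_stable`, `G_shift` (G2b).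
`inj`: `x ∈ G r` lies in `M r` (`weight_up` of G7 with `k = 0`, `B = ⊤`), `N ^ r x = 0 ∈ M (-r - 1)`, so `x ∈ M (r - 1)` (`IsMono.inj`), so `x ∈ ⊥` (`weight_down`, `A = ⊥`).
`surj`: `y ∈ G (-r)` lies in `M (-r)`; `IsMono.surj`: `x ∈ M r`, `y - N ^ r x ∈ M (-r - 1)`; `M s` is stable under `p t` (`stable_proj` in LibX1/Grade with `proj_of_grading` of Fil);
apply `p (-r)`: `y - N ^ r (p r x) ∈ M (-r - 1)` and in `G (-r)`, so it is `0` (`weight_down`). Powers: `pow_deg` (Defs). -/

namespace Pool.Agent.ND37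

open Module Polynomial Pool.Agent.WM85 Pool.Agent.LibX1

section
variable {K X : Type*} [Field K] [AddCommGroup X] [Module K X] {q : ℕ} {w : ℤ}
  {N F : Module.End K X}

theorem relMono_of_isMono {M : ℤ → Submodule K X} (h : IsMono N M) : RelMono N ⊥ ⊤ M where
  ge _ := bot_le
  le _ := le_top
  mono := h.mono
  bot := h.bot
  top := h.top
  shift := h.shift
  inj := h.inj
  surj := h.surj

private def E1a_W (K X : Type*) [Field K] [AddCommGroup X] [Module K X] (k : ℤ) : Submodule K X :=
  if k < 0 then ⊥ else ⊤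

private theorem E1a_W_neg {k : ℤ} (h : k < 0) : E1a_W K X k = ⊥ := if_pos h

private theorem E1a_W_nonneg {k : ℤ} (h : 0 ≤ k) : E1a_W K X k = ⊤ := if_neg (by omega)

private theorem E1a_W_isMono : IsMono (0 : Module.End K X) (E1a_W K X) where
  mono s := by
    rcases lt_or_ge s 0 with h | h
    · rw [E1a_W_neg (show s - 1 < 0 by omega)]
      exact bot_le
    · rw [E1a_W_nonneg h]
      exact le_top
  bot := ⟨-1, E1a_W_neg (by norm_num)⟩
  top := ⟨0, E1a_W_nonneg le_rfl⟩
  shift s x _ := by
    rw [LinearMap.zero_apply]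
    exact Submodule.zero_mem _
  inj s x hx h := by
    rcases Nat.eq_zero_or_pos s with h0 | h0
    · subst h0
      rw [pow_zero, Module.End.one_apply] at h
      simpa using h
    · rw [E1a_W_nonneg (show (0 : ℤ) ≤ (s : ℤ) - 1 by omega)]
      exact Submodule.mem_top
  surj s y hy := by
    rcases Nat.eq_zero_or_pos s with h0 | h0
    · subst h0
      refine ⟨y, ?_, ?_⟩
      · simpa using hy
      · rw [pow_zero, Module.End.one_apply, sub_self]
        exact Submodule.zero_mem _
    · rw [E1a_W_neg (show -(s : ℤ) < 0 by omega), Submodule.mem_bot] at hy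
      refine ⟨0, Submodule.zero_mem _, ?_⟩
      rw [hy, map_zero, sub_zero]
      exact Submodule.zero_mem _

private theorem E1a_W_pred {k : ℤ} (h : k ≠ 0) : E1a_W K X (k - 1) = E1a_W K X k := by
  rcases lt_or_ge k 0 with h1 | h1
  · rw [E1a_W_neg h1, E1a_W_neg (show k - 1 < 0 by omega)]
  · rw [E1a_W_nonneg h1, E1a_W_nonneg (show 0 ≤ k - 1 by omega)]

private theorem E1a_weights [CharZero K] [FiniteDimensional K X] (hq : 1 < q)
    {M : ℤ → Submodule K X} (hM : IsMono N M) (hP : ∀ s, PureGr q (w + s) F M s) :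
    ∃ G : ℤ → Submodule K X, DirectSum.IsInternal G ∧ ∀ r, PureOn q (w + r) F (G r) := by
  refine exists_weights (N₀ := 0) (N₁ := N) (W := E1a_W K X) hq E1a_W_isMono
    (M := fun k => if k = 0 then M else fun _ => E1a_W K X k) ?_ ?_
  · intro k
    by_cases hk : k = 0
    · subst hk
      rw [if_pos rfl, E1a_W_neg (show (0 : ℤ) - 1 < 0 by norm_num), E1a_W_nonneg le_rfl]
      exact relMono_of_isMono hM
    · rw [if_neg hk, E1a_W_pred hk]
      refine ⟨fun _ => le_rfl, fun _ => le_rfl, fun _ => le_rfl, ⟨0, rfl⟩, ⟨0, rfl⟩, ?_, ?_, ?_⟩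
      · intro s x hx
        rcases lt_or_ge k 0 with h1 | h1
        · rw [E1a_W_neg h1, Submodule.mem_bot] at hx ⊢
          rw [hx, map_zero]
        · rw [E1a_W_nonneg h1]
          exact Submodule.mem_top
      · intro s x hx _
        exact hx
      · intro s y hy
        refine ⟨0, Submodule.zero_mem _, ?_⟩
        rw [map_zero, sub_zero]
        exact hy
  · intro k s
    by_cases hk : k = 0
    · subst hk
      rw [if_pos rfl, add_zero]
      exact hP s
    · rw [if_neg hk]
      refine ⟨1, Weil.one _ _, fun x hx => ?_⟩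
      rw [map_one, Module.End.one_apply]
      exact hx

theorem exists_pw_top [CharZero K] [FiniteDimensional K X] (hq : 1 < q)
    {M : ℤ → Submodule K X} (hM : IsMono N M) (hP : ∀ s, PureGr q (w + s) F M s)
    (hNF : ∀ x, N (F x) = (q : K) • F (N x)) :
    ∃ c p, PW q w N F ⊤ c p := by
  obtain ⟨G, hG, hGP⟩ := E1a_weights hq hM hP
  obtain ⟨c, p, hg, hGp⟩ := exists_grading hG
  have hq0 : (q : K) ≠ 0 := by exact_mod_cast (by omega : q ≠ 0)
  have hFi : Function.Injective F := pure_injective hq hGP hG.submodule_iSup_eq_top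
  have hst : ∀ s, M s ≤ (M s).comap F :=
    hM.stable hq0 hFi (LinearMap.injective_iff_surjective.mp hFi) hNF
  have hR : RelMono N ⊥ ⊤ M := relMono_of_isMono hM
  have hP' : ∀ s, PureGr q (w + 0 + s) F M s := by
    intro s
    rw [add_zero]
    exact hP s
  have hup : ∀ r, ∀ x ∈ G r, x ∈ M r := by
    intro r x hx
    have h1 := hGP r
    rw [show w + r = w + (0 + r) by ring] at h1
    exact weight_up hq hR hP' hst h1 ⟨Submodule.mem_top, hx⟩
  have hdown : ∀ r, ∀ x ∈ G r, x ∈ M (r - 1) → x = 0 := by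
    intro r x hx hx'
    have h1 := hGP r
    rw [show w + r = w + (0 + r) by ring] at h1
    have h2 := weight_down hq hR hP' hst h1 ⟨hx', hx⟩
    exact (Submodule.mem_bot K).mp h2
  have hFc : ∀ r x, F (p r x) = p r (F x) := by
    intro r x
    have h1 := comm_of_shift hg hGp (d := 0) (N := F) (fun r x hx => by
      rw [add_zero]
      exact G_stable hq hG hGP r hx) r
    rw [add_zero] at h1
    exact LinearMap.congr_fun h1 x
  have hNc : ∀ k, N * p k = p (k - 2) * N := by
    intro k
    have h1 := comm_of_shift hg hGp (d := -2) (N := N) (fun r x hx => by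
      have h2 := G_shift hq hG hGP hNF r x hx
      rwa [show r + -2 = r - 2 by ring]) k
    rwa [show k + -2 = k - 2 by ring] at h1
  have hpow : ∀ (j : ℕ) (k : ℤ) (x : X), (N ^ j) (p k x) = p (k - 2 * j) ((N ^ j) x) := by
    intro j k x
    exact LinearMap.congr_fun (pow_deg hNc j k) x
  refine ⟨c, p, ?_⟩
  refine
    { mem := fun _ _ => Submodule.mem_top
      idem := hg.apply_idem
      orth := fun r s x h => hg.apply_orth h x
      zero := ?_
      sum := fun x _ => hg.sum_apply x
      F_mem := fun _ _ => Submodule.mem_top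
      N_mem := fun _ _ => Submodule.mem_top
      F_comm := fun r x _ => hFc r x
      N_comm := fun r x _ => LinearMap.congr_fun (hNc r) x
      pure := ?_
      inj := ?_
      surj := ?_ }
  · intro r x hr
    rw [hg.zero, LinearMap.zero_apply]
    rw [Finset.mem_Icc]
    rintro ⟨h2, h3⟩
    rcases abs_cases r with h | h <;> omega
  · intro r
    obtain ⟨R, hR1, hR2⟩ := hGP r
    exact ⟨R, hR1, fun x => hR2 _ ((hGp _ _).mpr (hg.apply_idem r x))⟩
  · intro r x hx hN
    have hxG : x ∈ G r := (hGp _ _).mpr hx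
    apply hdown r x hxG
    apply hM.inj r x (hup r x hxG)
    rw [hN]
    exact Submodule.zero_mem _
  · intro r y hy
    have hyG : y ∈ G (-r) := (hGp _ _).mpr hy
    obtain ⟨x, hx, hxy⟩ := hM.surj r y (hup _ y hyG)
    refine ⟨p r x, hg.apply_idem r x, ?_⟩
    have h1 : (N ^ r) (p r x) = p (-r) ((N ^ r) x) := by
      rw [hpow]
      congr 2
      ring
    have h2 : y - (N ^ r) (p r x) = p (-r) (y - (N ^ r) x) := by
      rw [map_sub, hy, h1]
    have h3 : y - (N ^ r) (p r x) ∈ M (-r - 1) := by
      rw [h2]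
      exact stable_proj hq (proj_of_grading hg hGp) hGP (hst _) _ hxy
    have h4 : y - (N ^ r) (p r x) ∈ G (-r) := by
      rw [h2, hGp]
      exact hg.apply_idem _ _
    exact (sub_eq_zero.mp (hdown _ _ h4 h3)).symm

end

end Pool.Agent.ND37
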