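import Pool.Agent.LibND37.E1a

/-! E1b (MEDIUM, bookkeeping with subtypes): the weight projections of a subspace `E`. Let `D = ↥E`, `N' = N.restrict`, `F' = F.restrict` on `D` (`N` maps `E` to `E`: `RelMono.top`, `shift`, `le`),
`M' s = (M s).comap E.subtype`; `IsMono N' M'` (`((N' ^ s) x : X) = (N ^ s) x` by induction), `PureGr q (w + s) F' M' s` (`aeval_intertwine` in LibX1/Pure with `f = E.subtype`).
`exists_pw_top` (E1a) gives `c`, `p'`. Take a linear `π : X → D` with `π x = x` for `x ∈ E` (`LinearMap.exists_leftInverse_of_injective`, `E.ker_subtype`/`Submodule.ker_subtype`) and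
`p r = E.subtype ∘ₗ p' r ∘ₗ π`. All fields follow from those of `p'` (for `x ∈ E` write `x = ↑⟨x, hx⟩`; for `inj`, `surj`: `p r x = x` implies `x ∈ E`). -/

namespace Pool.Agent.ND37

open Module Polynomial Pool.Agent.WM85 Pool.Agent.LibX1

section
variable {K X : Type*} [Field K] [AddCommGroup X] [Module K X] {q : ℕ} {w : ℤ}
  {N F : Module.End K X}

private theorem E1b_pow {E : Submodule K X} (hN : ∀ x ∈ E, N x ∈ E) (s : ℕ) (x : E) :
    ((((N.restrict hN) ^ s) x : E) : X) = (N ^ s) (x : X) := by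
  induction s with
  | zero => simp
  | succ s ih =>
    rw [pow_succ', pow_succ', Module.End.mul_apply, Module.End.mul_apply,
      LinearMap.coe_restrict_apply, ih]

theorem exists_pw [CharZero K] (hq : 1 < q) {E : Submodule K X} [FiniteDimensional K E]
    (h : WM q w N F E) (hF : ∀ x ∈ E, F x ∈ E) (hNF : ∀ x, N (F x) = (q : K) • F (N x)) :
    ∃ c p, PW q w N F E c p := by
  obtain ⟨M, hM, hP⟩ := h
  have hN : ∀ x ∈ E, N x ∈ E := by
    intro x hx
    obtain ⟨s, hs⟩ := hM.top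
    exact hM.le _ (hM.shift s x (hs ▸ hx))
  have hpow := E1b_pow (K := K) (N := N) hN
  have hmono : IsMono (N.restrict hN) (fun s => (M s).comap E.subtype) := by
    constructor
    · intro s
      exact Submodule.comap_mono (hM.mono s)
    · obtain ⟨s, hs⟩ := hM.bot
      refine ⟨s, ?_⟩
      show (M s).comap E.subtype = ⊥
      rw [hs]
      exact Submodule.ker_subtype E
    · obtain ⟨s, hs⟩ := hM.top
      refine ⟨s, ?_⟩
      show (M s).comap E.subtype = ⊤
      rw [hs]
      exact Submodule.comap_subtype_self E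
    · intro s x hx
      exact hM.shift s x hx
    · intro s x hx hx'
      refine hM.inj s x hx ?_
      rw [← hpow]
      exact hx'
    · intro s y hy
      obtain ⟨x, hx, hxy⟩ := hM.surj s y hy
      refine ⟨⟨x, hM.le _ hx⟩, hx, ?_⟩
      show ((y - ((N.restrict hN) ^ s) ⟨x, hM.le _ hx⟩ : E) : X) ∈ M (-s - 1)
      rw [Submodule.coe_sub, hpow]
      exact hxy
  have hint : ∀ x : E, E.subtype ((F.restrict hF) x) = F (E.subtype x) := fun x => rfl
  have hpure : ∀ s, PureGr q (w + s) (F.restrict hF) (fun s => (M s).comap E.subtype) s := by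
    intro s
    obtain ⟨R, hR, hR2⟩ := hP s
    refine ⟨R, hR, fun x hx => ?_⟩
    show E.subtype ((aeval (F.restrict hF) R) x) ∈ M (s - 1)
    rw [aeval_intertwine hint]
    exact hR2 _ hx
  have hNF' : ∀ x, (N.restrict hN) ((F.restrict hF) x) =
      (q : K) • (F.restrict hF) ((N.restrict hN) x) := by
    intro x
    apply Subtype.ext
    exact hNF x
  obtain ⟨c, p', hp⟩ := exists_pw_top hq hmono hpure hNF'
  obtain ⟨π, hπ⟩ := LinearMap.exists_leftInverse_of_injective E.subtype (Submodule.ker_subtype E)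
  have hπ' : ∀ e : E, π (e : X) = e := fun e => LinearMap.congr_fun hπ e
  refine ⟨c, fun r => E.subtype ∘ₗ p' r ∘ₗ π, ?_⟩
  have key : ∀ r x, (E.subtype ∘ₗ p' r ∘ₗ π) x = ((p' r (π x) : E) : X) := fun r x => rfl
  have keyE : ∀ r (e : E), (E.subtype ∘ₗ p' r ∘ₗ π) (e : X) = ((p' r e : E) : X) := by
    intro r e
    rw [key, hπ']
  have hfix : ∀ r (x : X), (E.subtype ∘ₗ p' r ∘ₗ π) x = x → ∃ e : E, (e : X) = x ∧ p' r e = e := by
    intro r x hx
    refine ⟨p' r (π x), hx, ?_⟩
    exact hp.idem r (π x)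
  constructor
  · intro r x
    exact (p' r (π x)).2
  · intro r x
    show (E.subtype ∘ₗ p' r ∘ₗ π) ((E.subtype ∘ₗ p' r ∘ₗ π) x) = _
    rw [key r x, keyE, hp.idem]
  · intro r s x hrs
    show (E.subtype ∘ₗ p' r ∘ₗ π) ((E.subtype ∘ₗ p' s ∘ₗ π) x) = _
    rw [key s x, keyE, hp.orth r s _ hrs, Submodule.coe_zero]
  · intro r x hr
    show (E.subtype ∘ₗ p' r ∘ₗ π) x = 0
    rw [key, hp.zero r _ hr, Submodule.coe_zero]
  · intro x hx
    have h1 := hp.sum ⟨x, hx⟩ Submodule.mem_top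
    have h2 := congrArg (fun e : E => (e : X)) h1
    simp only [AddSubmonoidClass.coe_finsetSum] at h2
    exact (Finset.sum_congr rfl fun r _ => keyE r ⟨x, hx⟩).trans h2
  · exact hF
  · exact hN
  · intro r x hx
    show F ((E.subtype ∘ₗ p' r ∘ₗ π) x) = (E.subtype ∘ₗ p' r ∘ₗ π) (F x)
    have h1 := hp.F_comm r ⟨x, hx⟩ Submodule.mem_top
    have h2 := congrArg (fun e : E => (e : X)) h1
    have h3 := keyE r ⟨x, hx⟩
    have h4 := keyE r ((F.restrict hF) ⟨x, hx⟩)
    simp only at h3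
    rw [h3]
    exact h2.trans h4.symm
  · intro r x hx
    show N ((E.subtype ∘ₗ p' r ∘ₗ π) x) = (E.subtype ∘ₗ p' (r - 2) ∘ₗ π) (N x)
    have h1 := hp.N_comm r ⟨x, hx⟩ Submodule.mem_top
    have h2 := congrArg (fun e : E => (e : X)) h1
    have h3 := keyE r ⟨x, hx⟩
    have h4 := keyE (r - 2) ((N.restrict hN) ⟨x, hx⟩)
    simp only at h3
    rw [h3]
    exact h2.trans h4.symm
  · intro r
    obtain ⟨R, hR, hR2⟩ := hp.pure r
    refine ⟨R, hR, fun x => ?_⟩
    show (aeval F R) ((E.subtype ∘ₗ p' r ∘ₗ π) x) = 0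
    have h1 := aeval_intertwine hint R (p' r (π x))
    rw [hR2, map_zero] at h1
    exact h1.symm
  · intro r x hx hNx
    obtain ⟨e, rfl, he⟩ := hfix r x hx
    have h1 : ((N.restrict hN) ^ r) e = 0 := by
      apply Subtype.ext
      rw [hpow]
      exact hNx
    rw [hp.inj r e he h1, Submodule.coe_zero]
  · intro r y hy
    obtain ⟨e, rfl, he⟩ := hfix _ y hy
    obtain ⟨x, hx, hxe⟩ := hp.surj r e he
    refine ⟨x, ?_, ?_⟩
    · show (E.subtype ∘ₗ p' r ∘ₗ π) (x : X) = x
      rw [keyE, hx]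
    · rw [← hpow, hxe]

end

end Pool.Agent.ND37
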