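import Pool.Agent.LibND37.Fibre

/-! E3 (MEDIUM, pointwise): sequences. `p r` on `ℕ → H`: `(p r f) i = p' i r (f i)`, i.e. `LinearMap.pi fun i => p' i r ∘ₗ LinearMap.proj i`. All fields of `PW` are checked place by place
(`Submodule.mem_pi`, `funext`); `(Nn ^ s f) i = N ^ s (f i)` by induction. `pure`: `hP i` has weight `w - 2 i + r` for `frob`; for `q ^ i frob` the weight is `w + r` (`PureOn.twist` in LibX1/Pure with
`f = LinearMap.id`, or its proof: `R.scaleRoots`), so for each `i` there is `R i`, `Weil q (w + r) (R i)`, with `aeval ((q ^ i) • frob) (R i) (p' i r x) = 0`; take `R = ∏ i ∈ range n, R i`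
(`Weil.mul`, `Weil.one`, `Finset.prod_induction`/induction; for `i ≥ n` the space `E' i` is `⊥`, so `p' i r x = 0`); `(aeval Fr R f) i = aeval ((q ^ i) • frob) R (f i)`
(`aeval_intertwine` in LibX1/Pure with `f = LinearMap.proj i`).
`PW.mono`: enlarging `c` (the additional summands vanish). `PW.bot`: `E = ⊥`, `p = 0`. -/

namespace Pool.Agent.ND37

open Module Polynomial Pool.Agent.WM85 Pool.Agent.LibX1

section
variable {K X : Type*} [Field K] [AddCommGroup X] [Module K X] {q : ℕ} {w : ℤ}
  {N F : Module.End K X}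

theorem PW.mono {E : Submodule K X} {c c' : ℕ} {p : ℤ → Module.End K X}
    (h : PW q w N F E c p) (hc : c ≤ c') : PW q w N F E c' p := by
  have hc' : (c : ℤ) ≤ c' := by exact_mod_cast hc
  refine
    { mem := h.mem
      idem := h.idem
      orth := h.orth
      zero := fun r x hr => h.zero r x (lt_of_le_of_lt hc' hr)
      sum := ?_
      F_mem := h.F_mem
      N_mem := h.N_mem
      F_comm := h.F_comm
      N_comm := h.N_comm
      pure := h.pure
      inj := h.inj
      surj := h.surj }
  intro x hx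
  have h1 : ∑ r ∈ Finset.Icc (-(c : ℤ)) c, p r x = ∑ r ∈ Finset.Icc (-(c' : ℤ)) c', p r x := by
    refine Finset.sum_subset (Finset.Icc_subset_Icc (by omega) hc') ?_
    intro r _ hr
    refine h.zero r x ?_
    rw [Finset.mem_Icc] at hr
    rw [lt_abs]
    omega
  rw [← h1]
  exact h.sum x hx

theorem PW.bot (c : ℕ) : PW q w N F ⊥ c 0 := by
  refine
    { mem := fun _ _ => Submodule.zero_mem _
      idem := fun _ _ => rfl
      orth := fun _ _ _ _ => rfl
      zero := fun _ _ _ => rfl
      sum := ?_
      F_mem := ?_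
      N_mem := ?_
      F_comm := fun r x _ => map_zero F
      N_comm := fun r x _ => map_zero N
      pure := fun r => ⟨1, Weil.one q _, fun x => map_zero _⟩
      inj := fun r x hx _ => hx.symm
      surj := fun r y hy => ⟨0, rfl, by rw [map_zero]; exact hy⟩ }
  · intro x hx
    rw [Submodule.mem_bot] at hx
    rw [hx]
    exact Finset.sum_eq_zero fun r _ => rfl
  · intro x hx
    rw [Submodule.mem_bot] at hx ⊢
    rw [hx, map_zero]
  · intro x hx
    rw [Submodule.mem_bot] at hx ⊢
    rw [hx, map_zero]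

end

theorem Fibre.pi_pw {q : ℕ} {K H : Type} [Field K] [AddCommGroup H] [Module K H] (Y : Fibre q K H)
    (hq : 1 < q) {w : ℤ} {E' : ℕ → Submodule K H} {c : ℕ} {p' : ℕ → ℤ → Module.End K H}
    (h : ∀ i : ℕ, PW q (w - 2 * i) Y.N Y.frob (E' i) c (p' i)) {n : ℕ}
    (hn : ∀ i, n ≤ i → E' i = ⊥) :
    PW q w Y.Nn Y.Fr (Submodule.pi Set.univ E') c
      (fun r => LinearMap.pi fun i => p' i r ∘ₗ LinearMap.proj i) := by
  have hN : ∀ (s : ℕ) (f : ℕ → H) (i : ℕ), ((Y.Nn ^ s) f) i = (Y.N ^ s) (f i) := by
    intro s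
    induction s with
    | zero => intro f i; rfl
    | succ s ih =>
      intro f i
      rw [pow_succ', Module.End.mul_apply, pow_succ', Module.End.mul_apply]
      change Y.N (((Y.Nn ^ s) f) i) = _
      rw [ih]
  have hpi : ∀ f : ℕ → H, f ∈ Submodule.pi Set.univ E' ↔ ∀ i, f i ∈ E' i := by
    intro f
    rw [Submodule.mem_pi]
    exact ⟨fun h i => h i (Set.mem_univ i), fun h i _ => h i⟩
  refine
    { mem := fun r x => (hpi _).2 fun i => (h i).mem r (x i)
      idem := fun r x => funext fun i => (h i).idem r (x i)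
      orth := fun r s x hrs => funext fun i => (h i).orth r s (x i) hrs
      zero := fun r x hr => funext fun i => (h i).zero r (x i) hr
      sum := ?_
      F_mem := fun x hx => (hpi _).2 fun i =>
        Submodule.smul_mem _ _ ((h i).F_mem (x i) ((hpi x).1 hx i))
      N_mem := fun x hx => (hpi _).2 fun i => (h i).N_mem (x i) ((hpi x).1 hx i)
      F_comm := ?_
      N_comm := fun r x hx => funext fun i => (h i).N_comm r (x i) ((hpi x).1 hx i)
      pure := ?_
      inj := ?_
      surj := ?_ }
  · intro x hx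
    funext i
    rw [Finset.sum_apply]
    exact (h i).sum (x i) ((hpi x).1 hx i)
  · intro r x hx
    funext i
    change (q : K) ^ i • Y.frob (p' i r (x i)) = p' i r ((q : K) ^ i • Y.frob (x i))
    rw [map_smul, (h i).F_comm r (x i) ((hpi x).1 hx i)]
  · intro r
    have h1 : ∀ i : ℕ, ∃ R : ℤ[X], Weil q (w + r) R ∧
        ∀ x, (aeval ((q : K) ^ i • Y.frob) R) (p' i r x) = 0 := by
      intro i
      obtain ⟨R, hR, hR'⟩ := (h i).pure r
      have h2 : PureOn q (w - 2 * i + r) Y.frob (LinearMap.range (p' i r)) := by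
        refine ⟨R, hR, ?_⟩
        rintro _ ⟨x, rfl⟩
        exact hR' x
      have h3 := h2.twist (F' := (q : K) ^ i • Y.frob) (f := LinearMap.id) hq i (fun x => rfl)
      obtain ⟨R', hR1, hR2⟩ := h3
      have e : w - 2 * (i : ℤ) + r + 2 * i = w + r := by ring
      rw [e] at hR1
      refine ⟨R', hR1, fun x => hR2 _ ?_⟩
      rw [Submodule.map_id]
      exact ⟨x, rfl⟩
    choose R hR hR' using h1
    refine ⟨∏ i ∈ Finset.range n, R i, ?_, ?_⟩
    · refine Finset.prod_induction R (fun S => Weil q (w + r) S) (fun a b ha hb => ha.mul hb)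
        (Weil.one q _) fun i _ => hR i
    · intro x
      funext i
      have h4 := aeval_intertwine (f := (LinearMap.proj i : (ℕ → H) →ₗ[K] H)) (F := Y.Fr)
        (F' := (q : K) ^ i • Y.frob) (fun x => rfl) (∏ i ∈ Finset.range n, R i)
        ((LinearMap.pi fun i => p' i r ∘ₗ LinearMap.proj i : Module.End K (ℕ → H)) x)
      refine h4.trans ?_
      change (aeval ((q : K) ^ i • Y.frob) (∏ i ∈ Finset.range n, R i)) (p' i r (x i)) = 0
      rcases lt_or_ge i n with hi | hi
      · rw [← Finset.prod_erase_mul _ _ (Finset.mem_range.2 hi), map_mul, Module.End.mul_apply,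
          hR', map_zero]
      · have h5 := (h i).mem r (x i)
        rw [hn i hi, Submodule.mem_bot] at h5
        rw [h5, map_zero]
  · intro r x hx h0
    funext i
    refine (h i).inj r (x i) (congrFun hx i) ?_
    rw [← hN, h0]
    rfl
  · intro r y hy
    have h1 : ∀ i, ∃ z, p' i r z = z ∧ (Y.N ^ r) z = y i := fun i =>
      (h i).surj r (y i) (congrFun hy i)
    choose z hz hz' using h1
    refine ⟨z, funext fun i => hz i, funext fun i => ?_⟩
    rw [hN]
    exact hz' i

end Pool.Agent.ND37
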