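import Pool.Agent.LibND37.E1b
import Pool.Agent.LibND37.E3

/-! E4 (SHORT/MEDIUM): the weight projections of the terms of the spectral sequence. For every `i`: if there are `k`, `j` with `i ≤ k`, `k + j = m`, `k + r = 2 i`, they are unique and
`Y.place m r i = Y.gr k j` (the other members of the supremum vanish: their condition is false), `j = m + r - 2 i`, so `WM q (m + r - 2 i) Y.N Y.frob (Y.place m r i)` by `hY`; `exists_pw` (E1b).
Otherwise `Y.place m r i = ⊥`: `PW.bot` (E3). For `i > m` (as integers; `n = m.toNat + 1`): `k + j = m` and `i ≤ k` is impossible, so `Y.place m r i = ⊥`. So for every `i` there are `c i`, `p' i`; for `i ≥ n` choose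
`p' i = 0` (`PW.bot`); `c = ∑ i ∈ range n, c i` (or `Finset.sup`), `PW.mono`; `Fibre.pi_pw`. -/

namespace Pool.Agent.ND37

open Module Polynomial Pool.Agent.WM85 Pool.Agent.LibX1

private theorem place_eq {q : ℕ} {K H : Type} [Field K] [AddCommGroup H] [Module K H]
    (Y : Fibre q K H) {m r : ℤ} {i k j : ℕ}
    (h : i ≤ k ∧ (k : ℤ) + j = m ∧ (k : ℤ) + r = 2 * i) : Y.place m r i = Y.gr k j := by
  refine le_antisymm ?_ ?_
  · refine iSup_le fun k' => iSup_le fun j' => iSup_le fun h' => ?_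
    have hk : k' = k := by omega
    have hj : j' = j := by omega
    rw [hk, hj]
  · exact le_iSup_of_le k (le_iSup_of_le j (le_iSup_of_le h le_rfl))

private theorem place_bot {q : ℕ} {K H : Type} [Field K] [AddCommGroup H] [Module K H]
    (Y : Fibre q K H) {m r : ℤ} {i : ℕ}
    (h : ¬ ∃ k j : ℕ, i ≤ k ∧ (k : ℤ) + j = m ∧ (k : ℤ) + r = 2 * i) :
    Y.place m r i = ⊥ := by
  refine le_bot_iff.1 ?_
  exact iSup_le fun k' => iSup_le fun j' => iSup_le fun h' => absurd ⟨k', j', h'⟩ h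

theorem Fibre.exists_pw_E {q : ℕ} {K H : Type} [Field K] [CharZero K] [AddCommGroup H] [Module K H]
    [FiniteDimensional K H] (Y : Fibre q K H) (hq : 1 < q) (m r : ℤ)
    (hY : ∀ k j : ℕ, (k : ℤ) + j = m → WM q j Y.N Y.frob (Y.gr k j)) :
    ∃ c p, PW q (m + r) Y.Nn Y.Fr (Y.E m r) c p := by
  have h1 : ∀ i : ℕ, ∃ c p, PW q (m + r - 2 * i) Y.N Y.frob (Y.place m r i) c p := by
    intro i
    by_cases h : ∃ k j : ℕ, i ≤ k ∧ (k : ℤ) + j = m ∧ (k : ℤ) + r = 2 * i
    · obtain ⟨k, j, hkj⟩ := h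
      rw [place_eq Y hkj]
      have hj : m + r - 2 * (i : ℤ) = (j : ℤ) := by omega
      rw [hj]
      exact exists_pw hq (hY k j hkj.2.1) (Y.frob_mem k j) Y.N_frob
    · rw [place_bot Y h]
      exact ⟨0, 0, PW.bot 0⟩
  choose c p hp using h1
  have hn : ∀ i : ℕ, m.toNat + 1 ≤ i → Y.place m r i = ⊥ := by
    intro i hi
    apply place_bot
    rintro ⟨k, j, h1, h2, h3⟩
    omega
  have h2 : ∀ i : ℕ, ∃ p', PW q (m + r - 2 * i) Y.N Y.frob (Y.place m r i)
      (∑ i ∈ Finset.range (m.toNat + 1), c i) p' := by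
    intro i
    by_cases hi : i < m.toNat + 1
    · exact ⟨p i, (hp i).mono (Finset.single_le_sum (f := c) (fun _ _ => Nat.zero_le _)
        (Finset.mem_range.2 hi))⟩
    · rw [hn i (not_lt.1 hi)]
      exact ⟨0, PW.bot _⟩
  choose p' hp' using h2
  exact ⟨_, _, Y.pi_pw hq hp' hn⟩

end Pool.Agent.ND37
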