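import Pool.Agent.LibND37.Fibre

/-! E5 (MEDIUM): `d` commutes with the weight projections. Put `y = d (p₀ r x) ∈ E₁`. With `R` from `h₀.pure r`: `aeval F R y = d (aeval F R (p₀ r x)) = 0` (`hFd`, `aeval_intertwine` in LibX1/Pure with
`f = d`). For `s ≠ r`: `p₁ s y` is killed by `R(F)` (`aeval F R (p₁ s y) = p₁ s (aeval F R y)` for `y ∈ E₁`: induction over powers with `F_comm`, `F_mem`, `aeval_eq_sum_range`; or
`Polynomial.induction_on`) and by `R'(F)` with `R'` from `h₁.pure s`, coprime over `K` (`Weil.coprime K hq` in LibX1/Grade, `aeval_map_algebraMap`; pattern: proof of `stable_proj` there), so it is `0`.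
Hence `y = ∑ s, p₁ s y = p₁ r y` (`h₁.sum`, both for `|r| ≤ c` and `|r| > c`: then `x`-part is `0` by `h₀.zero` or `h₁.zero`), and `p₁ r (d x) = ∑ s, p₁ r (d (p₀ s x)) = p₁ r (d (p₀ r x))` by `h₀.sum x`
(and `h₁.orth`, for the same reason `p₁ r (d (p₀ s x)) = 0` for `s ≠ r`).
`PW.N_pow_comm`, `PW.N_pow_mem`: inductions. -/

namespace Pool.Agent.ND37

open Module Polynomial Pool.Agent.WM85 Pool.Agent.LibX1

section
variable {K X : Type*} [Field K] [AddCommGroup X] [Module K X] {q : ℕ} {w : ℤ}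
  {N F : Module.End K X}

theorem PW.N_pow_mem {E : Submodule K X} {c : ℕ} {p : ℤ → Module.End K X}
    (h : PW q w N F E c p) (j : ℕ) {x : X} (hx : x ∈ E) : (N ^ j) x ∈ E := by
  induction j with
  | zero => simpa using hx
  | succ j ih =>
    rw [pow_succ', Module.End.mul_apply]
    exact h.N_mem _ ih

theorem PW.N_pow_comm {E : Submodule K X} {c : ℕ} {p : ℤ → Module.End K X}
    (h : PW q w N F E c p) (j : ℕ) (r : ℤ) {x : X} (hx : x ∈ E) :
    (N ^ j) (p r x) = p (r - 2 * j) ((N ^ j) x) := by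
  induction j with
  | zero => simp
  | succ j ih =>
    rw [pow_succ', Module.End.mul_apply, Module.End.mul_apply, ih,
      h.N_comm _ _ (h.N_pow_mem j hx)]
    congr 2
    push_cast
    ring

private theorem E5_Fpow {E : Submodule K X} {c : ℕ} {p : ℤ → Module.End K X}
    (h : PW q w N F E c p) (n : ℕ) (s : ℤ) {y : X} (hy : y ∈ E) :
    (F ^ n) (p s y) = p s ((F ^ n) y) ∧ (F ^ n) y ∈ E := by
  induction n with
  | zero => simpa using hy
  | succ n ih =>
    rw [pow_succ', Module.End.mul_apply, Module.End.mul_apply, ih.1]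
    exact ⟨h.F_comm s _ ih.2, h.F_mem _ ih.2⟩

private theorem E5_aeval {E : Submodule K X} {c : ℕ} {p : ℤ → Module.End K X}
    (h : PW q w N F E c p) (R : ℤ[X]) (s : ℤ) {y : X} (hy : y ∈ E) :
    (aeval F R) (p s y) = p s ((aeval F R) y) := by
  rw [aeval_eq_sum_range, LinearMap.sum_apply, LinearMap.sum_apply, map_sum]
  apply Finset.sum_congr rfl
  intro i _
  rw [LinearMap.smul_apply, LinearMap.smul_apply, map_zsmul, (E5_Fpow h i s hy).1]

private theorem E5_kill [CharZero K] (hq : 1 < q) {E : Submodule K X} {c : ℕ}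
    {p : ℤ → Module.End K X} (h : PW q w N F E c p) {r s : ℤ} (hrs : r ≠ s) {R : ℤ[X]}
    (hR : Weil q (w + r) R) {y : X} (hy : y ∈ E) (h0 : (aeval F R) y = 0) : p s y = 0 := by
  obtain ⟨R', hR', hk⟩ := h.pure s
  obtain ⟨a, b, hab⟩ := Weil.coprime K hq (show w + r ≠ w + s by omega) hR hR'
  have h1 : (aeval F (a * R.map (algebraMap ℤ K) + b * R'.map (algebraMap ℤ K))) (p s y) =
      p s y := by
    rw [hab, map_one, Module.End.one_apply]
  rw [map_add, LinearMap.add_apply, map_mul, map_mul, Module.End.mul_apply,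
    Module.End.mul_apply, aeval_map_algebraMap, aeval_map_algebraMap, E5_aeval h R s hy, h0,
    map_zero, map_zero, hk, map_zero, add_zero] at h1
  exact h1.symm

theorem PW.d_comm [CharZero K] (hq : 1 < q) {d : Module.End K X} {E₀ E₁ : Submodule K X} {c₀ c₁ : ℕ}
    {p₀ p₁ : ℤ → Module.End K X} (h₀ : PW q w N F E₀ c₀ p₀) (h₁ : PW q w N F E₁ c₁ p₁)
    (hd : ∀ x ∈ E₀, d x ∈ E₁) (hFd : ∀ x, d (F x) = F (d x)) (r : ℤ) {x : X} (hx : x ∈ E₀) :
    d (p₀ r x) = p₁ r (d x) := by
  have key : ∀ a s : ℤ, a ≠ s → p₁ s (d (p₀ a x)) = 0 := by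
    intro a s has
    obtain ⟨R, hR, hk⟩ := h₀.pure a
    apply E5_kill hq h₁ has hR (hd _ (h₀.mem a x))
    rw [← aeval_intertwine (f := d) hFd, hk, map_zero]
  have h1 : d (p₀ r x) = p₁ r (d (p₀ r x)) := by
    have h2 := h₁.sum (d (p₀ r x)) (hd _ (h₀.mem r x))
    by_cases hr : r ∈ Finset.Icc (-(c₁ : ℤ)) c₁
    · rw [Finset.sum_eq_single r] at h2
      · exact h2.symm
      · intro s _ hs
        exact key r s (Ne.symm hs)
      · intro hr'
        exact absurd hr hr'
    · have h3 : (c₁ : ℤ) < |r| := by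
        rw [Finset.mem_Icc] at hr
        rcases abs_cases r with h | h <;> omega
      rw [Finset.sum_eq_zero] at h2
      · rw [h₁.zero r _ h3]
        exact h2.symm
      · intro s hs
        apply key r s
        rintro rfl
        exact hr hs
  have h4 : p₁ r (d x) = p₁ r (d (p₀ r x)) := by
    have h2 := h₀.sum x hx
    conv_lhs => rw [← h2]
    rw [map_sum, map_sum]
    by_cases hr : r ∈ Finset.Icc (-(c₀ : ℤ)) c₀
    · rw [Finset.sum_eq_single r]
      · intro s _ hs
        exact key s r hs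
      · intro hr'
        exact absurd hr hr'
    · have h3 : (c₀ : ℤ) < |r| := by
        rw [Finset.mem_Icc] at hr
        rcases abs_cases r with h | h <;> omega
      rw [Finset.sum_eq_zero]
      · rw [h₀.zero r _ h3, map_zero, map_zero]
      · intro s hs
        apply key s r
        rintro rfl
        exact hr hs
  rw [h4]
  exact h1

end

end Pool.Agent.ND37
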