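import Pool.Agent.LibND37.E5

/-! E6: the cohomology of a complex `E₀ → E₁ → E₂` of spaces with weight-monodromy satisfies weight-monodromy, relative form.
`M s = A ⊔ (Ks E₁ d p₁ s).map cl`. -/

namespace Pool.Agent.ND37

open Module Polynomial Pool.Agent.WM85 Pool.Agent.LibX1

private theorem e6_mem {K X V : Type*} [Field K] [AddCommGroup X] [Module K X]
    [AddCommGroup V] [Module K V] {A : Submodule K V} {S : Submodule K X} {cl : X →ₗ[K] V}
    {x : V} : x ∈ A ⊔ S.map cl ↔ ∃ z ∈ S, x - cl z ∈ A := by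
  constructor
  · intro hx
    obtain ⟨a, ha, b, hb, rfl⟩ := Submodule.mem_sup.mp hx
    obtain ⟨z, hz, rfl⟩ := Submodule.mem_map.mp hb
    refine ⟨z, hz, ?_⟩
    rwa [add_sub_cancel_right]
  · rintro ⟨z, hz, ha⟩
    exact Submodule.mem_sup.mpr ⟨x - cl z, ha, cl z, Submodule.mem_map.mpr ⟨z, hz, rfl⟩,
      sub_add_cancel _ _⟩

private theorem e6_pow_mem {K V : Type*} [Field K] [AddCommGroup V] [Module K V]
    {A : Submodule K V} {N₁ : Module.End K V} (hN₁A : ∀ x ∈ A, N₁ x ∈ A) (j : ℕ) {x : V}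
    (hx : x ∈ A) : (N₁ ^ j) x ∈ A := by
  induction j with
  | zero => simpa using hx
  | succ j ih => rw [pow_succ', Module.End.mul_apply]; exact hN₁A _ ih

/-- A pair of intertwined endomorphisms: powers. -/
private theorem e6_pow {K X V : Type*} [Field K] [AddCommGroup X] [Module K X]
    [AddCommGroup V] [Module K V] {N : Module.End K X} {A : Submodule K V}
    {N₁ : Module.End K V} {cl : X →ₗ[K] V} {C : Submodule K X} (hC : ∀ z ∈ C, N z ∈ C)
    (hN₁A : ∀ x ∈ A, N₁ x ∈ A) (hN : ∀ z ∈ C, N₁ (cl z) - cl (N z) ∈ A) (j : ℕ) {z : X}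
    (hz : z ∈ C) : (N₁ ^ j) (cl z) - cl ((N ^ j) z) ∈ A := by
  induction j with
  | zero => simp
  | succ j ih =>
    rw [pow_succ', Module.End.mul_apply, pow_succ', Module.End.mul_apply]
    have h1 := hN₁A _ ih
    rw [map_sub] at h1
    have h2 := hN _ (e6_pow_mem hC j hz)
    have h3 := A.add_mem h1 h2
    rwa [sub_add_sub_cancel] at h3

private theorem e6_aeval {K X V : Type*} [Field K] [AddCommGroup X] [Module K X]
    [AddCommGroup V] [Module K V] {F : Module.End K X} {A : Submodule K V}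
    {F₁ : Module.End K V} {cl : X →ₗ[K] V} {C : Submodule K X} (hC : ∀ z ∈ C, F z ∈ C)
    (hF₁A : ∀ x ∈ A, F₁ x ∈ A) (hF : ∀ z ∈ C, F₁ (cl z) - cl (F z) ∈ A) (R : ℤ[X]) {z : X}
    (hz : z ∈ C) : (aeval F₁ R) (cl z) - cl ((aeval F R) z) ∈ A := by
  rw [aeval_eq_sum_range, aeval_eq_sum_range, LinearMap.sum_apply, LinearMap.sum_apply, map_sum,
    ← Finset.sum_sub_distrib]
  apply Submodule.sum_mem
  intro i _
  rw [LinearMap.smul_apply, LinearMap.smul_apply, map_zsmul, ← smul_sub]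
  exact A.toAddSubgroup.zsmul_mem (e6_pow hC hF₁A hF i hz) _

theorem coh_rel {K X V : Type*} [Field K] [CharZero K] [AddCommGroup X] [Module K X]
    [AddCommGroup V] [Module K V] {q : ℕ} (hq : 1 < q) {w : ℤ} {N F d : Module.End K X}
    {E₀ E₁ E₂ : Submodule K X} {c₀ c₁ c₂ : ℕ} {p₀ p₁ p₂ : ℤ → Module.End K X}
    (h₀ : PW q w N F E₀ c₀ p₀) (h₁ : PW q w N F E₁ c₁ p₁) (h₂ : PW q w N F E₂ c₂ p₂)
    (hd₀ : ∀ x ∈ E₀, d x ∈ E₁) (hd₁ : ∀ x ∈ E₁, d x ∈ E₂) (hdd : ∀ x ∈ E₀, d (d x) = 0)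
    (hNd : ∀ x, d (N x) = N (d x)) (hFd : ∀ x, d (F x) = F (d x))
    {A B : Submodule K V} (hAB : A ≤ B) {N₁ F₁ : Module.End K V} (hN₁A : ∀ x ∈ A, N₁ x ∈ A)
    (hF₁A : ∀ x ∈ A, F₁ x ∈ A) {cl : X →ₗ[K] V} (hmem : ∀ z ∈ E₁, d z = 0 → cl z ∈ B)
    (hsurj : ∀ x ∈ B, ∃ z ∈ E₁, d z = 0 ∧ x - cl z ∈ A)
    (hker : ∀ z ∈ E₁, d z = 0 → (cl z ∈ A ↔ ∃ y ∈ E₀, d y = z))
    (hN : ∀ z ∈ E₁, d z = 0 → N₁ (cl z) - cl (N z) ∈ A)
    (hF : ∀ z ∈ E₁, d z = 0 → F₁ (cl z) - cl (F z) ∈ A) :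
    ∃ M : ℤ → Submodule K V, RelMono N₁ A B M ∧ ∀ s, PureGr q (w + s) F₁ M s := by
  -- the cocycles
  let C : Submodule K X := E₁ ⊓ LinearMap.ker d
  have hCmem : ∀ z, z ∈ C ↔ z ∈ E₁ ∧ d z = 0 := by
    intro z
    rw [Submodule.mem_inf, LinearMap.mem_ker]
  have hCN : ∀ z ∈ C, N z ∈ C := by
    intro z hz
    rw [hCmem] at hz ⊢
    exact ⟨h₁.N_mem z hz.1, by rw [hNd, hz.2, map_zero]⟩
  have hCF : ∀ z ∈ C, F z ∈ C := by
    intro z hz
    rw [hCmem] at hz ⊢
    exact ⟨h₁.F_mem z hz.1, by rw [hFd, hz.2, map_zero]⟩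
  have hCp : ∀ t, ∀ z ∈ C, p₁ t z ∈ C := by
    intro t z hz
    rw [hCmem] at hz ⊢
    exact ⟨h₁.mem t z, by rw [PW.d_comm hq h₁ h₂ hd₁ hFd t hz.1, hz.2, map_zero]⟩
  have hN' : ∀ z ∈ C, N₁ (cl z) - cl (N z) ∈ A := by
    intro z hz
    rw [hCmem] at hz
    exact hN z hz.1 hz.2
  have hF' : ∀ z ∈ C, F₁ (cl z) - cl (F z) ∈ A := by
    intro z hz
    rw [hCmem] at hz
    exact hF z hz.1 hz.2
  have hK : ∀ s z, z ∈ Ks E₁ d p₁ s ↔ z ∈ C ∧ ∀ t, s < t → p₁ t z = 0 := by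
    intro s z
    rw [mem_Ks, hCmem, and_assoc]
  have hM : ∀ s x, x ∈ A ⊔ (Ks E₁ d p₁ s).map cl ↔ ∃ z ∈ Ks E₁ d p₁ s, x - cl z ∈ A :=
    fun s x => e6_mem
  have hKF : ∀ s, ∀ z ∈ Ks E₁ d p₁ s, F z ∈ Ks E₁ d p₁ s := by
    intro s z hz
    rw [hK] at hz ⊢
    refine ⟨hCF z hz.1, fun t ht => ?_⟩
    rw [← h₁.F_comm t z ((hCmem z).mp hz.1).1, hz.2 t ht, map_zero]
  have hKsub : ∀ s, ∀ z ∈ Ks E₁ d p₁ s, z - p₁ s z ∈ Ks E₁ d p₁ (s - 1) := by
    intro s z hz
    rw [hK] at hz ⊢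
    refine ⟨C.sub_mem hz.1 (hCp s z hz.1), fun t ht => ?_⟩
    rw [map_sub]
    rcases eq_or_lt_of_le (show s ≤ t by omega) with h | h
    · rw [← h, h₁.idem, sub_self]
    · rw [hz.2 t h, h₁.orth t s z (by omega), sub_self]
  refine ⟨fun s => A ⊔ (Ks E₁ d p₁ s).map cl, ?_, ?_⟩
  · refine
      { ge := fun s => le_sup_left
        le := fun s => sup_le hAB ?_
        mono := fun s => sup_le_sup_left (Submodule.map_mono ?_) _
        bot := ⟨-(c₁ : ℤ) - 1, ?_⟩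
        top := ⟨c₁, ?_⟩
        shift := ?_
        inj := ?_
        surj := ?_ }
    · rw [Submodule.map_le_iff_le_comap]
      intro z hz
      rw [hK, hCmem] at hz
      exact hmem z hz.1.1 hz.1.2
    · intro z hz
      rw [hK] at hz ⊢
      exact ⟨hz.1, fun t ht => hz.2 t (by omega)⟩
    · apply le_antisymm _ le_sup_left
      apply sup_le le_rfl
      rw [Submodule.map_le_iff_le_comap]
      intro z hz
      rw [hK] at hz
      have h1 : z = 0 := by
        rw [← h₁.sum z ((hCmem z).mp hz.1).1]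
        apply Finset.sum_eq_zero
        intro t ht
        rw [Finset.mem_Icc] at ht
        exact hz.2 t (by omega)
      rw [h1]
      exact Submodule.zero_mem _
    · apply le_antisymm
      · apply sup_le hAB
        rw [Submodule.map_le_iff_le_comap]
        intro z hz
        rw [hK, hCmem] at hz
        exact hmem z hz.1.1 hz.1.2
      · intro x hx
        obtain ⟨z, hz1, hz2, hz3⟩ := hsurj x hx
        rw [hM]
        refine ⟨z, ?_, hz3⟩
        rw [hK, hCmem]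
        refine ⟨⟨hz1, hz2⟩, fun t ht => h₁.zero t z ?_⟩
        exact lt_of_lt_of_le ht (le_abs_self t)
    · intro s x hx
      rw [hM] at hx ⊢
      obtain ⟨z, hz, hxz⟩ := hx
      rw [hK] at hz
      refine ⟨N z, ?_, ?_⟩
      · rw [hK]
        refine ⟨hCN z hz.1, fun t ht => ?_⟩
        have h1 := h₁.N_comm (t + 2) z ((hCmem z).mp hz.1).1
        rw [hz.2 (t + 2) (by omega), map_zero, show t + 2 - 2 = t by ring] at h1
        exact h1.symm
      · have h1 := A.add_mem (hN₁A _ hxz) (hN' z hz.1)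
        rwa [map_sub, sub_add_sub_cancel] at h1
    · intro s x hx hx'
      rw [hM] at hx hx' ⊢
      obtain ⟨z, hz, hxz⟩ := hx
      obtain ⟨z', hz', hxz'⟩ := hx'
      rw [hK] at hz hz'
      have hzE := (hCmem z).mp hz.1
      have hpw := e6_pow hCN hN₁A hN' s hz.1
      have hNz : (N ^ s) z ∈ C := e6_pow_mem hCN s hz.1
      have huC : (N ^ s) z - z' ∈ C := C.sub_mem hNz hz'.1
      have huA : cl ((N ^ s) z - z') ∈ A := by
        have h1 := e6_pow_mem hN₁A s hxz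
        rw [map_sub] at h1
        have h2 := A.sub_mem (A.sub_mem hxz' h1) hpw
        have h3 : (N₁ ^ s) x - cl z' - ((N₁ ^ s) x - (N₁ ^ s) (cl z))
            - ((N₁ ^ s) (cl z) - cl ((N ^ s) z)) = cl ((N ^ s) z - z') := by
          rw [map_sub]; abel
        rwa [h3] at h2
      obtain ⟨y, hy, hyu⟩ := (hker _ ((hCmem _).mp huC).1 ((hCmem _).mp huC).2).mp huA
      have h3 : (N ^ s) (p₁ s z) = d (p₀ (-s) y) := by
        rw [PW.d_comm hq h₀ h₁ hd₀ hFd (-s) hy, hyu, map_sub, hz'.2 (-s) (by omega), sub_zero,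
          h₁.N_pow_comm s s hzE.1]
        congr 2
        ring
      obtain ⟨y', hy'1, hy'2⟩ := h₀.surj s (p₀ (-s) y) (h₀.idem _ _)
      have hy'E : y' ∈ E₀ := by rw [← hy'1]; exact h₀.mem _ _
      have hdp : ∀ j : ℕ, ∀ v, d ((N ^ j) v) = (N ^ j) (d v) := by
        intro j v
        induction j with
        | zero => simp
        | succ j ih => rw [pow_succ', Module.End.mul_apply, hNd, ih, Module.End.mul_apply]
      have h4 : (N ^ s) (p₁ s z - d y') = 0 := by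
        rw [map_sub, ← hdp, hy'2, h3, sub_self]
      have hps : p₁ s (d y') = d y' := by
        rw [← PW.d_comm hq h₀ h₁ hd₀ hFd s hy'E, hy'1]
      have h5 : p₁ s z - d y' = 0 := by
        apply h₁.inj s _ _ h4
        rw [map_sub, h₁.idem, hps]
      have h6 : p₁ s z = d y' := sub_eq_zero.mp h5
      refine ⟨z - p₁ s z, ?_, ?_⟩
      · exact hKsub s z ((hK s z).mpr hz)
      · have h7 : cl (p₁ s z) ∈ A := by
          have h8 := (hCmem _).mp (hCp s z hz.1)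
          exact (hker _ h8.1 h8.2).mpr ⟨y', hy'E, h6.symm⟩
        have h9 := A.add_mem hxz h7
        have h10 : x - cl z + cl (p₁ s z) = x - cl (z - p₁ s z) := by
          rw [map_sub]; abel
        rwa [h10] at h9
    · intro s y hy
      rw [hM] at hy
      obtain ⟨z, hz, hyz⟩ := hy
      have hz0 := hz
      rw [hK] at hz
      have hzE := (hCmem z).mp hz.1
      obtain ⟨u, hu1, hu2⟩ := h₁.surj s (p₁ (-s) z) (h₁.idem _ _)
      have huE : u ∈ E₁ := by rw [← hu1]; exact h₁.mem _ _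
      have hdp : ∀ j : ℕ, ∀ v, d ((N ^ j) v) = (N ^ j) (d v) := by
        intro j v
        induction j with
        | zero => simp
        | succ j ih => rw [pow_succ', Module.End.mul_apply, hNd, ih, Module.End.mul_apply]
      have hdu : d u = 0 := by
        apply h₂.inj s (d u)
        · rw [← PW.d_comm hq h₁ h₂ hd₁ hFd s huE, hu1]
        · rw [← hdp, hu2, PW.d_comm hq h₁ h₂ hd₁ hFd (-s) hzE.1, hzE.2, map_zero]
      have huC : u ∈ C := (hCmem u).mpr ⟨huE, hdu⟩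
      refine ⟨cl u, ?_, ?_⟩
      · rw [hM]
        refine ⟨u, ?_, by rw [sub_self]; exact A.zero_mem⟩
        rw [hK]
        refine ⟨huC, fun t ht => ?_⟩
        rw [← hu1, h₁.orth t s u (by omega)]
      · rw [hM]
        refine ⟨z - p₁ (-s) z, hKsub (-s) z hz0, ?_⟩
        have h1 := e6_pow hCN hN₁A hN' s huC
        rw [hu2] at h1
        have h2 := A.sub_mem hyz h1
        have h3 : y - cl z - ((N₁ ^ s) (cl u) - cl (p₁ (-s) z))
            = y - (N₁ ^ s) (cl u) - cl (z - p₁ (-s) z) := by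
          rw [map_sub]; abel
        rwa [h3] at h2
  · intro s
    obtain ⟨R, hR1, hR2⟩ := h₁.pure s
    refine ⟨R, hR1, fun x hx => ?_⟩
    rw [hM] at hx
    rw [hM]
    obtain ⟨z, hz, hxz⟩ := hx
    have hz' := (hK s z).mp hz
    refine ⟨(aeval F R) (z - p₁ s z), ?_, ?_⟩
    · exact aeval_mem F (fun v hv => hKF (s - 1) v hv) R (hKsub s z hz)
    · have h1 : (aeval F₁ R) (x - cl z) ∈ A := aeval_mem F₁ (fun v hv => hF₁A v hv) R hxz
      have h2 := e6_aeval hCF hF₁A hF' R hz'.1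
      have h3 := A.add_mem h1 h2
      have h4 : (aeval F₁ R) (x - cl z) + ((aeval F₁ R) (cl z) - cl ((aeval F R) z))
          = (aeval F₁ R) x - cl ((aeval F R) (z - p₁ s z)) := by
        rw [map_sub, map_sub, hR2, sub_zero]; abel
      rwa [h4] at h3

end Pool.Agent.ND37
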