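import Pool.Agent.LibND37.Defs

/-!
The degenerate fibre of a projective family over a local field, the terms of its weight spectral sequence, and the
limit cohomology of the family.
-/

namespace Pool.Agent.ND37

open Module Polynomial Pool.Agent.WM85 Pool.Agent.LibX1

/-- Weight-monodromy for `N` and `F` on `E`, in degree `w`: there is a monodromy filtration `M` of `N` on `E` (a filtration
of `E` by subspaces), and `F` is pure of weight `w + s` on `gr_s = M s / M (s - 1)` for all `s`. -/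
def WM {K X : Type*} [Field K] [AddCommGroup X] [Module K X] (q : ℕ) (w : ℤ)
    (N F : Module.End K X) (E : Submodule K X) : Prop :=
  ∃ M : ℤ → Submodule K X, RelMono N ⊥ E M ∧ ∀ s, PureGr q (w + s) F M s

/-- The cohomology of the strata of a strictly semistable fibre `Y` over a local field with `q` elements in the residue
field: `gr k j` is `H^j (Y^(k+1))`, where `Y^(k+1)` is the disjoint union of the intersections of `k + 1` components, `rho`
is the alternating sum of the restrictions, `gamma` the alternating sum of the Gysin maps (zero on `Y^(1)`), `N` the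
monodromy operator and `frob` the Frobenius of the local field on the cohomology of the strata. -/
structure Fibre (q : ℕ) (K H : Type) [Field K] [AddCommGroup H] [Module K H] where
  gr : ℕ → ℕ → Submodule K H
  rho : Module.End K H
  gamma : Module.End K H
  N : Module.End K H
  frob : Module.End K H
  internal : DirectSum.IsInternal fun p : ℕ × ℕ => gr p.1 p.2
  rho_mem : ∀ k j, ∀ x ∈ gr k j, rho x ∈ gr (k + 1) j
  gamma_mem : ∀ k j, ∀ x ∈ gr (k + 1) j, gamma x ∈ gr k (j + 2)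
  gamma_zero : ∀ j, ∀ x ∈ gr 0 j, gamma x = 0
  frob_mem : ∀ k j, ∀ x ∈ gr k j, frob x ∈ gr k j
  rho_rho : ∀ x, rho (rho x) = 0
  gamma_gamma : ∀ x, gamma (gamma x) = 0
  anti : ∀ k j, ∀ x ∈ gr (k + 1) j, rho (gamma x) + gamma (rho x) = 0
  N_rho : ∀ x, N (rho x) = rho (N x)
  N_gamma : ∀ x, N (gamma x) = gamma (N x)
  frob_rho : ∀ x, frob (rho x) = rho (frob x)
  frob_gamma : ∀ x, frob (gamma x) = (q : K) • gamma (frob x)
  N_frob : ∀ x, N (frob x) = (q : K) • frob (N x)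

namespace Fibre

variable {q : ℕ} {K H : Type} [Field K] [AddCommGroup H] [Module K H] (Y : Fibre q K H)

/-- The entries in place `i` of `E m r`: the space `H^j (Y^(k+1))`, `k + j = m`, `k + r = 2 i`, `k ≥ i` (or `0`, if there
are no such `k`, `j`). -/
def place (m r : ℤ) (i : ℕ) : Submodule K H :=
  ⨆ k : ℕ, ⨆ j : ℕ, ⨆ (_ : i ≤ k ∧ (k : ℤ) + j = m ∧ (k : ℤ) + r = 2 * i), Y.gr k j

/-- The term of degree `m` and weight `m + r` of the weight spectral sequence: the sequences `f` with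
`f i ∈ H^(m+r-2i) (Y^(2i-r+1))`, `i ≥ max 0 r`. -/
def E (m r : ℤ) : Submodule K (ℕ → H) := Submodule.pi Set.univ (Y.place m r)

/-- The differential `E m r → E (m + 1) (r - 1)`, `(d f) i = rho (f i) + gamma (f (i + 1))`. -/
def d : Module.End K (ℕ → H) :=
  LinearMap.pi fun i => Y.rho ∘ₗ LinearMap.proj i + Y.gamma ∘ₗ LinearMap.proj (i + 1)

/-- The monodromy operator around the fibre, `E m r → E m (r - 2)`, `(shift f) i = f (i + 1)`. -/
def shift (K H : Type) [Field K] [AddCommGroup H] [Module K H] : Module.End K (ℕ → H) :=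
  LinearMap.pi fun i => LinearMap.proj (i + 1)

/-- The monodromy operator of the local field, `(N f) i = N (f i)`. -/
def Nn : Module.End K (ℕ → H) := LinearMap.pi fun i => Y.N ∘ₗ LinearMap.proj i

/-- The Frobenius `(F f) i = q ^ i F (f i)` (Tate twists). -/
def Fr : Module.End K (ℕ → H) :=
  LinearMap.pi fun i => ((q : K) ^ i) • (Y.frob ∘ₗ LinearMap.proj i)

/-- The cocycles in `E m r`. -/
def Z (m r : ℤ) : Submodule K (ℕ → H) := Y.E m r ⊓ LinearMap.ker Y.d

/-- The coboundaries in `E m r`. -/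
def B (m r : ℤ) : Submodule K (ℕ → H) := (Y.E (m - 1) (r + 1)).map Y.d

/-- `V` is the limit cohomology of degree `m` of a family with the fibre `Y`: `N₀` is the monodromy operator around the
fibre, `N₁` and `F` are the monodromy operator and the Frobenius of the local field, `W` is a finite filtration of `V`, and
`cl r` induces an isomorphism of the cohomology of the complex `E` in degree `m` and weight `m + r` with `W r / W (r - 1)`,
compatible with `N₀` (the operator `shift`), `N₁` and `F`. -/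
structure Limit (m : ℤ) {V : Type} [AddCommGroup V] [Module K V] (N₀ N₁ F : Module.End K V)
    (W : ℤ → Submodule K V) (cl : ℤ → (ℕ → H) →ₗ[K] V) : Prop where
  comm : ∀ x, N₀ (N₁ x) = N₁ (N₀ x)
  N₀_F : ∀ x, N₀ (F x) = (q : K) • F (N₀ x)
  N₁_F : ∀ x, N₁ (F x) = (q : K) • F (N₁ x)
  W_mono : ∀ r, W (r - 1) ≤ W r
  W_bot : ∃ r, W r = ⊥
  W_top : ∃ r, W r = ⊤
  N₀_mem : ∀ r, ∀ x ∈ W r, N₀ x ∈ W (r - 2)
  N₁_mem : ∀ r, ∀ x ∈ W r, N₁ x ∈ W r
  F_mem : ∀ r, ∀ x ∈ W r, F x ∈ W r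
  mem : ∀ r, ∀ z ∈ Y.Z m r, cl r z ∈ W r
  surj : ∀ r, ∀ x ∈ W r, ∃ z ∈ Y.Z m r, x - cl r z ∈ W (r - 1)
  ker : ∀ r, ∀ z ∈ Y.Z m r, cl r z ∈ W (r - 1) ↔ z ∈ Y.B m r
  N₀_cl : ∀ r, ∀ z ∈ Y.Z m r, N₀ (cl r z) - cl (r - 2) (shift K H z) ∈ W (r - 3)
  N₁_cl : ∀ r, ∀ z ∈ Y.Z m r, N₁ (cl r z) - cl r (Y.Nn z) ∈ W (r - 1)
  F_cl : ∀ r, ∀ z ∈ Y.Z m r, F (cl r z) - cl r (Y.Fr z) ∈ W (r - 1)

end Fibre

/-- The projections `p r` of `E` to its parts of weight `w + r`; they are defined on the whole space `X`, with values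
in `E`. -/
structure PW {K X : Type*} [Field K] [AddCommGroup X] [Module K X] (q : ℕ) (w : ℤ)
    (N F : Module.End K X) (E : Submodule K X) (c : ℕ) (p : ℤ → Module.End K X) : Prop where
  mem : ∀ r x, p r x ∈ E
  idem : ∀ r x, p r (p r x) = p r x
  orth : ∀ r s x, r ≠ s → p r (p s x) = 0
  zero : ∀ r x, (c : ℤ) < |r| → p r x = 0
  sum : ∀ x ∈ E, ∑ r ∈ Finset.Icc (-(c : ℤ)) c, p r x = x
  F_mem : ∀ x ∈ E, F x ∈ E
  N_mem : ∀ x ∈ E, N x ∈ E
  F_comm : ∀ r, ∀ x ∈ E, F (p r x) = p r (F x)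
  N_comm : ∀ r, ∀ x ∈ E, N (p r x) = p (r - 2) (N x)
  pure : ∀ r, ∃ R : ℤ[X], Weil q (w + r) R ∧ ∀ x, (aeval F R) (p r x) = 0
  inj : ∀ r : ℕ, ∀ x, p r x = x → (N ^ r) x = 0 → x = 0
  surj : ∀ r : ℕ, ∀ y, p (-r) y = y → ∃ x, p r x = x ∧ (N ^ r) x = y

/-- The part of the cocycles with weights `≤ s`. -/
def Ks {K X : Type*} [Field K] [AddCommGroup X] [Module K X] (E : Submodule K X)
    (d : Module.End K X) (p : ℤ → Module.End K X) (s : ℤ) : Submodule K X :=
  E ⊓ LinearMap.ker d ⊓ ⨅ t : ℤ, ⨅ _ : s < t, LinearMap.ker (p t)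

theorem mem_Ks {K X : Type*} [Field K] [AddCommGroup X] [Module K X] {E : Submodule K X}
    {d : Module.End K X} {p : ℤ → Module.End K X} {s : ℤ} {x : X} :
    x ∈ Ks E d p s ↔ x ∈ E ∧ d x = 0 ∧ ∀ t, s < t → p t x = 0 := by
  simp [Ks, and_assoc]

end Pool.Agent.ND37
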