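import Pool.Agent.LibND37.Core
import Pool.Agent.LibND37.E4
import Pool.Agent.LibND37.E6

/-!
Weight-monodromy for the fibres near a degenerate fibre.
-/

namespace Pool.Agent.ND37

open Module Polynomial Pool.Agent.WM85 Pool.Agent.LibX1

namespace Fibre

variable {q : ℕ} {K H : Type} [Field K] [AddCommGroup H] [Module K H] (Y : Fibre q K H)

theorem le_place {m r : ℤ} {i k j : ℕ} (h : i ≤ k) (h' : (k : ℤ) + j = m)
    (h'' : (k : ℤ) + r = 2 * i) : Y.gr k j ≤ Y.place m r i :=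
  le_iSup_of_le k (le_iSup_of_le j (le_iSup_of_le ⟨h, h', h''⟩ le_rfl))

theorem place_le {m r : ℤ} {i : ℕ} {S : Submodule K H}
    (h : ∀ k j : ℕ, i ≤ k → (k : ℤ) + j = m → (k : ℤ) + r = 2 * i → Y.gr k j ≤ S) :
    Y.place m r i ≤ S :=
  iSup_le fun k => iSup_le fun j => iSup_le fun hk => h k j hk.1 hk.2.1 hk.2.2

theorem mem_E {m r : ℤ} {f : ℕ → H} : f ∈ Y.E m r ↔ ∀ i, f i ∈ Y.place m r i := by
  rw [E, Submodule.mem_pi]
  simp

theorem d_apply (f : ℕ → H) (i : ℕ) : Y.d f i = Y.rho (f i) + Y.gamma (f (i + 1)) := rfl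

theorem d_mem {m m' r r' : ℤ} (hm : m' = m + 1) (hr : r' = r - 1) {f : ℕ → H} (hf : f ∈ Y.E m r) :
    Y.d f ∈ Y.E m' r' := by
  subst hm hr
  rw [mem_E] at hf ⊢
  intro i
  rw [d_apply]
  apply Submodule.add_mem
  · have h1 : Y.place m r i ≤ (Y.place (m + 1) (r - 1) i).comap Y.rho := by
      apply Y.place_le
      intro k j h1 h2 h3 x hx
      exact Y.le_place (k := k + 1) (by omega) (by push_cast; omega) (by push_cast; omega)
        (Y.rho_mem k j x hx)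
    exact h1 (hf i)
  · have h1 : Y.place m r (i + 1) ≤ (Y.place (m + 1) (r - 1) i).comap Y.gamma := by
      apply Y.place_le
      intro k j h1 h2 h3 x hx
      obtain ⟨k', rfl⟩ : ∃ k', k = k' + 1 := ⟨k - 1, by omega⟩
      exact Y.le_place (k := k') (j := j + 2) (by omega) (by push_cast at *; omega)
        (by push_cast at *; omega) (Y.gamma_mem k' j x hx)
    exact h1 (hf (i + 1))

theorem d_d {m r : ℤ} {f : ℕ → H} (hf : f ∈ Y.E m r) : Y.d (Y.d f) = 0 := by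
  rw [mem_E] at hf
  funext i
  have h1 : Y.place m r (i + 1) ≤ LinearMap.ker (Y.rho ∘ₗ Y.gamma + Y.gamma ∘ₗ Y.rho) := by
    apply Y.place_le
    intro k j h1 h2 h3 x hx
    obtain ⟨k', rfl⟩ : ∃ k', k = k' + 1 := ⟨k - 1, by omega⟩
    exact Y.anti k' j x hx
  have h2 : Y.rho (Y.gamma (f (i + 1))) + Y.gamma (Y.rho (f (i + 1))) = 0 := h1 (hf (i + 1))
  rw [d_apply, d_apply, d_apply, map_add, map_add, Y.rho_rho, Y.gamma_gamma, zero_add, add_zero, h2]
  rfl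

theorem d_Nn (f : ℕ → H) : Y.d (Y.Nn f) = Y.Nn (Y.d f) := by
  funext i
  show Y.rho (Y.N (f i)) + Y.gamma (Y.N (f (i + 1))) = Y.N (Y.rho (f i) + Y.gamma (f (i + 1)))
  rw [map_add, Y.N_rho, Y.N_gamma]

theorem d_Fr (f : ℕ → H) : Y.d (Y.Fr f) = Y.Fr (Y.d f) := by
  funext i
  show Y.rho ((q : K) ^ i • Y.frob (f i)) + Y.gamma ((q : K) ^ (i + 1) • Y.frob (f (i + 1))) =
    (q : K) ^ i • Y.frob (Y.rho (f i) + Y.gamma (f (i + 1)))
  rw [map_smul, map_smul, map_add, Y.frob_rho, Y.frob_gamma, smul_add, smul_smul, pow_succ]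

variable {Y} in
/-- Weight-monodromy for the strata in the degrees `m - 1`, `m`, `m + 1` gives weight-monodromy for `N₁ + v N₀`, for all
but finitely many `v`. -/
theorem Limit.nearby [CharZero K] [FiniteDimensional K H] (hq : 1 < q) {m : ℤ}
    (hY : ∀ k j : ℕ, |(k : ℤ) + j - m| ≤ 1 → WM q j Y.N Y.frob (Y.gr k j))
    {V : Type} [AddCommGroup V] [Module K V] [FiniteDimensional K V] {N₀ N₁ F : Module.End K V}
    {W : ℤ → Submodule K V} {cl : ℤ → (ℕ → H) →ₗ[K] V} (h : Y.Limit m N₀ N₁ F W cl)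
    (hW : IsMono N₀ W) : {v : K | ¬ WM q m (N₁ + v • N₀) F ⊤}.Finite := by
  have key : ∀ r : ℤ, ∃ M : ℤ → Submodule K V, RelMono N₁ (W (r - 1)) (W r) M ∧
      ∀ s, PureGr q (m + r + s) F M s := by
    intro r
    obtain ⟨c₀, p₀, h₀⟩ := Y.exists_pw_E hq (m - 1) (r + 1) (fun k j hkj => hY k j (by
      rw [hkj, show m - 1 - m = -1 by ring]; simp))
    obtain ⟨c₁, p₁, h₁⟩ := Y.exists_pw_E hq m r (fun k j hkj => hY k j (by
      rw [hkj, sub_self]; simp))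
    obtain ⟨c₂, p₂, h₂⟩ := Y.exists_pw_E hq (m + 1) (r - 1) (fun k j hkj => hY k j (by
      rw [hkj, show m + 1 - m = 1 by ring]; simp))
    rw [show m - 1 + (r + 1) = m + r by ring] at h₀
    rw [show m + 1 + (r - 1) = m + r by ring] at h₂
    refine coh_rel hq h₀ h₁ h₂ (fun x hx => Y.d_mem (by ring) (by ring) hx)
      (fun x hx => Y.d_mem rfl rfl hx) (fun x hx => Y.d_d hx) Y.d_Nn Y.d_Fr
      (hW.monotone (by omega)) (h.N₁_mem (r - 1)) (h.F_mem (r - 1))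
      (cl := cl r) (fun z hz hz' => h.mem r z ⟨hz, hz'⟩) (fun x hx => ?_)
      (fun z hz hz' => ?_) (fun z hz hz' => h.N₁_cl r z ⟨hz, hz'⟩)
      (fun z hz hz' => h.F_cl r z ⟨hz, hz'⟩)
    · obtain ⟨z, ⟨hz, hz'⟩, hx'⟩ := h.surj r x hx
      exact ⟨z, hz, hz', hx'⟩
    · rw [h.ker r z ⟨hz, hz'⟩]
      exact Iff.rfl
  choose M hM hP using key
  refine (pencil hq h.comm h.N₀_F h.N₁_F hW hM hP).subset ?_
  intro v hv hcon
  apply hv
  obtain ⟨M', hM', hP'⟩ := hcon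
  exact ⟨M', relMono_of_isMono hM', hP'⟩

end Fibre

end Pool.Agent.ND37
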