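import Pool.Agent.LibND37.Fibre
import Pool.Agent.LibX1.Normal

/-! M2 (SHORT/MEDIUM): comparison of `Fibre.E` with `Strata.wt` (LibX1/Cells.lean) for systems with the same spaces. `E_eq`: `f ∈ wt m r`: `Strata.wt_apply` (LibX1/Normal.lean): `f i = 0` or
`f i ∈ gr k j` with `i ≤ k`, `k + j = m`, `k + r = 2 i`, which lies in `place m r i` (`le_iSup_of_le`). Conversely, if `f i ∈ place m r i` for all `i` then `f i = 0` for `i > m` and
`f = ∑ i ∈ range (m + 1), single i (f i)` (see `tot_le_wt` in LibX1/Cells.lean for this pattern), and `single i` maps `place m r i` into `wt m r` (`iSup_le` three times, `Strata.cell_le_wt`).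
`E_neg`: for `m < 0` all `place m r i` are `⊥` (`k + j = m` is impossible). `mem_E`: `Submodule.mem_pi`. -/

namespace Pool.Agent.ND37

open Module Polynomial Pool.Agent.WM85 Pool.Agent.LibX1 TensorProduct

private theorem M2_mem_E {q : ℕ} {K H : Type} [Field K] [AddCommGroup H] [Module K H]
    (Y : Fibre q K H) {m r : ℤ} {f : ℕ → H} : f ∈ Y.E m r ↔ ∀ i, f i ∈ Y.place m r i := by
  rw [Fibre.E, Submodule.mem_pi]
  exact ⟨fun h i => h i (Set.mem_univ i), fun h i _ => h i⟩

private theorem M2_place_le {q : ℕ} {K H : Type} [Field K] [AddCommGroup H] [Module K H]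
    (Y : Fibre q K H) {m r : ℤ} {i : ℕ} {S : Submodule K H}
    (h : ∀ k j : ℕ, i ≤ k → (k : ℤ) + j = m → (k : ℤ) + r = 2 * i → Y.gr k j ≤ S) :
    Y.place m r i ≤ S :=
  iSup_le fun k => iSup_le fun j => iSup_le fun hh => h k j hh.1 hh.2.1 hh.2.2

theorem Fibre.E_eq {q q' : ℕ} {K H : Type} [Field K] [AddCommGroup H] [Module K H]
    (Y : Fibre q K H) (Y' : Strata q' K H) (hg : Y'.gr = Y.gr) (m : ℕ) (r : ℤ) :
    Y.E m r = Y'.wt m r := by
  apply le_antisymm
  · intro f hf
    rw [M2_mem_E] at hf
    have h1 : f = ∑ i ∈ Finset.range (m + 1), LinearMap.single K (fun _ : ℕ => H) i (f i) := by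
      funext l
      rw [Finset.sum_apply]
      by_cases hl : l ∈ Finset.range (m + 1)
      · rw [Finset.sum_eq_single l]
        · rw [LinearMap.single_apply, Pi.single_eq_same]
        · intro i _ hi
          rw [LinearMap.single_apply, Pi.single_eq_of_ne (Ne.symm hi)]
        · intro h
          exact absurd hl h
      · have h2 : f l = 0 := by
          have h3 : Y.place m r l ≤ ⊥ := by
            apply M2_place_le
            intro k j h4 h5 _
            rw [Finset.mem_range] at hl
            exfalso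
            omega
          exact (Submodule.mem_bot K).mp (h3 (hf l))
        rw [h2]
        symm
        apply Finset.sum_eq_zero
        intro i hi
        rw [LinearMap.single_apply, Pi.single_eq_of_ne (by rintro rfl; exact hl hi)]
    rw [h1]
    apply Submodule.sum_mem
    intro i _
    have h2 : Y.place m r i ≤ (Y'.wt m r).comap (LinearMap.single K (fun _ : ℕ => H) i) := by
      apply M2_place_le
      intro k j h4 h5 h6 x hx
      rw [← hg] at hx
      exact Y'.cell_le_wt h4 (by omega) h6 ⟨x, hx, rfl⟩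
    exact h2 (hf i)
  · intro f hf
    rw [M2_mem_E]
    intro i
    rcases Y'.wt_apply hf i with h | ⟨k, j, h4, h5, h6, h7⟩
    · rw [h]
      exact Submodule.zero_mem _
    · rw [hg] at h7
      exact Submodule.mem_iSup_of_mem k (Submodule.mem_iSup_of_mem j
        (Submodule.mem_iSup_of_mem ⟨h4, by omega, h6⟩ h7))

theorem Fibre.E_neg {q : ℕ} {K H : Type} [Field K] [AddCommGroup H] [Module K H]
    (Y : Fibre q K H) {m : ℤ} (hm : m < 0) (r : ℤ) : Y.E m r = ⊥ := by
  rw [eq_bot_iff]
  intro f hf
  rw [M2_mem_E] at hf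
  rw [Submodule.mem_bot]
  funext i
  have h3 : Y.place m r i ≤ ⊥ := by
    apply M2_place_le
    intro k j h4 h5 _
    exfalso
    omega
  exact (Submodule.mem_bot K).mp (h3 (hf i))

end Pool.Agent.ND37
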