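import Pool.Agent.LibND37.M1
import Pool.Agent.LibND37.M2

/-! M3 (MEDIUM): the shift is bijective on the cohomology of `E`. For `s = 0` everything is trivial (`u = z`). Let `s ≥ 1`. `Y'`, `hg`, `hr`, `hgam`, `hh` from `exists_strata` (M1). `Y.E m r = Y'.wt m r` (`E_eq`, M2),
`Y.d = Y'.d` and `Fibre.shift K H = Strata.shift K H` (`rfl` after rewriting with `hr`, `hgam`; `Fibre.d`, `Strata.d`). `V'`, `cl'`, `N'`, `F'`, `hV'` from `LibHL10.exists_coh Y' m`.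
Injectivity: `x = cl' z ∈ Y'.W m cl' s` (`z ∈ wt m s`, `z ∈ Y'.Z m = tot m ⊓ ker d`, `wt_le_tot`), `N' ^ s x = cl' (shift ^ s z)` (`Strata.Coh.N_pow_cl` in LibX1/Normal), and `shift ^ s z ∈ Y'.B m`: for `m = n' + 1`
it is `d g`, `g ∈ E (m - 1) (-s + 1) = wt n' (-s + 1) ≤ tot n'` (`Strata.B_succ`), for `m = 0` it is `0` (`E_neg`). So `N' ^ s x = 0` (`hV'.ker`, `shift_pow_Z`), `x = 0` by
`LibLS20.HodgeTheory.inj_base hh (q = 4)`, so `z ∈ Y'.B m`, and for `m = n' + 1` `Strata.exists_comp_B` (LibX1/Cells) gives `g ∈ wt n' (s + 1)` with `d g = z`; for `m = 0` `B_zero`: `z = 0`.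
Surjectivity: `y = cl' z ∈ Y'.W m cl' (-s)`; `hh.exists_form` gives `I'`, `hI' : LibHL10.Dual Y' n I'`; `hI'.coh_surj (by norm_num) (hh.inj_base (by norm_num)) hV' hs y hy` gives `x = cl' u`, `u ∈ wt m s ⊓ Z m`,
`N' ^ s x = y`, so `z - shift ^ s u ∈ Y'.B m` (`hV'.ker`), it lies in `wt m (-s)` (`pow_mem_grade` with `Strata.shift_wt`), so `exists_comp_B` again. `CharZero K` from `(algebraMap K ℂ).charZero`. -/

namespace Pool.Agent.ND37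

open Module Polynomial Pool.Agent.WM85 Pool.Agent.LibX1 TensorProduct

private theorem M3_cmp {q q' : ℕ} {K H : Type} [Field K] [AddCommGroup H] [Module K H]
    (Y : Fibre q K H) (Y' : Strata q' K H) (hr : Y'.rho = Y.rho) (hgam : Y'.gamma = Y.gamma) :
    Y'.d = Y.d := by
  unfold Strata.d Fibre.d
  rw [hr, hgam]

private theorem M3_Z {q q' : ℕ} {K H : Type} [Field K] [AddCommGroup H] [Module K H]
    (Y : Fibre q K H) (Y' : Strata q' K H) (hg : Y'.gr = Y.gr) (hd : Y'.d = Y.d) {m : ℕ} {r : ℤ}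
    {z : ℕ → H} (hz : z ∈ Y.Z m r) : z ∈ Y'.wt m r ∧ z ∈ Y'.Z m := by
  have h1 : z ∈ Y'.wt m r := by
    rw [← Y.E_eq Y' hg]
    exact hz.1
  refine ⟨h1, Y'.wt_le_tot m r h1, ?_⟩
  rw [hd]
  exact hz.2

private theorem M3_Z' {q q' : ℕ} {K H : Type} [Field K] [AddCommGroup H] [Module K H]
    (Y : Fibre q K H) (Y' : Strata q' K H) (hg : Y'.gr = Y.gr) (hd : Y'.d = Y.d) {m : ℕ} {r : ℤ}
    {z : ℕ → H} (hz : z ∈ Y'.wt m r) (hz' : z ∈ Y'.Z m) : z ∈ Y.Z m r := by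
  refine ⟨?_, ?_⟩
  · rw [Y.E_eq Y' hg]
    exact hz
  · rw [← hd]
    exact hz'.2

private theorem M3_B {q q' : ℕ} {K H : Type} [Field K] [AddCommGroup H] [Module K H]
    (Y : Fibre q K H) (Y' : Strata q' K H) (hg : Y'.gr = Y.gr) (hd : Y'.d = Y.d) {m : ℕ} {r : ℤ}
    {z : ℕ → H} (hz : z ∈ Y.B m r) : z ∈ Y'.B m := by
  obtain ⟨g, hgE, rfl⟩ := hz
  rcases m with _ | n
  · have h1 : Y.E (((0 : ℕ) : ℤ) - 1) (r + 1) = ⊥ := Y.E_neg (by simp) _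
    rw [SetLike.mem_coe, h1, Submodule.mem_bot] at hgE
    rw [hgE, map_zero]
    exact Submodule.zero_mem _
  · have h1 : (((n + 1 : ℕ) : ℤ) - 1) = n := by push_cast; ring
    rw [h1, SetLike.mem_coe, Y.E_eq Y' hg] at hgE
    rw [Strata.B_succ, ← hd]
    exact ⟨g, Y'.wt_le_tot _ _ hgE, rfl⟩

private theorem M3_B' {q q' : ℕ} {K H : Type} [Field K] [CharZero K] [AddCommGroup H] [Module K H]
    (Y : Fibre q K H) (Y' : Strata q' K H) (hq : 1 < q') (hg : Y'.gr = Y.gr) (hd : Y'.d = Y.d)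
    {m : ℕ} {r : ℤ} {z : ℕ → H} (hz : z ∈ Y'.wt m r) (hB : z ∈ Y'.B m) : z ∈ Y.B m r := by
  rcases m with _ | n
  · rw [Strata.B_zero, Submodule.mem_bot] at hB
    rw [hB]
    exact Submodule.zero_mem _
  · obtain ⟨g, hgw, hgd⟩ := Y'.exists_comp_B hq hz hB
    refine ⟨g, ?_, ?_⟩
    · have h1 : (((n + 1 : ℕ) : ℤ) - 1) = n := by push_cast; ring
      rw [h1, SetLike.mem_coe, Y.E_eq Y' hg]
      exact hgw
    · rw [← hd]
      exact hgd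

section
variable {q : ℕ} {K : Type} [Field K] [Algebra K ℂ] {H : Type} [AddCommGroup H] [Module K H]
  [FiniteDimensional K H] (Y : Fibre q K H) {n : ℕ}
  {conj : (ℂ ⊗[K] H) →ₛₗ[starRingEnd ℂ] (ℂ ⊗[K] H)}
  {hpq : ℕ → ℕ → ℕ → Submodule ℂ (ℂ ⊗[K] H)} {L : Module.End K H}
  {I : (ℂ ⊗[K] H) →ₗ[ℂ] (ℂ ⊗[K] H) →ₗ[ℂ] ℂ}

theorem Fibre.shift_inj
    (h : Hodge (fun k j => (Y.gr k j).baseChange ℂ) (Y.rho.baseChange ℂ) (Y.gamma.baseChange ℂ)
      n conj hpq (L.baseChange ℂ) I) (m s : ℕ) {z : ℕ → H} (hz : z ∈ Y.Z m s)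
    (hB : ((Fibre.shift K H) ^ s) z ∈ Y.B m (-s)) : z ∈ Y.B m s := by
  have hK : CharZero K := (algebraMap K ℂ).charZero
  obtain ⟨Y', hg, hr, hgam, hh⟩ := Y.exists_strata h
  have hd := M3_cmp Y Y' hr hgam
  obtain ⟨V', i1, i2, cl', N', F', hV'⟩ := LibHL10.exists_coh Y' m
  obtain ⟨hzw, hzZ⟩ := M3_Z Y Y' hg hd hz
  have hB' : ((Strata.shift K H) ^ s) z ∈ Y'.B m := M3_B Y Y' hg hd hB
  rcases Nat.eq_zero_or_pos s with rfl | hs
  · rw [pow_zero] at hB'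
    exact M3_B' Y Y' (by norm_num) hg hd hzw hB'
  · have h1 : cl' z = 0 := by
      apply hh.inj_base (by norm_num) m V' cl' N' F' hV' s hs
      · exact ⟨z, ⟨hzw, hzZ⟩, rfl⟩
      · rw [hV'.N_pow_cl s hzZ, hV'.ker _ (Y'.shift_pow_Z s hzZ)]
        exact hB'
    rw [hV'.ker _ hzZ] at h1
    exact M3_B' Y Y' (by norm_num) hg hd hzw h1

theorem Fibre.shift_surj
    (h : Hodge (fun k j => (Y.gr k j).baseChange ℂ) (Y.rho.baseChange ℂ) (Y.gamma.baseChange ℂ)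
      n conj hpq (L.baseChange ℂ) I) (m s : ℕ) {z : ℕ → H} (hz : z ∈ Y.Z m (-s)) :
    ∃ u ∈ Y.Z m s, z - ((Fibre.shift K H) ^ s) u ∈ Y.B m (-s) := by
  rcases Nat.eq_zero_or_pos s with rfl | hs
  · refine ⟨z, by simpa using hz, ?_⟩
    rw [pow_zero, Module.End.one_apply, sub_self]
    exact Submodule.zero_mem _
  · have hK : CharZero K := (algebraMap K ℂ).charZero
    obtain ⟨Y', hg, hr, hgam, hh⟩ := Y.exists_strata h
    have hd := M3_cmp Y Y' hr hgam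
    obtain ⟨V', i1, i2, cl', N', F', hV'⟩ := LibHL10.exists_coh Y' m
    obtain ⟨hzw, hzZ⟩ := M3_Z Y Y' hg hd hz
    obtain ⟨I', hI'⟩ := hh.exists_form
    obtain ⟨x, ⟨u, ⟨huw, huZ⟩, rfl⟩, hx⟩ := hI'.coh_surj (by norm_num)
      (hh.inj_base (by norm_num)) hV' hs (cl' z) ⟨z, ⟨hzw, hzZ⟩, rfl⟩
    have hsw : ((Strata.shift K H) ^ s) u ∈ Y'.wt m (-s) := by
      have h1 := pow_mem_grade (W := Y'.wt m) (N := Strata.shift K H)
        (fun r x hx => Y'.shift_wt m r hx) s s u huw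
      rwa [show (s : ℤ) - 2 * s = -s by ring] at h1
    refine ⟨u, M3_Z' Y Y' hg hd huw huZ, ?_⟩
    apply M3_B' Y Y' (by norm_num) hg hd (Submodule.sub_mem _ hzw hsw)
    rw [hV'.N_pow_cl s huZ] at hx
    rw [← hV'.ker _ (Submodule.sub_mem _ hzZ (Y'.shift_pow_Z s huZ)), map_sub, hx, sub_self]

end

end Pool.Agent.ND37
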