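import Pool.Agent.LibND37.Fibre

/-! M4 (MEDIUM): `W` is the monodromy filtration of `N₀`. `W` is monotone (`monotone_int_of_le_succ`). `shift` maps `Z m r` to `Z m (r - 2)`: `Y.place m r (i + 1) ≤ Y.place m (r - 2) i` (`iSup_le`, `le_iSup_of_le`, omega), and `d` commutes with `shift`
(`rfl`). By induction on `j`: `N₀ ^ j (cl r z) - cl (r - 2 j) (shift ^ j z) ∈ W (r - 2 j - 1)` for `z ∈ Z m r` (apply `N₀` and `N₀_mem`, add `N₀_cl` for `shift ^ j z`). `N₀ ^ j` maps `W r` to `W (r - 2 j)`.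
`inj`: `x ∈ W s`, `N₀ ^ s x ∈ W (-s - 1)`: `x = cl s z + w`, `w ∈ W (s - 1)` (`surj`); so `cl (-s) (shift ^ s z) ∈ W (-s - 1)`, `shift ^ s z ∈ Z m (-s)`, so it is in `B m (-s)` (`ker`), so `z ∈ B m s` (`hinj`), so `cl s z ∈ W (s - 1)`.
`surj`: `y ∈ W (-s)`: `y - cl (-s) z ∈ W (-s - 1)`, `z ∈ Z m (-s)`; `u` from `hsurj`: `z - shift ^ s u ∈ B m (-s)`, so `cl (-s) (z - shift ^ s u) ∈ W (-s - 1)` (`ker`; it is in `Z m (-s)`), and `x = cl s u`.
Rewrite `s - 2 s = -s` carefully (`have e : (s : ℤ) - 2 * s = -s := by ring; rw [e] at *`). -/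

namespace Pool.Agent.ND37

open Module Polynomial Pool.Agent.WM85 Pool.Agent.LibX1 TensorProduct

private theorem M4_mono {K V : Type} [Field K] [AddCommGroup V] [Module K V] {W : ℤ → Submodule K V}
    (hW : ∀ r, W (r - 1) ≤ W r) : Monotone W := by
  refine monotone_int_of_le_succ fun n => ?_
  have h1 := hW (n + 1)
  rwa [add_sub_cancel_right] at h1

private theorem M4_shift {q : ℕ} {K H : Type} [Field K] [AddCommGroup H] [Module K H]
    (Y : Fibre q K H) {m r : ℤ} {z : ℕ → H} (hz : z ∈ Y.Z m r) :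
    Fibre.shift K H z ∈ Y.Z m (r - 2) := by
  obtain ⟨h1, h2⟩ := Submodule.mem_inf.1 hz
  refine Submodule.mem_inf.2 ⟨?_, ?_⟩
  · refine Submodule.mem_pi.2 fun i _ => ?_
    have h3 : z (i + 1) ∈ Y.place m r (i + 1) := Submodule.mem_pi.1 h1 (i + 1) (Set.mem_univ _)
    have h4 : Y.place m r (i + 1) ≤ Y.place m (r - 2) i := by
      unfold Fibre.place
      refine iSup_le fun k => iSup_le fun j => iSup_le fun hk => ?_
      refine le_iSup_of_le k (le_iSup_of_le j (le_iSup_of_le ?_ le_rfl))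
      obtain ⟨g1, g2, g3⟩ := hk
      push_cast at g3
      exact ⟨by omega, g2, by omega⟩
    exact h4 h3
  · rw [LinearMap.mem_ker] at h2 ⊢
    funext i
    exact congrFun h2 (i + 1)

private theorem M4_shiftpow {q : ℕ} {K H : Type} [Field K] [AddCommGroup H] [Module K H]
    (Y : Fibre q K H) {m r : ℤ} {z : ℕ → H} (hz : z ∈ Y.Z m r) (j : ℕ) :
    ∀ t : ℤ, t = r - 2 * j → ((Fibre.shift K H) ^ j) z ∈ Y.Z m t := by
  induction j with
  | zero =>
    intro t ht
    have e : t = r := by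
      rw [ht]
      simp
    rw [e, pow_zero]
    exact hz
  | succ j ih =>
    intro t ht
    have h1 := M4_shift Y (ih (r - 2 * j) rfl)
    have e : t = r - 2 * j - 2 := by
      rw [ht]
      push_cast
      ring
    rw [e, pow_succ']
    exact h1

private theorem M4_Npow {K V : Type} [Field K] [AddCommGroup V] [Module K V] {N₀ : Module.End K V}
    {W : ℤ → Submodule K V} (hN : ∀ r, ∀ x ∈ W r, N₀ x ∈ W (r - 2)) {r : ℤ} {x : V} (hx : x ∈ W r) (j : ℕ) :
    ∀ t : ℤ, t = r - 2 * j → (N₀ ^ j) x ∈ W t := by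
  induction j with
  | zero =>
    intro t ht
    have e : t = r := by
      rw [ht]
      simp
    rw [e, pow_zero]
    exact hx
  | succ j ih =>
    intro t ht
    have h1 := hN _ _ (ih (r - 2 * j) rfl)
    have e : t = r - 2 * j - 2 := by
      rw [ht]
      push_cast
      ring
    rw [e, pow_succ']
    exact h1

private theorem M4_pow {q : ℕ} {K H : Type} [Field K] [AddCommGroup H] [Module K H]
    {Y : Fibre q K H} {m : ℤ} {V : Type} [AddCommGroup V] [Module K V] {N₀ N₁ F : Module.End K V}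
    {W : ℤ → Submodule K V} {cl : ℤ → (ℕ → H) →ₗ[K] V} (h : Y.Limit m N₀ N₁ F W cl) {r : ℤ}
    {z : ℕ → H} (hz : z ∈ Y.Z m r) (j : ℕ) :
    ∀ t : ℤ, t = r - 2 * j → (N₀ ^ j) (cl r z) - cl t (((Fibre.shift K H) ^ j) z) ∈ W (t - 1) := by
  induction j with
  | zero =>
    intro t ht
    have e : t = r := by
      rw [ht]
      simp
    rw [e, pow_zero, pow_zero]
    show cl r z - cl r z ∈ W (r - 1)
    rw [sub_self]
    exact Submodule.zero_mem _
  | succ j ih =>
    intro t ht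
    have h1 := h.N₀_mem _ _ (ih (r - 2 * j) rfl)
    have h2 := h.N₀_cl (r - 2 * j) _ (M4_shiftpow Y hz j (r - 2 * j) rfl)
    have e : t = r - 2 * j - 2 := by
      rw [ht]
      push_cast
      ring
    have e1 : t - 1 = r - 2 * j - 1 - 2 := by
      rw [e]
      ring
    have e2 : r - 2 * (j : ℤ) - 3 = t - 1 := by
      rw [e]
      ring
    rw [← e1] at h1
    rw [e2, ← e] at h2
    rw [map_sub] at h1
    have h3 := Submodule.add_mem _ h1 h2
    rw [sub_add_sub_cancel] at h3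
    rw [pow_succ', pow_succ']
    exact h3

theorem Fibre.Limit.isMono {q : ℕ} {K H : Type} [Field K] [AddCommGroup H] [Module K H]
    {Y : Fibre q K H} {m : ℤ} {V : Type} [AddCommGroup V] [Module K V] {N₀ N₁ F : Module.End K V}
    {W : ℤ → Submodule K V} {cl : ℤ → (ℕ → H) →ₗ[K] V} (h : Y.Limit m N₀ N₁ F W cl)
    (hinj : ∀ s : ℕ, ∀ z ∈ Y.Z m s, ((Fibre.shift K H) ^ s) z ∈ Y.B m (-s) → z ∈ Y.B m s)
    (hsurj : ∀ s : ℕ, ∀ z ∈ Y.Z m (-s), ∃ u ∈ Y.Z m s,
      z - ((Fibre.shift K H) ^ s) u ∈ Y.B m (-s)) : IsMono N₀ W := by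
  refine ⟨h.W_mono, h.W_bot, h.W_top, h.N₀_mem, ?_, ?_⟩
  · intro s x hx hNx
    obtain ⟨z, hz, hxz⟩ := h.surj s x hx
    have h1 := M4_Npow h.N₀_mem hxz s (-s - 1) (by ring)
    have h2 := M4_pow h hz s (-s) (by ring)
    have h3 : cl (-s) (((Fibre.shift K H) ^ s) z) ∈ W (-s - 1) := by
      have h4 := Submodule.sub_mem _ (Submodule.sub_mem _ hNx h1) h2
      rw [map_sub, sub_sub_cancel, sub_sub_cancel] at h4
      exact h4
    have h5 := (h.ker (-s) _ (M4_shiftpow Y hz s (-s) (by ring))).1 h3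
    have h6 := (h.ker s z hz).2 (hinj s z hz h5)
    have h7 := Submodule.add_mem _ hxz h6
    rw [sub_add_cancel] at h7
    exact h7
  · intro s y hy
    obtain ⟨z, hz, hyz⟩ := h.surj (-s) y hy
    obtain ⟨u, hu, huz⟩ := hsurj s z hz
    refine ⟨cl s u, h.mem s u hu, ?_⟩
    have h1 := M4_pow h hu s (-s) (by ring)
    have h2 := M4_shiftpow Y hu s (-s) (by ring)
    have h3 := (h.ker (-s) _ (Submodule.sub_mem _ hz h2)).2 huz
    have h4 := Submodule.sub_mem _ (Submodule.add_mem _ hyz h3) h1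
    have e : y - (N₀ ^ s) (cl s u) = y - cl (-s) z + cl (-s) (z - ((Fibre.shift K H) ^ s) u) -
        ((N₀ ^ s) (cl s u) - cl (-s) (((Fibre.shift K H) ^ s) u)) := by
      rw [map_sub]
      abel
    rw [e]
    exact h4

end Pool.Agent.ND37
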