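import Pool.Agent.LibND37.Final
import Pool.Agent.LibND37.M3
import Pool.Agent.LibND37.M4

/-!
Weight-monodromy for the fibres near a degenerate fibre.
-/

namespace Pool.Agent.ND37

open Module Polynomial Pool.Agent.WM85 Pool.Agent.LibX1 TensorProduct

/-- Weight-monodromy for the strata in the degrees `m - 1`, `m`, `m + 1` gives weight-monodromy for `N₁ + v N₀`, for all
but finitely many `v`. -/
theorem Fibre.Limit.nearby_hodge {q : ℕ} (hq : 1 < q) {K : Type} [Field K] [Algebra K ℂ] {H : Type}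
    [AddCommGroup H] [Module K H] [FiniteDimensional K H] {Y : Fibre q K H} {n : ℕ}
    {conj : (ℂ ⊗[K] H) →ₛₗ[starRingEnd ℂ] (ℂ ⊗[K] H)}
    {hpq : ℕ → ℕ → ℕ → Submodule ℂ (ℂ ⊗[K] H)} {L : Module.End K H}
    {I : (ℂ ⊗[K] H) →ₗ[ℂ] (ℂ ⊗[K] H) →ₗ[ℂ] ℂ}
    (h : Hodge (fun k j => (Y.gr k j).baseChange ℂ) (Y.rho.baseChange ℂ) (Y.gamma.baseChange ℂ)
      n conj hpq (L.baseChange ℂ) I) {m : ℕ}
    (hY : ∀ k j : ℕ, |(k : ℤ) + j - m| ≤ 1 → WM q j Y.N Y.frob (Y.gr k j))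
    {V : Type} [AddCommGroup V] [Module K V] [FiniteDimensional K V] {N₀ N₁ F : Module.End K V}
    {W : ℤ → Submodule K V} {cl : ℤ → (ℕ → H) →ₗ[K] V} (hV : Y.Limit m N₀ N₁ F W cl) :
    {v : K | ¬ WM q m (N₁ + v • N₀) F ⊤}.Finite :=
  have : CharZero K := (algebraMap K ℂ).charZero
  hV.nearby hq hY (hV.isMono (fun s _ hz hB => Y.shift_inj h m s hz hB)
    (fun s _ hz => Y.shift_surj h m s hz))

end Pool.Agent.ND37
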