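import Pool.Agent.LibND37.Defs

/-! G5 (MEDIUM, easy): the symbols. `Split.toGrading`. `proj_mem`: `mem_iff`, `apply_orth`. `sub_mem`: `mem_iff`: for `j > k - 1`: `j = k` (`apply_idem`), or `j > k` (`π j x = 0` and `apply_orth`).
`zero_of_mem`: `mem_iff` with `j = k`. `symb_mul` is in Defs (`symb * π k = π (k - d) * N * π k`).
`symb_deg`: by `Grading.ext`: multiply on the right by `π l`: for `l = k` both are `π (k - d) * N * π k`, else `0` (`π (k - d) * π (l - d) = 0`).
`symb_wt`: by `Grading.ext`: `symb * p r * π k = symb * π k * p r = π (k-d) * N * π k * p r = π (k-d) * N * p r * π k = π (k-d) * p (r-2) * N * π k = p (r-2) * π (k-d) * N * π k = p (r-2) * symb * π k`.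
`symb_pow`: induction on `j`: `N ^ j x ∈ W (k - j d)` (`proj_mem` for `x = π k x`), `symb (π (k - j d) (N ^ j x)) = π (k - (j+1) d) (N (π (k - j d) (N ^ j x)))` (`symb_mul`), and
`π (k - (j+1) d) (N (y - π (k - j d) y)) = 0` for `y = N ^ j x` (`sub_mem`, `hN`, `zero_of_mem`).
`symb_comm`: by `Grading.ext`: applied to `π k x` both sides are `π (k - 2) (N₀ (N₁ (π k x)))`. -/

namespace Pool.Agent.ND37

open Module Polynomial Pool.Agent.WM85 Pool.Agent.LibX1

variable {K V : Type*} [Field K] [AddCommGroup V] [Module K V]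

section split
variable {b c : ℕ} {W : ℤ → Submodule K V} {π p : ℤ → Module.End K V}

theorem Split.proj_mem (h : Split b W π) (k : ℤ) (x : V) : π k x ∈ W k := by
  rw [h.mem_iff]
  intro j hj
  exact h.toGrading.apply_orth hj.ne' x

theorem Split.sub_mem (h : Split b W π) (k : ℤ) (x : V) (hx : x ∈ W k) :
    x - π k x ∈ W (k - 1) := by
  rw [h.mem_iff]
  intro j hj
  rw [map_sub]
  rcases eq_or_ne j k with rfl | hne
  · rw [h.toGrading.apply_idem, sub_self]
  · rw [h.toGrading.apply_orth hne, (h.mem_iff k x).1 hx j (by omega), sub_zero]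

theorem Split.zero_of_mem (h : Split b W π) (k : ℤ) (x : V) (hx : x ∈ W (k - 1)) : π k x = 0 :=
  (h.mem_iff (k - 1) x).1 hx k (by omega)

theorem symb_deg (h : Grading b π) (d : ℤ) (N : Module.End K V) (k : ℤ) :
    symb b π d N * π k = π (k - d) * symb b π d N := by
  apply h.ext
  intro l
  rcases eq_or_ne l k with rfl | hne
  · rw [mul_assoc (symb b π d N), h.idem, mul_assoc (π (l - d)), symb_mul h, ← mul_assoc (π (l - d)),
      ← mul_assoc (π (l - d)), h.idem]
  · rw [mul_assoc (symb b π d N), h.orth k l (Ne.symm hne), mul_zero, mul_assoc (π (k - d)),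
      symb_mul h, ← mul_assoc (π (k - d)), ← mul_assoc (π (k - d)), h.orth (k - d) (l - d) (by omega),
      zero_mul, zero_mul]

theorem symb_wt (h : Grading b π) (hc : ∀ k r, π k * p r = p r * π k) (d : ℤ)
    {N : Module.End K V} (hN : ∀ r, N * p r = p (r - 2) * N) (r : ℤ) :
    symb b π d N * p r = p (r - 2) * symb b π d N := by
  apply h.ext
  intro k
  calc symb b π d N * p r * π k = symb b π d N * π k * p r := by
        rw [mul_assoc, ← hc k r, ← mul_assoc]
    _ = π (k - d) * N * (π k * p r) := by rw [symb_mul h, mul_assoc]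
    _ = π (k - d) * (N * p r) * π k := by rw [hc k r]; simp only [mul_assoc]
    _ = (π (k - d) * p (r - 2)) * N * π k := by rw [hN r]; simp only [mul_assoc]
    _ = p (r - 2) * (π (k - d) * N * π k) := by rw [hc (k - d) (r - 2)]; simp only [mul_assoc]
    _ = p (r - 2) * symb b π d N * π k := by rw [← symb_mul h, mul_assoc]

private theorem G5_key (h : Split b W π) {d : ℤ} {N : Module.End K V}
    (hN : ∀ k, ∀ x ∈ W k, N x ∈ W (k - d)) {l : ℤ} {y : V} (hy : y ∈ W l) :
    symb b π d N (π l y) = π (l - d) (N y) := by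
  have h1 : symb b π d N (π l y) = π (l - d) (N (π l y)) := by
    have h2 := LinearMap.congr_fun (symb_mul h.toGrading d N l) y
    simpa only [Module.End.mul_apply] using h2
  have h3 : π (l - d) (N (y - π l y)) = 0 := by
    apply h.zero_of_mem
    have h4 := hN _ _ (h.sub_mem l y hy)
    have h5 : l - 1 - d = l - d - 1 := by ring
    rwa [h5] at h4
  rw [map_sub, map_sub, sub_eq_zero] at h3
  rw [h1, h3]

theorem symb_pow (h : Split b W π) {d : ℤ} {N : Module.End K V}
    (hN : ∀ k, ∀ x ∈ W k, N x ∈ W (k - d)) (j : ℕ) (k : ℤ) (x : V) (hx : π k x = x) :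
    ((symb b π d N) ^ j) x = π (k - j * d) ((N ^ j) x) := by
  have hxk : x ∈ W k := by
    rw [← hx]
    exact h.proj_mem k x
  have hpow : ∀ j : ℕ, (N ^ j) x ∈ W (k - j * d) := by
    intro j
    induction j with
    | zero => simpa using hxk
    | succ j ih =>
      rw [pow_succ', Module.End.mul_apply]
      have h1 := hN _ _ ih
      have h2 : k - (j : ℤ) * d - d = k - ((j + 1 : ℕ) : ℤ) * d := by push_cast; ring
      rwa [h2] at h1
  induction j with
  | zero => simp [hx]
  | succ j ih =>
    rw [pow_succ', Module.End.mul_apply, ih, G5_key h hN (hpow j), pow_succ', Module.End.mul_apply]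
    have h2 : k - (j : ℤ) * d - d = k - ((j + 1 : ℕ) : ℤ) * d := by push_cast; ring
    rw [h2]

theorem symb_comm (h : Split b W π) {N₀ N₁ : Module.End K V}
    (h0 : ∀ k, ∀ x ∈ W k, N₀ x ∈ W (k - 2)) (h1 : ∀ k, ∀ x ∈ W k, N₁ x ∈ W (k - 0))
    (hc : N₀ * N₁ = N₁ * N₀) :
    symb b π 2 N₀ * symb b π 0 N₁ = symb b π 0 N₁ * symb b π 2 N₀ := by
  apply h.toGrading.ext
  intro k
  ext x
  have hy : π k x ∈ W k := h.proj_mem k x
  have hyy : π k (π k x) = π k x := h.toGrading.apply_idem k x
  simp only [Module.End.mul_apply]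
  have e1 : symb b π 0 N₁ (π k x) = π k (N₁ (π k x)) := by
    have h2 := G5_key h h1 hy
    rw [hyy, sub_zero] at h2
    exact h2
  have m1 : N₁ (π k x) ∈ W k := by
    have h2 := h1 k _ hy
    rwa [sub_zero] at h2
  have e2 : symb b π 2 N₀ (π k x) = π (k - 2) (N₀ (π k x)) := by
    have h2 := G5_key h h0 hy
    rwa [hyy] at h2
  have e3 := G5_key h h0 m1
  have e4 := G5_key h h1 (h0 k _ hy)
  rw [sub_zero] at e4
  rw [e1, e3, e2, e4, ← Module.End.mul_apply N₀, hc, Module.End.mul_apply]

end split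

end Pool.Agent.ND37
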