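import Pool.Agent.LibND37.Hodge
import Pool.Agent.LibHL10.Final

/-! M1 (MEDIUM, easy): an artificial Frobenius. `frob'` is multiplication by `2 ^ j` on `gr k j` (`Pool.Agent.LibLS20.exists_glue'` in LibLS20/Base.lean with `ι = ℕ × ℕ` and
`φ (k, j) = (2 ^ j : K) • LinearMap.id`; `choose`/`obtain` it first). `Y' : Strata 4 K H` with the spaces and maps of `Y` and `frob'`: `frob_rho`, `frob_gamma` by `ext_glue'` (same file; `frob_gamma` on
`gr (k + 1) j`: `2 ^ (j + 2) = 4 * 2 ^ j`; on `gr 0 j` both sides are `0` by `gamma_zero`). `pure`: `R = X - C (2 ^ j)`, its only complex root `2 ^ j` has `‖2 ^ j‖ ^ 2 = 4 ^ j`.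
`HodgeTheory` (LibLS20/Stmt.lean) for `Y'.baseChange` (LibLS20/Base85.lean; its `gr`, `rho`, `gamma` are the base changes of those of `Y'`): every field is the field of `Hodge` with the same name. -/

namespace Pool.Agent.ND37

open Module Polynomial Pool.Agent.WM85 Pool.Agent.LibX1 TensorProduct

theorem Fibre.exists_strata {q : ℕ} {K : Type} [Field K] [Algebra K ℂ] {H : Type}
    [AddCommGroup H] [Module K H] (Y : Fibre q K H) {n : ℕ}
    {conj : (ℂ ⊗[K] H) →ₛₗ[starRingEnd ℂ] (ℂ ⊗[K] H)}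
    {hpq : ℕ → ℕ → ℕ → Submodule ℂ (ℂ ⊗[K] H)} {L : Module.End K H}
    {I : (ℂ ⊗[K] H) →ₗ[ℂ] (ℂ ⊗[K] H) →ₗ[ℂ] ℂ}
    (h : Hodge (fun k j => (Y.gr k j).baseChange ℂ) (Y.rho.baseChange ℂ) (Y.gamma.baseChange ℂ)
      n conj hpq (L.baseChange ℂ) I) :
    ∃ Y' : Strata 4 K H, Y'.gr = Y.gr ∧ Y'.rho = Y.rho ∧ Y'.gamma = Y.gamma ∧
      LibLS20.HodgeTheory Y'.baseChange n conj hpq (L.baseChange ℂ) I := by
  obtain ⟨fr, hfr⟩ := Pool.Agent.LibLS20.exists_glue' Y.internal
    (fun p : ℕ × ℕ => ((2 : K) ^ p.2) • (LinearMap.id : H →ₗ[K] H))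
  have hfr' : ∀ k j, ∀ x ∈ Y.gr k j, fr x = (2 : K) ^ j • x := fun k j x hx => by
    rw [hfr (k, j) x hx, LinearMap.smul_apply, LinearMap.id_apply]
  have hrho : fr ∘ₗ Y.rho = Y.rho ∘ₗ fr := by
    refine Pool.Agent.LibLS20.ext_glue' Y.internal ?_
    rintro ⟨k, j⟩ x hx
    rw [LinearMap.comp_apply, LinearMap.comp_apply, hfr' k j x hx,
      hfr' (k + 1) j _ (Y.rho_mem k j x hx), map_smul]
  have hgam : fr ∘ₗ Y.gamma = ((4 : ℕ) : K) • (Y.gamma ∘ₗ fr) := by
    refine Pool.Agent.LibLS20.ext_glue' Y.internal ?_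
    rintro ⟨k, j⟩ x hx
    rw [LinearMap.smul_apply, LinearMap.comp_apply, LinearMap.comp_apply]
    rcases k with _ | k
    · rw [hfr' 0 j x hx, map_smul, Y.gamma_zero j x hx, map_zero, smul_zero, smul_zero]
    · rw [hfr' (k + 1) j x hx, hfr' k (j + 2) _ (Y.gamma_mem k j x hx), map_smul, smul_smul]
      congr 1
      push_cast
      ring
  let Y' : Strata 4 K H :=
    { gr := Y.gr
      rho := Y.rho
      gamma := Y.gamma
      frob := fr
      internal := Y.internal
      rho_mem := Y.rho_mem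
      gamma_mem := Y.gamma_mem
      frob_mem := fun k j x hx => by
        rw [hfr' k j x hx]
        exact Submodule.smul_mem _ _ hx
      rho_rho := Y.rho_rho
      gamma_gamma := Y.gamma_gamma
      anti := Y.anti
      frob_rho := fun x => LinearMap.congr_fun hrho x
      frob_gamma := fun x => LinearMap.congr_fun hgam x
      pure := fun k j => by
        refine ⟨X - C (2 ^ j), ⟨X_sub_C_ne_zero _, ?_⟩, ?_⟩
        · intro z hz
          rw [map_sub, aeval_X, aeval_C, sub_eq_zero] at hz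
          rw [hz]
          simp only [map_pow, map_ofNat, norm_pow, Complex.norm_ofNat, Nat.cast_ofNat,
            zpow_natCast]
          rw [← pow_mul, mul_comm j 2, pow_mul]
          norm_num
        · intro x hx
          rw [map_sub, aeval_X, aeval_C, LinearMap.sub_apply, hfr' k j x hx,
            Module.algebraMap_end_apply, sub_eq_zero]
          rw [← algebraMap_smul K ((2 : ℤ) ^ j) x]
          simp }
  exact ⟨Y', rfl, rfl, rfl,
    { conj_conj := h.conj_conj
      conj_rho := h.conj_rho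
      conj_gamma := h.conj_gamma
      conj_L := h.conj_L
      hodge := h.hodge
      hodge_gr := h.hodge_gr
      hodge_conj := h.hodge_conj
      hodge_rho := h.hodge_rho
      hodge_gamma := h.hodge_gamma
      hodge_L := h.hodge_L
      hodge_dim := h.hodge_dim
      gamma_zero := h.gamma_zero
      L_rho := h.L_rho
      L_gamma := h.L_gamma
      I_type := h.I_type
      I_L := h.I_L
      I_gamma := h.I_gamma
      I_symm := h.I_symm
      hard_inj := h.hard_inj
      hard_surj := h.hard_surj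
      riemann := h.riemann }⟩

end Pool.Agent.ND37
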