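import Pool.Agent.LibND37.Defs

/-! R1 (SHORT/MEDIUM): sl2. `e f - f e = r` on `G r`, `e` raises, `f` lowers the degree by two, degrees bounded above.
`sl2_inj`: by induction on `i ≤ r`: `f ^ i` is injective on `G r`. `e (f ^ (i+1) x) = f ^ i (f (e x) + ((i+1)(r-i)) x)` for `x ∈ G r` (induction on `i`; `f ^ j x ∈ G (r - 2 j)`).
So `f ^ (i+1) x = 0`, `i < r`, gives `f (e x) = - c x` with `c = (i+1)(r-i) > 0` (induction hypothesis). Then, by induction on `j`:
`f (e ^ (j+1) x) = - (c + j (r+j+1)) e ^ j x` (use `e (f y) - f (e y) = (r+2j+2) y` for `y = e ^ (j+1) x`), so `e ^ j x = 0` implies ... downwards: `e ^ j x = 0` for large `j`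
(degree above `b`), and `e ^ (j+1) x = 0` implies `e ^ j x = 0` since the factor is not zero (a positive integer, characteristic 0). Hence `x = 0`.
`sl2_finrank`: `f ^ r : G r → G (-r)` is injective, so `finrank (G r) ≤ finrank (G (-r))`; apply the same to `(f, e)` and the grading `r ↦ G (-r)` for the other inequality. -/

namespace Pool.Agent.ND37

open Module Polynomial Pool.Agent.WM85 Pool.Agent.LibX1

variable {K V : Type*} [Field K] [AddCommGroup V] [Module K V]

private theorem R1_fpow {f : Module.End K V} {G : ℤ → Submodule K V}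
    (hf : ∀ r, ∀ x ∈ G r, f x ∈ G (r - 2)) (i : ℕ) {r : ℤ} {x : V} (hx : x ∈ G r) :
    (f ^ i) x ∈ G (r - 2 * i) := by
  induction i with
  | zero => simpa using hx
  | succ i ih =>
    rw [pow_succ', Module.End.mul_apply]
    have h1 := hf _ _ ih
    have h2 : r - 2 * (i : ℤ) - 2 = r - 2 * ((i + 1 : ℕ) : ℤ) := by push_cast; ring
    rwa [h2] at h1

private theorem R1_epow {e : Module.End K V} {G : ℤ → Submodule K V}
    (he : ∀ r, ∀ x ∈ G r, e x ∈ G (r + 2)) (i : ℕ) {r : ℤ} {x : V} (hx : x ∈ G r) :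
    (e ^ i) x ∈ G (r + 2 * i) := by
  induction i with
  | zero => simpa using hx
  | succ i ih =>
    rw [pow_succ', Module.End.mul_apply]
    have h1 := he _ _ ih
    have h2 : r + 2 * (i : ℤ) + 2 = r + 2 * ((i + 1 : ℕ) : ℤ) := by push_cast; ring
    rwa [h2] at h1

private theorem R1_comm {e f : Module.End K V} {G : ℤ → Submodule K V}
    (hf : ∀ r, ∀ x ∈ G r, f x ∈ G (r - 2))
    (hef : ∀ r : ℤ, ∀ x ∈ G r, e (f x) - f (e x) = (r : K) • x) (i : ℕ) {r : ℤ} {x : V}
    (hx : x ∈ G r) :
    e ((f ^ (i + 1)) x) = (f ^ (i + 1)) (e x) + (((i : K) + 1) * ((r : K) - i)) • (f ^ i) x := by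
  induction i with
  | zero =>
    have h1 := hef r x hx
    rw [sub_eq_iff_eq_add] at h1
    simp only [zero_add, pow_one, pow_zero, Module.End.one_apply, Nat.cast_zero, sub_zero, one_mul]
    rw [h1, add_comm]
  | succ i ih =>
    have hy := R1_fpow hf (i + 1) hx
    have h1 := hef _ _ hy
    rw [sub_eq_iff_eq_add] at h1
    rw [pow_succ' f (i + 1), Module.End.mul_apply, h1, ih, map_add, map_smul,
      ← Module.End.mul_apply f (f ^ i), ← pow_succ', Module.End.mul_apply f (f ^ (i + 1))]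
    have h2 : (((i + 1 : ℕ) : K) + 1) * ((r : K) - ((i + 1 : ℕ) : K)) =
        ((r - 2 * ((i + 1 : ℕ) : ℤ) : ℤ) : K) + ((i : K) + 1) * ((r : K) - i) := by
      push_cast
      ring
    rw [h2, add_smul]
    abel

private theorem R1_le [FiniteDimensional K V] {f : Module.End K V}
    {G : ℤ → Submodule K V}
    (hf : ∀ r, ∀ x ∈ G r, f x ∈ G (r - 2))
    (hinj : ∀ (r : ℕ) (x : V), x ∈ G r → (f ^ r) x = 0 → x = 0) (r : ℕ) :
    finrank K (G r) ≤ finrank K (G (-r)) := by
  have h1 : ∀ x ∈ G r, (f ^ r) x ∈ G (-(r : ℤ)) := by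
    intro x hx
    have h2 := R1_fpow hf r hx
    have h3 : (r : ℤ) - 2 * r = -(r : ℤ) := by ring
    rwa [h3] at h2
  refine LinearMap.finrank_le_finrank_of_injective (f := (f ^ r).restrict h1) ?_
  rw [← LinearMap.ker_eq_bot, LinearMap.ker_eq_bot']
  rintro ⟨x, hx⟩ h2
  have h3 := congrArg Subtype.val h2
  rw [LinearMap.coe_restrict_apply] at h3
  exact Subtype.ext (hinj r x hx h3)

theorem sl2_inj [CharZero K] {e f : Module.End K V} {G : ℤ → Submodule K V}
    (he : ∀ r, ∀ x ∈ G r, e x ∈ G (r + 2)) (hf : ∀ r, ∀ x ∈ G r, f x ∈ G (r - 2))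
    (hef : ∀ r : ℤ, ∀ x ∈ G r, e (f x) - f (e x) = (r : K) • x) {b : ℤ}
    (hb : ∀ r, b < r → G r = ⊥) (r : ℕ) (x : V) (hx : x ∈ G r) (h0 : (f ^ r) x = 0) : x = 0 := by
  suffices h : ∀ i : ℕ, i ≤ r → ∀ x ∈ G r, (f ^ i) x = 0 → x = 0 from h r le_rfl x hx h0
  clear hx h0 x
  intro i
  induction i with
  | zero =>
    intro _ x _ h
    simpa using h
  | succ i ih =>
    intro hi x hx h
    have h1 := R1_comm hf hef i hx
    rw [h, map_zero, pow_succ, Module.End.mul_apply, ← map_smul, ← map_add] at h1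
    have h2 : f (e x) + (((i : K) + 1) * (((r : ℤ) : K) - i)) • x = 0 := by
      refine ih (by omega) _ ?_ h1.symm
      refine Submodule.add_mem _ ?_ (Submodule.smul_mem _ _ hx)
      have h3 := hf _ _ (he _ _ hx)
      rwa [add_sub_cancel_right] at h3
    obtain ⟨c, hc⟩ : ∃ c : ℕ, c = (i + 1) * (r - i) := ⟨_, rfl⟩
    have hc0 : 0 < c := by
      rw [hc]
      exact Nat.mul_pos (by omega) (by omega)
    have hcK : ((i : K) + 1) * (((r : ℤ) : K) - i) = (c : K) := by
      rw [hc, Nat.cast_mul, Nat.cast_sub (by omega)]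
      push_cast
      ring
    rw [hcK] at h2
    have key : ∀ j : ℕ, f ((e ^ (j + 1)) x) = -(((c + j * (r + j + 1) : ℕ) : K) • (e ^ j) x) := by
      intro j
      induction j with
      | zero =>
        simp only [zero_add, pow_one, pow_zero, Module.End.one_apply, zero_mul, add_zero]
        exact eq_neg_of_add_eq_zero_left h2
      | succ j ihj =>
        have h4 := hef _ _ (R1_epow he (j + 1) hx)
        rw [ihj] at h4
        rw [pow_succ' e (j + 1), Module.End.mul_apply]
        have h5 : f (e ((e ^ (j + 1)) x)) =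
            e (-(((c + j * (r + j + 1) : ℕ) : K) • (e ^ j) x)) -
              (((r : ℤ) + 2 * ((j + 1 : ℕ) : ℤ) : ℤ) : K) • (e ^ (j + 1)) x := by
          rw [← h4]
          abel
        rw [h5, map_neg, map_smul, ← Module.End.mul_apply e (e ^ j), ← pow_succ',
          ← neg_add', ← add_smul]
        congr 2
        push_cast
        ring
    have hdown : ∀ j : ℕ, (e ^ j) x = 0 → x = 0 := by
      intro j
      induction j with
      | zero => intro h6; simpa using h6
      | succ j ihj =>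
        intro h6
        have h7 := key j
        rw [h6, map_zero, eq_comm, neg_eq_zero, smul_eq_zero] at h7
        rcases h7 with h7 | h7
        · exfalso
          have h8 : c + j * (r + j + 1) = 0 := by exact_mod_cast h7
          omega
        · exact ihj h7
    refine hdown (b.toNat + 1) ?_
    have h6 := R1_epow he (b.toNat + 1) hx
    rw [hb _ (by push_cast; omega), Submodule.mem_bot] at h6
    exact h6

theorem sl2_finrank [CharZero K] [FiniteDimensional K V] {e f : Module.End K V}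
    {G : ℤ → Submodule K V}
    (he : ∀ r, ∀ x ∈ G r, e x ∈ G (r + 2)) (hf : ∀ r, ∀ x ∈ G r, f x ∈ G (r - 2))
    (hef : ∀ r : ℤ, ∀ x ∈ G r, e (f x) - f (e x) = (r : K) • x) {b : ℤ}
    (hb : ∀ r, b < |r| → G r = ⊥) (r : ℕ) : finrank K (G r) = finrank K (G (-r)) := by
  refine le_antisymm (R1_le hf (fun r x hx h0 => sl2_inj he hf hef (b := b)
    (fun s hs => hb s (hs.trans_le (le_abs_self s))) r x hx h0) r) ?_
  have he' : ∀ s, ∀ x ∈ G (-s), f x ∈ G (-(s + 2)) := by
    intro s x hx
    have h1 := hf _ _ hx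
    have h2 : -s - 2 = -(s + 2) := by ring
    rwa [h2] at h1
  have hf' : ∀ s, ∀ x ∈ G (-s), e x ∈ G (-(s - 2)) := by
    intro s x hx
    have h1 := he _ _ hx
    have h2 : -s + 2 = -(s - 2) := by ring
    rwa [h2] at h1
  have hef' : ∀ s : ℤ, ∀ x ∈ G (-s), f (e x) - e (f x) = (s : K) • x := by
    intro s x hx
    have h1 := hef _ _ hx
    rw [← neg_sub, h1]
    push_cast
    rw [neg_smul, neg_neg]
  have h := R1_le (G := fun s => G (-s)) (f := e) hf' (fun r x hx h0 => sl2_inj
    (G := fun s => G (-s)) he' hf' hef' (b := b)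
    (fun s hs => hb (-s) (by rw [abs_neg]; exact hs.trans_le (le_abs_self s))) r x hx h0) r
  have h' : finrank K (G (-(r : ℤ))) ≤ finrank K (G (- -(r : ℤ))) := h
  rwa [neg_neg] at h'

end Pool.Agent.ND37
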