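import Pool.Agent.LibND37.Defs

/-! R2 (MEDIUM): existence of `e` with `[e, n] = h`, `h = ∑ k π k`, by the trace form.
Consider the linear map `T : End V → End V`, `T e = e * n - n * e`. If `h ∉ range T` there is a linear functional `φ` on `End V` with `φ = 0` on `range T`, `φ h ≠ 0`
(`Submodule.exists_le_ker_of_notMem` or `Submodule.exists_dual_map_eq_bot_of_notMem`). Every functional on `End V` is `X ↦ tr (X * A)` (the trace form is nondegenerate:
`LinearMap.trace`; either `Matrix.traceForm`/`LinearMap.BilinForm` lemmas, or by hand with matrices: `LinearMap.toMatrix`, `Matrix.ext_iff_trace_mul_left`; the map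
`A ↦ (X ↦ tr (X * A))` from `End V` to its dual is injective, so surjective by `finrank` = `Subspace.dual_finrank_eq`).
`tr ((e n - n e) A) = tr (e (n A - A n)) = 0` for all `e`, so `n A = A n`.
For `k > 0`: `tr (π k * A) = tr (π (-k) * A)`: there is `L ∈ End V` with `L * n ^ k * π k = π k` and `n ^ k * π k * L = π (-k)` (`hn.inj`, `hn.surj`: `n ^ k` is bijective from
`range (π k)` to `range (π (-k))`; `L` is its inverse composed with `π (-k)`), `n ^ k * π k = π (-k) * n ^ k` (`pow_deg`), so
`tr (π k A) = tr (L n^k π k A) = tr (n^k π k A L)`; use `π k A` inside: `tr (π k * A) = tr (π k * A * π k)`, ... `= tr (π (-k) * A * n ^ k * π k * L) = tr (π (-k) * A * π (-k)) = tr (π (-k) * A)`.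
So `tr (h A) = ∑ k tr (π k A) = 0` (pair `k` and `-k` in `Icc (-b) b`: `Finset.sum_bij`/`Finset.sum_nbij` with `k ↦ -k` shows `S = -S`... careful in characteristic 2: pair the
summands for `k > 0` and `k < 0` instead; or write `2`-free: split `Icc (-b) b` into negative, zero and positive part). Contradiction with `φ h ≠ 0`.
(You may add the hypothesis `[CharZero K]` if this helps, the application has it.) -/

namespace Pool.Agent.ND37

open Module Polynomial Pool.Agent.WM85 Pool.Agent.LibX1

variable {K V : Type*} [Field K] [AddCommGroup V] [Module K V]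

private theorem tr_nd [FiniteDimensional K V] {A : Module.End K V}
    (hA : ∀ X : Module.End K V, LinearMap.trace K V (X * A) = 0) : A = 0 := by
  ext v
  rw [LinearMap.zero_apply, ← Module.forall_dual_apply_eq_zero_iff K]
  intro f
  have h1 := hA (f.smulRight v)
  have h2 : (f.smulRight v : Module.End K V) * A = (f ∘ₗ A).smulRight v := by
    ext w
    simp [Module.End.mul_apply]
  rw [h2, LinearMap.trace_smulRight] at h1
  simpa using h1

private theorem tr_rep [FiniteDimensional K V] (φ : Module.End K V →ₗ[K] K) :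
    ∃ A : Module.End K V, ∀ X : Module.End K V, φ X = LinearMap.trace K V (X * A) := by
  let Ψ : Module.End K V →ₗ[K] Dual K (Module.End K V) :=
    LinearMap.mk₂ K (fun A X => LinearMap.trace K V (X * A))
      (by intro a b c; rw [mul_add, map_add])
      (by intro c a b; rw [mul_smul_comm, map_smul])
      (by intro a b c; rw [add_mul, map_add])
      (by intro c a b; rw [smul_mul_assoc, map_smul])
  have hinj : Function.Injective Ψ := by
    rw [← LinearMap.ker_eq_bot, LinearMap.ker_eq_bot']
    intro A hA
    apply tr_nd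
    intro X
    exact LinearMap.congr_fun hA X
  have hsurj : Function.Surjective Ψ :=
    (LinearMap.injective_iff_surjective_of_finrank_eq_finrank
      (Subspace.dual_finrank_eq).symm).1 hinj
  obtain ⟨A, hA⟩ := hsurj φ
  exact ⟨A, fun X => (LinearMap.congr_fun hA X).symm⟩

private theorem tr_pair [FiniteDimensional K V] {b : ℕ} {π : ℤ → Module.End K V}
    (h : Grading b π) {n : Module.End K V} (hn : Lef π n) {A : Module.End K V}
    (hA : n * A = A * n) (k : ℕ) :
    LinearMap.trace K V (π k * A) = LinearMap.trace K V (π (-k) * A) := by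
  have hdeg : n ^ k * π k = π (-k) * n ^ k := by
    have := pow_deg hn.deg k (k : ℤ)
    rw [this]
    congr 2
    ring
  have hAk : n ^ k * A = A * n ^ k := by
    have hc : Commute n A := hA
    exact (hc.pow_left k).eq
  let P : Submodule K V := LinearMap.range (π (k : ℤ))
  let Q : Submodule K V := LinearMap.range (π (-(k : ℤ)))
  have hP : ∀ x ∈ P, π (k : ℤ) x = x := by
    rintro x ⟨y, rfl⟩
    exact h.apply_idem _ y
  have hQ : ∀ x ∈ Q, π (-(k : ℤ)) x = x := by
    rintro x ⟨y, rfl⟩
    exact h.apply_idem _ y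
  have hPQ : ∀ x ∈ P, (n ^ k) x ∈ Q := by
    intro x hx
    refine ⟨(n ^ k) x, ?_⟩
    have h1 := LinearMap.congr_fun hdeg x
    rw [Module.End.mul_apply, Module.End.mul_apply, hP x hx] at h1
    exact h1.symm
  let r : P →ₗ[K] Q := (n ^ k).restrict hPQ
  have hr : Function.Bijective r := by
    constructor
    · rw [← LinearMap.ker_eq_bot, LinearMap.ker_eq_bot']
      intro x hx
      have h1 : (n ^ k) (x : V) = 0 := by
        have := congrArg (fun z : Q => (z : V)) hx
        simpa [r] using this
      have h2 := hn.inj k (x : V) (hP _ x.2) h1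
      exact Subtype.ext h2
    · intro y
      obtain ⟨x, hx1, hx2⟩ := hn.surj k (y : V) (hQ _ y.2)
      refine ⟨⟨x, ⟨x, hx1⟩⟩, Subtype.ext ?_⟩
      exact hx2
  let e : P ≃ₗ[K] Q := LinearEquiv.ofBijective r hr
  let L : Module.End K V :=
    P.subtype ∘ₗ (e.symm : Q →ₗ[K] P) ∘ₗ
      (π (-(k : ℤ))).codRestrict Q (fun c => LinearMap.mem_range_self _ c)
  have he : ∀ x : P, ((e x : Q) : V) = (n ^ k) (x : V) := fun x => rfl
  have hL1 : L * (n ^ k * π k) = π k := by
    ext x
    rw [Module.End.mul_apply]
    have h1 : (π (-(k : ℤ))).codRestrict Q (fun c => LinearMap.mem_range_self _ c)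
        ((n ^ k * π k) x) = e ⟨π k x, LinearMap.mem_range_self _ x⟩ := by
      apply Subtype.ext
      rw [he]
      change π (-(k : ℤ)) ((n ^ k * π k) x) = (n ^ k) (π k x)
      have h2 : (n ^ k * π k) x = (n ^ k) (π k x) := Module.End.mul_apply _ _ _
      rw [h2]
      exact hQ _ (hPQ _ (LinearMap.mem_range_self _ x))
    change ((e.symm ((π (-(k : ℤ))).codRestrict Q (fun c => LinearMap.mem_range_self _ c)
        ((n ^ k * π k) x)) : P) : V) = π k x
    rw [h1, LinearEquiv.symm_apply_apply]
  have hL2 : (n ^ k * π k) * L = π (-k) := by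
    ext y
    rw [Module.End.mul_apply, Module.End.mul_apply]
    have h1 : L y ∈ P := (e.symm _).2
    rw [hP _ h1]
    have h2 : (n ^ k) (L y) = ((e (e.symm ((π (-(k : ℤ))).codRestrict Q
        (fun c => LinearMap.mem_range_self _ c) y)) : Q) : V) := rfl
    rw [h2, LinearEquiv.apply_symm_apply]
    rfl
  have c1 : LinearMap.trace K V (π k * A) = LinearMap.trace K V (π k * A * π k) := by
    rw [LinearMap.trace_mul_comm K (π k * A) (π k), ← mul_assoc, h.idem]
  have c2 : LinearMap.trace K V (π (-k) * A) = LinearMap.trace K V (π (-k) * A * π (-k)) := by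
    rw [LinearMap.trace_mul_comm K (π (-k) * A) (π (-k)), ← mul_assoc, h.idem]
  have c3 : π k * A * π k = L * (n ^ k * π k * A * π k) := by
    rw [← mul_assoc, ← mul_assoc, hL1]
  have c4 : (n ^ k * π k * A * π k) * L = π (-k) * A * π (-k) := by
    calc (n ^ k * π k * A * π k) * L = π (-k) * (n ^ k * A) * π k * L := by
          rw [hdeg]; simp only [mul_assoc]
      _ = π (-k) * A * (n ^ k * π k * L) := by rw [hAk]; simp only [mul_assoc]
      _ = π (-k) * A * π (-k) := by rw [hL2]
  rw [c1, c2, c3, LinearMap.trace_mul_comm K L, c4]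

theorem exists_e [CharZero K] [FiniteDimensional K V] {b : ℕ} {π : ℤ → Module.End K V}
    (h : Grading b π) {n : Module.End K V} (hn : Lef π n) :
    ∃ e : Module.End K V, e * n - n * e = ∑ k ∈ Finset.Icc (-(b : ℤ)) b, (k : K) • π k := by
  by_contra hcon
  push Not at hcon
  let T : Module.End K V →ₗ[K] Module.End K V :=
    { toFun := fun e => e * n - n * e
      map_add' := by intro x y; rw [add_mul, mul_add]; abel
      map_smul' := by
        intro c x
        rw [smul_mul_assoc, mul_smul_comm, RingHom.id_apply, smul_sub] }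
  set H : Module.End K V := ∑ k ∈ Finset.Icc (-(b : ℤ)) b, (k : K) • π k with hH
  have hnot : H ∉ LinearMap.range T := by
    rintro ⟨e, he⟩
    exact hcon e he
  obtain ⟨φ, hφ1, hφ2⟩ := Submodule.exists_le_ker_of_notMem hnot
  obtain ⟨A, hAφ⟩ := tr_rep φ
  have hA : n * A = A * n := by
    rw [← sub_eq_zero]
    apply tr_nd
    intro X
    have h1 : φ (X * n - n * X) = 0 := hφ2 ⟨X, rfl⟩
    rw [hAφ, sub_mul, map_sub] at h1
    rw [mul_sub, map_sub, ← mul_assoc, ← mul_assoc, LinearMap.trace_mul_comm K (X * A) n,
      ← mul_assoc]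
    exact h1
  have hsym : ∀ k : ℤ, LinearMap.trace K V (π (-k) * A) = LinearMap.trace K V (π k * A) := by
    intro k
    obtain ⟨m, rfl | rfl⟩ := k.eq_nat_or_neg
    · exact (tr_pair h hn hA m).symm
    · rw [neg_neg]
      exact tr_pair h hn hA m
  apply hφ1
  rw [hAφ, hH, Finset.sum_mul, map_sum]
  have h1 : ∀ k : ℤ, LinearMap.trace K V ((k : K) • π k * A) =
      (k : K) * LinearMap.trace K V (π k * A) := by
    intro k
    rw [smul_mul_assoc, map_smul, smul_eq_mul]
  simp only [h1]
  set S : K := ∑ k ∈ Finset.Icc (-(b : ℤ)) b, (k : K) * LinearMap.trace K V (π k * A) with hS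
  have h2 : S = -S := by
    have h3 : S = ∑ k ∈ Finset.Icc (-(b : ℤ)) b,
        ((-k : ℤ) : K) * LinearMap.trace K V (π (-k) * A) := by
      rw [hS]
      refine Finset.sum_nbij' (fun k => -k) (fun k => -k) ?_ ?_ ?_ ?_ ?_
      · intro k hk
        simp only [Finset.mem_Icc] at hk ⊢
        constructor <;> linarith [hk.1, hk.2]
      · intro k hk
        simp only [Finset.mem_Icc] at hk ⊢
        constructor <;> linarith [hk.1, hk.2]
      · intro k _; exact neg_neg k
      · intro k _; exact neg_neg k
      · intro k _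
        rw [neg_neg]
    refine h3.trans ?_
    rw [hS, ← Finset.sum_neg_distrib]
    apply Finset.sum_congr rfl
    intro k _
    rw [hsym k]
    push_cast
    ring
  have h4 : (2 : K) * S = 0 := by linear_combination h2
  rcases mul_eq_zero.1 h4 with h5 | h5
  · exact absurd h5 two_ne_zero
  · exact h5

end Pool.Agent.ND37
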