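import Pool.Agent.LibND37.R2

/-! R3 (MEDIUM): uniqueness and the sl2-triple.
`uniq`: by downward induction on `k ≥ 0`: `δ x = 0` for `π k x = x`. Above `b` clear (`x = 0`, `Grading.zero`). For `x` of degree `k ≥ 0`: `n ^ (k+1) x` has degree `-(k+2)`
(`pow_deg`), so it is `n ^ (k+2) y` with `y` of degree `k + 2` (`hn.surj (k+2)`); `p = x - n y` is of degree `k`, `n ^ (k+1) p = 0`; `δ p` has degree `k + 2`,
`n ^ (k+2) (δ p) = δ (n ^ (k+2) p) = 0`, so `δ p = 0` (`hn.inj (k+2)`); `δ (n y) = n (δ y) = 0` by induction. For `x` of degree `-k`, `k ≥ 0`: `x = n ^ k y`, `y` of degree `k`,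
`δ x = n ^ k (δ y) = 0`. Then `δ = 0` by `Grading.sum_apply` (or `Grading.ext`): `π k x` has degree `k` (`Grading.apply_idem`).
`exists_sl2`: take `e'` from `exists_e` and `e = ∑ k ∈ Icc, π (k + 2) * e' * π k` (as in `symb`; `e * π k = π (k + 2) * e' * π k` by `Grading.sum_mul`).
`e * π k = π (k + 2) * e`: by `Grading.ext` (multiply on the right by `π l`: both sides are `0` for `l ≠ k`). `(e * n - n * e) * π k = π k * (e' * n - n * e') * π k = k • π k`, since
`e * n * π k = e * π (k - 2) * n = π k * e' * π (k - 2) * n = π k * e' * n * π k` and `n * e * π k = n * π (k + 2) * e' * π k = π k * n * e' * π k`, and the given sum times `π k` is `k • π k`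
(`Grading.sum_mul` with `f k = (k : K) • 1`). Last part: `δ = c * e - e * c` satisfies `δ * π k = π (k + 2) * δ`, and `δ * n = n * δ`: by `Grading.ext`, since `c` commutes with
`n` and with `e * n - n * e` (check on `π k`: `(e * n - n * e) * π k = k • π k`, `c` commutes with `π k`). So `δ = 0` by `uniq`. -/

namespace Pool.Agent.ND37

open Module Polynomial Pool.Agent.WM85 Pool.Agent.LibX1

variable {K V : Type*} [Field K] [AddCommGroup V] [Module K V]

private theorem uniq_nonneg {b : ℕ} {π : ℤ → Module.End K V} (h : Grading b π)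
    {n : Module.End K V} (hn : Lef π n) {δ : Module.End K V}
    (hδ : ∀ k, δ * π k = π (k + 2) * δ) (hc : δ * n = n * δ) (m : ℕ) :
    ∀ k : ℕ, b + 1 ≤ k + m → ∀ x, π (k : ℤ) x = x → δ x = 0 := by
  have hpc : ∀ j : ℕ, ∀ x, δ ((n ^ j) x) = (n ^ j) (δ x) := by
    intro j x
    have h1 : Commute δ (n ^ j) := Commute.pow_right hc j
    have h2 := congrArg (fun f : Module.End K V => f x) h1.eq
    simpa using h2
  induction m with
  | zero =>
    intro k hk x hx
    have hz : π (k : ℤ) = 0 := by
      apply h.zero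
      rw [Finset.mem_Icc]
      omega
    rw [hz, LinearMap.zero_apply] at hx
    rw [← hx, map_zero]
  | succ m ih =>
    intro k hk x hx
    have hdeg : π (-((k + 2 : ℕ) : ℤ)) ((n ^ (k + 1)) x) = (n ^ (k + 1)) x := by
      have h1 := pow_deg hn.deg (k + 1) (k : ℤ)
      have h2 := congrArg (fun f : Module.End K V => f x) h1
      simp only [Module.End.mul_apply, hx] at h2
      have h3 : (k : ℤ) - 2 * ((k + 1 : ℕ) : ℤ) = -((k + 2 : ℕ) : ℤ) := by push_cast; ring
      rw [h3] at h2
      exact h2.symm
    obtain ⟨y, hy, hy2⟩ := hn.surj (k + 2) _ hdeg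
    have hny : π (k : ℤ) (n y) = n y := by
      have h1 := congrArg (fun f : Module.End K V => f y) (hn.deg ((k + 2 : ℕ) : ℤ))
      simp only [Module.End.mul_apply, hy] at h1
      have h3 : ((k + 2 : ℕ) : ℤ) - 2 = (k : ℤ) := by push_cast; ring
      rw [h3] at h1
      exact h1.symm
    have hdy : δ y = 0 := ih (k + 2) (by omega) y hy
    have hp : δ (x - n y) = 0 := by
      apply hn.inj (k + 2)
      · have h1 := congrArg (fun f : Module.End K V => f (x - n y)) (hδ (k : ℤ))
        simp only [Module.End.mul_apply, map_sub, hx, hny] at h1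
        have h3 : ((k + 2 : ℕ) : ℤ) = (k : ℤ) + 2 := by push_cast; ring
        rw [h3, map_sub, map_sub]
        exact h1.symm
      · rw [← hpc]
        have h4 : (n ^ (k + 2)) (x - n y) = 0 := by
          have h5 : (n ^ (k + 2)) (x - n y) = n ((n ^ (k + 1)) (x - n y)) := by
            rw [pow_succ' n (k + 1), Module.End.mul_apply]
          have h6 : (n ^ (k + 1)) (n y) = (n ^ (k + 2)) y := by
            rw [pow_succ n (k + 1), Module.End.mul_apply]
          rw [h5, map_sub, h6, hy2, sub_self, map_zero]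
        rw [h4, map_zero]
    have hny2 : δ (n y) = 0 := by
      have h1 := congrArg (fun f : Module.End K V => f y) hc
      simp only [Module.End.mul_apply] at h1
      rw [h1, hdy, map_zero]
    have : x = (x - n y) + n y := by abel
    rw [this, map_add, hp, hny2, add_zero]

theorem uniq {b : ℕ} {π : ℤ → Module.End K V} (h : Grading b π)
    {n : Module.End K V} (hn : Lef π n) {δ : Module.End K V}
    (hδ : ∀ k, δ * π k = π (k + 2) * δ) (hc : δ * n = n * δ) : δ = 0 := by
  have h0 : ∀ k : ℕ, ∀ x, π (k : ℤ) x = x → δ x = 0 :=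
    fun k x hx => uniq_nonneg h hn hδ hc (b + 1) k (by omega) x hx
  have h1 : ∀ k : ℕ, ∀ x, π (-(k : ℤ)) x = x → δ x = 0 := by
    intro k x hx
    obtain ⟨y, hy, rfl⟩ := hn.surj k x hx
    have h2 : Commute δ (n ^ k) := Commute.pow_right hc k
    have h3 := congrArg (fun f : Module.End K V => f y) h2.eq
    simp only [Module.End.mul_apply] at h3
    rw [h3, h0 k y hy, map_zero]
  apply h.ext
  intro k
  ext x
  rw [Module.End.mul_apply, zero_mul, LinearMap.zero_apply]
  rcases Int.eq_nat_or_neg k with ⟨j, rfl | rfl⟩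
  · exact h0 j _ (h.apply_idem _ x)
  · exact h1 j _ (h.apply_idem _ x)

theorem exists_sl2 [CharZero K] [FiniteDimensional K V] {b : ℕ} {π : ℤ → Module.End K V}
    (h : Grading b π) {n : Module.End K V} (hn : Lef π n) :
    ∃ e : Module.End K V, (∀ k, e * π k = π (k + 2) * e) ∧
      (∀ k, (e * n - n * e) * π k = (k : K) • π k) ∧
      ∀ c : Module.End K V, c * n = n * c → (∀ k, c * π k = π k * c) → c * e = e * c := by
  obtain ⟨e', he'⟩ := exists_e h hn
  set e : Module.End K V := ∑ k ∈ Finset.Icc (-(b : ℤ)) b, π (k + 2) * e' * π k with hedef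
  have he : ∀ k, e * π k = π (k + 2) * e' * π k := fun k => h.sum_mul (fun k => π (k + 2) * e') k
  have hsum : ∀ k, (∑ l ∈ Finset.Icc (-(b : ℤ)) b, (l : K) • π l) * π k = (k : K) • π k := by
    intro k
    have h1 := h.sum_mul (fun l => (l : K) • (1 : Module.End K V)) k
    simpa only [smul_mul_assoc, one_mul] using h1
  have h1 : ∀ k, e * π k = π (k + 2) * e := by
    intro k
    apply h.ext
    intro l
    rw [mul_assoc (π (k + 2)) e (π l), he l]
    by_cases hkl : l = k
    · subst hkl
      rw [mul_assoc, h.idem, he, ← mul_assoc, ← mul_assoc, h.idem]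
    · rw [mul_assoc, h.orth k l (fun hh => hkl hh.symm), mul_zero, ← mul_assoc, ← mul_assoc,
        h.orth (k + 2) (l + 2) (fun hh => hkl (by omega)), zero_mul, zero_mul]
  have h2 : ∀ k, (e * n - n * e) * π k = (k : K) • π k := by
    intro k
    have ha : e * n * π k = π k * (e' * n) * π k := by
      rw [mul_assoc, hn.deg k, ← mul_assoc, he (k - 2)]
      have h3 : k - 2 + 2 = k := by ring
      rw [h3, mul_assoc (π k * e') (π (k - 2)) n, ← hn.deg k]
      simp only [mul_assoc]
    have hb' : n * e * π k = π k * (n * e') * π k := by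
      rw [mul_assoc, he k]
      have h3 : n * π (k + 2) = π k * n := by
        rw [hn.deg (k + 2)]
        congr 2
        ring
      rw [← mul_assoc, ← mul_assoc, h3]
      simp only [mul_assoc]
    rw [sub_mul, ha, hb', ← sub_mul, ← mul_sub, he', mul_assoc, hsum k, mul_smul_comm, h.idem]
  refine ⟨e, h1, h2, ?_⟩
  intro c hcn hcπ
  have h3 : c * (e * n - n * e) = (e * n - n * e) * c := by
    apply h.ext
    intro k
    rw [mul_assoc, h2 k, mul_assoc, hcπ k, ← mul_assoc, h2 k, mul_smul_comm, smul_mul_assoc,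
      hcπ k]
  have h4 : c * e - e * c = 0 := by
    apply uniq h hn
    · intro k
      rw [sub_mul, mul_sub]
      congr 1
      · rw [mul_assoc, h1 k, ← mul_assoc, hcπ, mul_assoc]
      · rw [mul_assoc, hcπ k, ← mul_assoc, h1 k, mul_assoc]
    · have h5 : c * e * n - c * n * e - (e * n * c - n * e * c) = 0 := by
        have h6 := h3
        rw [mul_sub, sub_mul, ← mul_assoc, ← mul_assoc] at h6
        rw [h6, sub_self]
      have h7 : e * c * n = e * n * c := by rw [mul_assoc, hcn, ← mul_assoc]
      have h8 : n * (c * e) = c * n * e := by rw [← mul_assoc, hcn]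
      rw [sub_mul, mul_sub, h7, h8, ← mul_assoc]
      have h9 : c * e * n - e * n * c - (c * n * e - n * e * c)
          = c * e * n - c * n * e - (e * n * c - n * e * c) := by abel
      exact sub_eq_zero.1 (h9.trans h5)
  exact sub_eq_zero.1 h4

end Pool.Agent.ND37
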