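import Pool.Agent.LibND37.Defs

/-! S1 (MEDIUM, only Mathlib): if a polynomial family of endomorphisms `A s = ∑ i < m, s ^ i a i` has `A s₀ ^ r` injective on `S`, then `A s ^ r` is injective on `S` for all but
finitely many `s`. Proof: there is a projection `P` of `V` onto `S` (`P x ∈ S`, `P x = x` on `S`) and, by injectivity, a linear map `C : V → V` with `C (A s₀ ^ r x) = x` for `x ∈ S`
(`LinearMap.exists_leftInverse_of_injective` for `(A s₀ ^ r) ∘ S.subtype`, composed with `S.subtype`). Take a basis (`Module.finBasis K V`), matrices over `K[X]`: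
`𝒜 = ∑ i < m, X ^ i • (toMatrix (a i)).map C`, `D = det (C * 𝒜 ^ r * P + (1 - P))` (matrices of `C`, `P`, `1 - P` mapped by `Polynomial.C`).
`(evalRingHom s).mapMatrix` sends this matrix to the matrix of `C * A s ^ r * P + (1 - P)`, `RingHom.map_det`; at `s₀` it is the matrix of `P + (1 - P) = 1`, so `D ≠ 0`.
If `D.eval s ≠ 0`, `x ∈ S`, `A s ^ r x = 0` then `(C * A s ^ r * P + (1 - P)) x = 0`, so `x = 0` (`LinearMap.det`, injectivity). So the set is contained in the roots of `D`. -/

namespace Pool.Agent.ND37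

open Module Polynomial Pool.Agent.WM85 Pool.Agent.LibX1

variable {K V : Type*} [Field K] [AddCommGroup V] [Module K V]

theorem finite_bad [FiniteDimensional K V] (m : ℕ) (a : ℕ → Module.End K V) (r : ℕ)
    (S : Submodule K V) (s₀ : K)
    (h : ∀ x ∈ S, ((∑ i ∈ Finset.range m, s₀ ^ i • a i) ^ r) x = 0 → x = 0) :
    {s : K | ¬ ∀ x ∈ S, ((∑ i ∈ Finset.range m, s ^ i • a i) ^ r) x = 0 → x = 0}.Finite := by
  classical
  -- projection onto `S`
  obtain ⟨g, hg⟩ := LinearMap.exists_leftInverse_of_injective S.subtype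
    (by rw [Submodule.ker_subtype])
  let P : Module.End K V := S.subtype ∘ₗ g
  have hPS : ∀ x, P x ∈ S := fun x => (g x).2
  have hPx : ∀ x ∈ S, P x = x := by
    intro x hx
    have h1 : g (S.subtype ⟨x, hx⟩) = ⟨x, hx⟩ := by
      have := congrArg (fun F => F ⟨x, hx⟩) hg
      simpa using this
    change S.subtype (g x) = x
    have h2 : g x = ⟨x, hx⟩ := h1
    rw [h2]; rfl
  -- left inverse at `s₀`
  let A₀ : Module.End K V := ∑ i ∈ Finset.range m, s₀ ^ i • a i
  obtain ⟨g', hg'⟩ := LinearMap.exists_leftInverse_of_injective ((A₀ ^ r : Module.End K V) ∘ₗ S.subtype)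
    (by
      rw [LinearMap.ker_eq_bot']
      intro x hx
      have h1 := h x.1 x.2 hx
      exact Subtype.ext h1)
  let Cc : Module.End K V := S.subtype ∘ₗ g'
  have hC : ∀ x ∈ S, Cc ((A₀ ^ r) x) = x := by
    intro x hx
    have h1 := congrArg (fun F => F ⟨x, hx⟩) hg'
    have h2 : g' ((A₀ ^ r) x) = ⟨x, hx⟩ := by simpa using h1
    change S.subtype (g' ((A₀ ^ r) x)) = x
    rw [h2]; rfl
  let b := Module.finBasis K V
  let T : Module.End K V ≃ₐ[K] Matrix (Fin (finrank K V)) (Fin (finrank K V)) K :=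
    LinearMap.toMatrixAlgEquiv b
  let E : Module.End K V →+* Matrix (Fin (finrank K V)) (Fin (finrank K V)) K[X] :=
    (Polynomial.C : K →+* K[X]).mapMatrix.comp (T : Module.End K V →+* _)
  let 𝒜 : Matrix (Fin (finrank K V)) (Fin (finrank K V)) K[X] :=
    ∑ i ∈ Finset.range m, (X : K[X]) ^ i • E (a i)
  let D : K[X] := (E Cc * 𝒜 ^ r * E P + E (1 - P)).det
  have hevE : ∀ (s : K) (f : Module.End K V), (evalRingHom s).mapMatrix (E f) = T f := by
    intro s f
    ext i j
    change Polynomial.eval s (Polynomial.C (T f i j)) = T f i j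
    rw [Polynomial.eval_C]
  have hevA : ∀ s : K, (evalRingHom s).mapMatrix 𝒜 = T (∑ i ∈ Finset.range m, s ^ i • a i) := by
    intro s
    rw [map_sum, map_sum]
    apply Finset.sum_congr rfl
    intro i _
    rw [map_smul T, ← hevE s (a i)]
    ext p q
    simp
  have hD : ∀ s : K, D.eval s =
      (T (Cc * (∑ i ∈ Finset.range m, s ^ i • a i) ^ r * P + (1 - P))).det := by
    intro s
    change (evalRingHom s) (Matrix.det _) = _
    rw [RingHom.map_det]
    congr 1
    rw [map_add, map_mul, map_mul, map_pow, hevE, hevE, hevE, hevA, map_add T, map_mul T,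
      map_mul T, map_pow T]
  have hD0 : D ≠ 0 := by
    intro h0
    have h1 := hD s₀
    rw [h0, Polynomial.eval_zero] at h1
    have h2 : Cc * (∑ i ∈ Finset.range m, s₀ ^ i • a i) ^ r * P + (1 - P) = 1 := by
      ext x
      have h3 : Cc ((A₀ ^ r) (P x)) = P x := hC _ (hPS x)
      change Cc ((A₀ ^ r) (P x)) + (x - P x) = x
      rw [h3]; abel
    rw [h2, map_one, Matrix.det_one] at h1
    exact zero_ne_one h1
  refine (Polynomial.finite_setOf_isRoot hD0).subset ?_
  intro s hs
  rw [Set.mem_setOf_eq] at hs ⊢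
  by_contra hns
  apply hs
  intro x hx hAx
  rw [Polynomial.IsRoot, hD] at hns
  set G : Module.End K V := Cc * (∑ i ∈ Finset.range m, s ^ i • a i) ^ r * P + (1 - P) with hG
  have hdet : LinearMap.det G ≠ 0 := by
    rw [← LinearMap.det_toMatrix b]
    exact hns
  have hGx : G x = 0 := by
    have h1 : P x = x := hPx x hx
    change Cc (((∑ i ∈ Finset.range m, s ^ i • a i) ^ r) (P x)) + (x - P x) = 0
    rw [h1, hAx, map_zero, sub_self, add_zero]
  have := (LinearMap.equivOfDetNeZero G hdet).injective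
  apply this
  rw [map_zero]
  exact hGx

end Pool.Agent.ND37
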